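import Mathlib

/-!
# Cyclic Gray codes (lowest bit first)
-/

namespace Pool.Agent.Lib.EsopHard

/-- the cyclic Gray code with `k` bits, position `t` modulo `2 ^ k` -/
def gray : ℕ → ℕ → List Bool
  | 0, _ => []
  | 1, t => [decide (t % 2 = 1)]
  | k + 2, t => (decide (t % 2 = 1) ^^ decide (t / 2 % 2 = 1)) :: gray (k + 1) (t / 2)

/-- the two lists differ at exactly one position -/
inductive Adj : List Bool → List Bool → Prop
  | head (b : Bool) (l : List Bool) : Adj (b :: l) ((!b) :: l)
  | tail (b : Bool) {l l' : List Bool} (h : Adj l l') : Adj (b :: l) (b :: l')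

theorem length_gray : ∀ k t, (gray k t).length = k
  | 0, _ => rfl
  | 1, _ => rfl
  | k + 2, t => by rw [gray, List.length_cons, length_gray (k + 1) (t / 2)]

theorem gray_adj : ∀ k t, Adj (gray (k + 1) t) (gray (k + 1) (t + 1))
  | 0, t => by
    have h : decide ((t + 1) % 2 = 1) = !decide (t % 2 = 1) := by
      rcases Nat.mod_two_eq_zero_or_one t with h | h
      · have : (t + 1) % 2 = 1 := by omega
        simp [h, this]
      · have : (t + 1) % 2 = 0 := by omega
        simp [h, this]
    rw [gray, gray, h]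
    exact Adj.head _ _
  | k + 1, t => by
    rw [gray, gray]
    rcases Nat.mod_two_eq_zero_or_one t with h | h
    · have h1 : (t + 1) % 2 = 1 := by omega
      have h2 : (t + 1) / 2 = t / 2 := by omega
      rw [h, h1, h2]
      have : (decide (1 = 1) ^^ decide (t / 2 % 2 = 1)) = !(decide (0 = 1) ^^ decide (t / 2 % 2 = 1)) := by
        simp
      rw [this]
      exact Adj.head _ _
    · have h1 : (t + 1) % 2 = 0 := by omega
      have h2 : (t + 1) / 2 = t / 2 + 1 := by omega
      rw [h, h1, h2]
      have : (decide (0 = 1) ^^ decide ((t / 2 + 1) % 2 = 1)) = (decide (1 = 1) ^^ decide (t / 2 % 2 = 1)) := by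
        rcases Nat.mod_two_eq_zero_or_one (t / 2) with h3 | h3
        · have : (t / 2 + 1) % 2 = 1 := by omega
          simp [h3, this]
        · have : (t / 2 + 1) % 2 = 0 := by omega
          simp [h3, this]
      rw [this]
      exact Adj.tail _ (gray_adj k (t / 2))

theorem gray_add : ∀ k t, gray k (t + 2 ^ k) = gray k t
  | 0, _ => rfl
  | 1, t => by
    have : (t + 2 ^ 1) % 2 = t % 2 := by omega
    rw [gray, gray, this]
  | k + 2, t => by
    have h1 : (t + 2 ^ (k + 2)) % 2 = t % 2 := by
      rw [pow_succ]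
      omega
    have h2 : (t + 2 ^ (k + 2)) / 2 = t / 2 + 2 ^ (k + 1) := by
      rw [pow_succ]
      omega
    have h3 : (t / 2 + 2 ^ (k + 1)) % 2 = t / 2 % 2 := by
      rw [pow_succ]
      omega
    rw [gray, gray, h1, h2, h3, gray_add (k + 1) (t / 2)]

theorem gray_mod (k t : ℕ) : gray k (t % 2 ^ k) = gray k t := by
  have h : ∀ m, gray k (t % 2 ^ k + 2 ^ k * m) = gray k (t % 2 ^ k) := by
    intro m
    induction m with
    | zero => rfl
    | succ m ih => rw [Nat.mul_succ, ← Nat.add_assoc, gray_add, ih]
  rw [← h (t / 2 ^ k), Nat.mod_add_div]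

theorem gray_inj : ∀ k t u, gray k t = gray k u → t % 2 ^ k = u % 2 ^ k
  | 0, t, u, _ => by simp [Nat.mod_one]
  | 1, t, u, h => by
    rw [gray, gray] at h
    have h1 : (t % 2 = 1) ↔ (u % 2 = 1) := by simpa using h
    rw [pow_one]
    omega
  | k + 2, t, u, h => by
    rw [gray, gray, List.cons.injEq] at h
    have h1 := gray_inj (k + 1) _ _ h.2
    have h2 : t / 2 % 2 = u / 2 % 2 := by
      have h3 : t / 2 % 2 ^ (k + 1) % 2 = u / 2 % 2 ^ (k + 1) % 2 := by rw [h1]
      rwa [Nat.mod_mod_of_dvd _ (dvd_pow_self 2 (Nat.succ_ne_zero k)),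
        Nat.mod_mod_of_dvd _ (dvd_pow_self 2 (Nat.succ_ne_zero k))] at h3
    have h4 : t % 2 = u % 2 := by
      have h5 := h.1
      rw [h2] at h5
      have h6 : decide (t % 2 = 1) = decide (u % 2 = 1) := by
        revert h5
        cases decide (t % 2 = 1) <;> cases decide (u % 2 = 1) <;> cases decide (u / 2 % 2 = 1) <;> simp
      have h7 : (t % 2 = 1) ↔ (u % 2 = 1) := by simpa using h6
      omega
    have e : ∀ x, x % 2 ^ (k + 2) = 2 * (x / 2 % 2 ^ (k + 1)) + x % 2 := by
      intro x
      rw [pow_succ 2 (k + 1), mul_comm (2 ^ (k + 1)) 2, Nat.mod_mul]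
      omega
    rw [e t, e u, h1, h4]

theorem Adj.append_left {l l' : List Bool} (h : Adj l l') (m : List Bool) : Adj (m ++ l) (m ++ l') := by
  induction m with
  | nil => exact h
  | cons b m ih => exact Adj.tail b ih

theorem Adj.append_right {l l' : List Bool} (h : Adj l l') (m : List Bool) : Adj (l ++ m) (l' ++ m) := by
  induction h with
  | head b l => exact Adj.head b _
  | tail b _ ih => exact Adj.tail b ih

theorem Adj.symm {l l' : List Bool} (h : Adj l l') : Adj l' l := by
  induction h with
  | head b l =>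
    have := Adj.head (!b) l
    rwa [Bool.not_not] at this
  | tail b _ ih => exact Adj.tail b ih

theorem Adj.length_eq {l l' : List Bool} (h : Adj l l') : l.length = l'.length := by
  induction h with
  | head b l => rfl
  | tail b _ ih => simp [ih]

end Pool.Agent.Lib.EsopHard
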