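import Pool.Agent.Lib.MP_a221bc_esop.Defs

/-!
# ESOP minimisation: the terms for a satisfying assignment, on labels
-/

set_option linter.unusedSimpArgs false

namespace Pool.Agent.Lib.EsopHard

/-- A term on labels: slices, rows, columns. -/
abbrev LT (α β : Type) := List (Sl α β) × List (Row α β) × List (Col α β)

variable {V W : ℕ} [NeZero V] [NeZero W]

/-- The eleven terms of `c`. `b`: bits of the blocks `t`; `vs C`: position of the literal chosen in
the clause `C`. -/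
def lterms (inc : Fin V × Fin W → Bool) (act : Fin W → Bool) (b : Fin V × Fin W → Bool)
    (vs : Fin W → ℕ) (c : Fin V × Fin W) : List (LT (Fin V) (Fin W)) :=
  [(if c.1.val = vs c.2 then [.T c, .L c, .O c, .D c] else [.T c, .L c],
      [ht c], if b c then [pt c, qt c] else [pt c]),
    ([.T c, .L (c.1, c.2 + 1)], if b c then [ht' c, ht c] else [ht' c], [qt c]),
    ([.L c], if b (c.1, c.2 - 1) then [rL c, ht (c.1, c.2 - 1)] else [rL c],
      [qt (c.1, c.2 - 1), qt c]),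
    ([.L c], [ht (c.1, c.2 - 1), ht c], if b (c.1, c.2 - 1) then [cL c, qt c] else [cL c]),
    ([.D c], if c.1.val = vs c.2 then [rD c, ht c] else [rD c], [pt c]),
    ([.O c], if c.1.val = vs c.2 then [r1 c, hs c] else [r1 c],
      if inc c then [pt c, ps c] else [pt c]),
    ([.O c], if inc c then [ht c, hs c] else [ht c],
      if c.1.val = vs c.2 then [c1 c, pt c] else [c1 c]),
    (if c.1 = 0 then ([.O c], [r2 c], [qt c]) else
      ([.O c], if vs c.2 < c.1.val then [r2 c, hs c] else [r2 c], [ps c, qs (c.1 - 1, c.2)])),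
    (if c.1 = 0 then ([.O c], [ht' c], [c2 c]) else
      ([.O c], [hs c, hs' (c.1 - 1, c.2)],
        if vs c.2 < c.1.val then [c2 c, qs (c.1 - 1, c.2)] else [c2 c])),
    (if c.1.val < vs c.2 then
      (if c.1 ≠ 0 ∨ act c.2 = true then [.S c, .O c] else [.S c], [hs c], [ps c])
      else ([.S c], [hs c], [ps c, qs c])),
    (if c.1.val < vs c.2 then ([.S c], [hs c, hs' c], [qs c])
      else (if c.1 + 1 ≠ 0 ∨ act c.2 = true then [.S c, .O (c.1 + 1, c.2)] else [.S c],
        [hs' c], [qs c]))]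

/-- the value of a term on labels, for the weights `δ`, `ρ`, `κ` -/
def ltVal {α β : Type} (δ : Sl α β → ZMod 2) (ρ : Row α β → ZMod 2) (κ : Col α β → ZMod 2)
    (l : LT α β) : ZMod 2 :=
  (l.1.map δ).sum * (l.2.1.map ρ).sum * (l.2.2.map κ).sum

/-- the sum of the weights of the cells of a slice -/
def slVal {α β : Type} (d : Dat α β) (δ : Sl α β → ZMod 2) (ρ : Row α β → ZMod 2)
    (κ : Col α β → ZMod 2) (a : Sl α β) : ZMod 2 :=
  δ a * ((d.cells a).map fun p => ρ p.1 * κ p.2).sum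

theorem length_lterms (inc : Fin V × Fin W → Bool) (act : Fin W → Bool) (b : Fin V × Fin W → Bool)
    (vs : Fin W → ℕ) (c : Fin V × Fin W) : (lterms inc act b vs c).length = 11 := rfl

theorem shift_c (g : Fin V × Fin W → Fin V × Fin W → ZMod 2) :
    ∑ c, g c (c.1, c.2 + 1) = ∑ c, g (c.1, c.2 - 1) c := by
  refine Fintype.sum_equiv (Equiv.prodCongr (Equiv.refl _) (Equiv.addRight (1 : Fin W))) _ _ fun c => ?_
  obtain ⟨v, C⟩ := c
  simp

theorem shift_v (g : Fin V × Fin W → Fin V × Fin W → ZMod 2) :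
    ∑ c, g c (c.1 + 1, c.2) = ∑ c, g (c.1 - 1, c.2) c := by
  refine Fintype.sum_equiv (Equiv.prodCongr (Equiv.addRight (1 : Fin V)) (Equiv.refl _)) _ _ fun c => ?_
  obtain ⟨v, C⟩ := c
  simp

section

variable (inc : Fin V × Fin W → Bool) (act : Fin W → Bool) (b : Fin V × Fin W → Bool)
    (vs : Fin W → ℕ) (δ : Sl (Fin V) (Fin W) → ZMod 2) (ρ : Row (Fin V) (Fin W) → ZMod 2)
    (κ : Col (Fin V) (Fin W) → ZMod 2)

/-- first term of a block `t` -/
def mu1 (c : Fin V × Fin W) : ZMod 2 := ρ (ht c) * (κ (pt c) + if b c then κ (qt c) else 0)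
/-- second term of a block `t` -/
def mu2 (c : Fin V × Fin W) : ZMod 2 := (ρ (ht' c) + if b c then ρ (ht c) else 0) * κ (qt c)
/-- slice `S` -/
def pS (c : Fin V × Fin W) : ZMod 2 :=
  (if c.1.val < vs c.2 then ρ (hs c) * κ (ps c) else ρ (hs c) * (κ (ps c) + κ (qs c))) +
    if c.1.val < vs c.2 then (ρ (hs c) + ρ (hs' c)) * κ (qs c) else ρ (hs' c) * κ (qs c)
/-- slice `L` -/
def pL (c : Fin V × Fin W) : ZMod 2 :=
  mu1 b ρ κ c + (ρ (rL c) + if b (c.1, c.2 - 1) then ρ (ht (c.1, c.2 - 1)) else 0) *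
      (κ (qt (c.1, c.2 - 1)) + κ (qt c)) +
    (ρ (ht (c.1, c.2 - 1)) + ρ (ht c)) * (κ (cL c) + if b (c.1, c.2 - 1) then κ (qt c) else 0)
/-- slice `D` -/
def pD (c : Fin V × Fin W) : ZMod 2 :=
  (if c.1.val = vs c.2 then mu1 b ρ κ c else 0) +
    (ρ (rD c) + if c.1.val = vs c.2 then ρ (ht c) else 0) * κ (pt c)
/-- slice `O` -/
def pO (c : Fin V × Fin W) : ZMod 2 :=
  (if c.1.val = vs c.2 then mu1 b ρ κ c else 0) +
    (ρ (r1 c) + if c.1.val = vs c.2 then ρ (hs c) else 0) * (κ (pt c) + if inc c then κ (ps c) else 0) +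
    (ρ (ht c) + if inc c then ρ (hs c) else 0) * (κ (c1 c) + if c.1.val = vs c.2 then κ (pt c) else 0) +
    (if c.1 = 0 then ρ (r2 c) * κ (qt c) else
      (ρ (r2 c) + if vs c.2 < c.1.val then ρ (hs c) else 0) * (κ (ps c) + κ (qs (c.1 - 1, c.2)))) +
    (if c.1 = 0 then ρ (ht' c) * κ (c2 c) else
      (ρ (hs c) + ρ (hs' (c.1 - 1, c.2))) * (κ (c2 c) + if vs c.2 < c.1.val then κ (qs (c.1 - 1, c.2)) else 0)) +
    if c.1.val < vs c.2 then (if c.1 ≠ 0 ∨ act c.2 = true then ρ (hs c) * κ (ps c) else 0) else 0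
/-- contribution of `s c` to the slice `O c'`, `c'` the next position -/
def pG (c c' : Fin V × Fin W) : ZMod 2 :=
  if c.1.val < vs c.2 then 0 else (if c'.1 ≠ 0 ∨ act c.2 = true then ρ (hs' c) * κ (qs c) else 0)

theorem lterms_split (c : Fin V × Fin W) :
    ((lterms inc act b vs c).map (ltVal δ ρ κ)).sum =
      (δ (.T c) * (mu1 b ρ κ c + mu2 b ρ κ c) + δ (.S c) * pS vs ρ κ c + δ (.L c) * pL b ρ κ c +
        δ (.D c) * pD b vs ρ κ c + δ (.O c) * pO inc act b vs ρ κ c) +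
      δ (.L (c.1, c.2 + 1)) * mu2 b ρ κ c + δ (.O (c.1 + 1, c.2)) * pG act vs ρ κ c (c.1 + 1, c.2) := by
  have t1 : ltVal δ ρ κ (if c.1.val = vs c.2 then [.T c, .L c, .O c, .D c] else [.T c, .L c],
      [ht c], if b c then [pt c, qt c] else [pt c]) = δ (.T c) * mu1 b ρ κ c + δ (.L c) * mu1 b ρ κ c +
        δ (.O c) * (if c.1.val = vs c.2 then mu1 b ρ κ c else 0) +
        δ (.D c) * (if c.1.val = vs c.2 then mu1 b ρ κ c else 0) := by
    unfold ltVal mu1
    split_ifs <;> simp <;> ring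
  have t2 : ltVal δ ρ κ ([.T c, .L (c.1, c.2 + 1)], if b c then [ht' c, ht c] else [ht' c], [qt c]) =
      δ (.T c) * mu2 b ρ κ c + δ (.L (c.1, c.2 + 1)) * mu2 b ρ κ c := by
    unfold ltVal mu2
    split_ifs <;> simp <;> ring
  have t3 : ltVal δ ρ κ ([.L c], if b (c.1, c.2 - 1) then [rL c, ht (c.1, c.2 - 1)] else [rL c],
      [qt (c.1, c.2 - 1), qt c]) = δ (.L c) * ((ρ (rL c) + if b (c.1, c.2 - 1) then ρ (ht (c.1, c.2 - 1)) else 0) *
      (κ (qt (c.1, c.2 - 1)) + κ (qt c))) := by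
    unfold ltVal
    split_ifs <;> simp <;> ring
  have t4 : ltVal δ ρ κ ([.L c], [ht (c.1, c.2 - 1), ht c], if b (c.1, c.2 - 1) then [cL c, qt c] else [cL c]) =
      δ (.L c) * ((ρ (ht (c.1, c.2 - 1)) + ρ (ht c)) * (κ (cL c) + if b (c.1, c.2 - 1) then κ (qt c) else 0)) := by
    unfold ltVal
    split_ifs <;> simp <;> ring
  have t5 : ltVal δ ρ κ ([.D c], if c.1.val = vs c.2 then [rD c, ht c] else [rD c], [pt c]) =
      δ (.D c) * ((ρ (rD c) + if c.1.val = vs c.2 then ρ (ht c) else 0) * κ (pt c)) := by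
    unfold ltVal
    split_ifs <;> simp <;> ring
  have t6 : ltVal δ ρ κ ([.O c], if c.1.val = vs c.2 then [r1 c, hs c] else [r1 c],
      if inc c then [pt c, ps c] else [pt c]) =
      δ (.O c) * ((ρ (r1 c) + if c.1.val = vs c.2 then ρ (hs c) else 0) * (κ (pt c) + if inc c then κ (ps c) else 0)) := by
    unfold ltVal
    split_ifs <;> simp <;> ring
  have t7 : ltVal δ ρ κ ([.O c], if inc c then [ht c, hs c] else [ht c],
      if c.1.val = vs c.2 then [c1 c, pt c] else [c1 c]) =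
      δ (.O c) * ((ρ (ht c) + if inc c then ρ (hs c) else 0) * (κ (c1 c) + if c.1.val = vs c.2 then κ (pt c) else 0)) := by
    unfold ltVal
    split_ifs <;> simp <;> ring
  have t8 : ltVal δ ρ κ (if c.1 = 0 then ([.O c], [r2 c], [qt c]) else
      ([.O c], if vs c.2 < c.1.val then [r2 c, hs c] else [r2 c], [ps c, qs (c.1 - 1, c.2)])) =
      δ (.O c) * (if c.1 = 0 then ρ (r2 c) * κ (qt c) else
      (ρ (r2 c) + if vs c.2 < c.1.val then ρ (hs c) else 0) * (κ (ps c) + κ (qs (c.1 - 1, c.2)))) := by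
    unfold ltVal
    split_ifs <;> simp <;> ring
  have t9 : ltVal δ ρ κ (if c.1 = 0 then ([.O c], [ht' c], [c2 c]) else
      ([.O c], [hs c, hs' (c.1 - 1, c.2)],
        if vs c.2 < c.1.val then [c2 c, qs (c.1 - 1, c.2)] else [c2 c])) =
      δ (.O c) * (if c.1 = 0 then ρ (ht' c) * κ (c2 c) else
      (ρ (hs c) + ρ (hs' (c.1 - 1, c.2))) * (κ (c2 c) + if vs c.2 < c.1.val then κ (qs (c.1 - 1, c.2)) else 0)) := by
    unfold ltVal
    split_ifs <;> simp <;> ring
  have t10 : ltVal δ ρ κ (if c.1.val < vs c.2 then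
      (if c.1 ≠ 0 ∨ act c.2 = true then [.S c, .O c] else [.S c], [hs c], [ps c])
      else ([.S c], [hs c], [ps c, qs c])) =
      δ (.S c) * (if c.1.val < vs c.2 then ρ (hs c) * κ (ps c) else ρ (hs c) * (κ (ps c) + κ (qs c))) +
      δ (.O c) * (if c.1.val < vs c.2 then (if c.1 ≠ 0 ∨ act c.2 = true then ρ (hs c) * κ (ps c) else 0) else 0) := by
    unfold ltVal
    split_ifs <;> simp <;> ring
  have t11 : ltVal δ ρ κ (if c.1.val < vs c.2 then ([.S c], [hs c, hs' c], [qs c])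
      else (if c.1 + 1 ≠ 0 ∨ act c.2 = true then [.S c, .O (c.1 + 1, c.2)] else [.S c],
        [hs' c], [qs c])) =
      δ (.S c) * (if c.1.val < vs c.2 then (ρ (hs c) + ρ (hs' c)) * κ (qs c) else ρ (hs' c) * κ (qs c)) +
      δ (.O (c.1 + 1, c.2)) * pG act vs ρ κ c (c.1 + 1, c.2) := by
    unfold ltVal pG
    split_ifs <;> simp <;> ring
  simp only [lterms, List.map_cons, List.sum_cons, List.map_nil, List.sum_nil]
  rw [t1, t2, t3, t4, t5, t6, t7, t8, t9, t10, t11]
  unfold pS pL pD pO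
  ring

theorem id_T (c : Fin V × Fin W) : mu1 b ρ κ c + mu2 b ρ κ c =
    ρ (ht c) * κ (pt c) + ρ (ht' c) * κ (qt c) := by
  unfold mu1 mu2
  rw [← CharTwo.add_eq_zero]
  split_ifs <;> ring_nf <;> reduce_mod_char

theorem id_S (c : Fin V × Fin W) : pS vs ρ κ c =
    ρ (hs c) * κ (ps c) + ρ (hs c) * κ (qs c) + ρ (hs' c) * κ (qs c) := by
  unfold pS
  split_ifs <;> ring

theorem id_D (c : Fin V × Fin W) (h : c.1.val = vs c.2 → b c = false) : pD b vs ρ κ c =
    ρ (rD c) * κ (pt c) := by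
  unfold pD mu1
  by_cases h1 : c.1.val = vs c.2
  · rw [if_pos h1, if_pos h1, h h1, ← CharTwo.add_eq_zero]
    simp only [Bool.false_eq_true, if_false]
    ring_nf
    reduce_mod_char
  · rw [if_neg h1, if_neg h1]
    ring

theorem id_L (sg : Fin V × Fin W → Bool) (c : Fin V × Fin W)
    (hb : b (c.1, c.2 - 1) = b c ↔ sg (c.1, c.2 - 1) = sg c) :
    pL b ρ κ c + mu2 b ρ κ (c.1, c.2 - 1) =
      ((((finDat V W inc sg act).cells (.L c)).map fun p => ρ p.1 * κ p.2).sum) := by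
  unfold pL mu1 mu2
  rw [← CharTwo.add_eq_zero]
  rcases h1 : b (c.1, c.2 - 1) with _ | _ <;> rcases h2 : b c with _ | _ <;>
    by_cases h3 : sg (c.1, c.2 - 1) = sg c
  all_goals first
    | (exfalso; simp [h1, h2, h3] at hb; done)
    | (simp [Dat.cells, finDat, h1, h2, h3]; ring_nf; reduce_mod_char; done)

theorem id_O (sg : Fin V × Fin W → Bool) (c : Fin V × Fin W) (hinc : ∀ C, inc (0, C) = false)
    (hvs0 : 0 < vs c.2) (hvs : c.1.val = vs c.2 → inc c = true ∧ b c = false)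
    (hact : act c.2 = true ↔ vs c.2 < V) :
    pO inc act b vs ρ κ c + pG act vs ρ κ (c.1 - 1, c.2) c =
      ((((finDat V W inc sg act).cells (.O c)).map fun p => ρ p.1 * κ p.2).sum) := by
  obtain ⟨v, C⟩ := c
  have hV : 0 < V := Nat.pos_of_ne_zero (NeZero.ne V)
  simp only at hvs0 hvs hact
  unfold pO pG mu1
  rw [← CharTwo.add_eq_zero]
  by_cases hv : v = 0
  · subst hv
    have h1 : ((0 : Fin V).val) = 0 := rfl
    have h2 : ((0 : Fin V) - 1).val = V - 1 := by
      obtain ⟨m, rfl⟩ : ∃ m, V = m + 1 := ⟨V - 1, by omega⟩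
      rw [zero_sub, Fin.coe_neg_one]
      rfl
    simp only [h1, h2, hinc, if_neg hvs0.ne, if_pos hvs0, if_true]
    rcases ha : act C with _ | _
    · have h3 : ¬ vs C < V := fun h => by rw [ha] at hact; exact absurd (hact.2 h) (by decide)
      have h4 : V - 1 < vs C := by omega
      simp [Dat.cells, finDat, ha, hinc, h4]
      ring_nf
      reduce_mod_char
    · have h3 : vs C < V := hact.1 ha
      have h4 : ¬ V - 1 < vs C := by omega
      simp [Dat.cells, finDat, ha, hinc, h4]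
      ring_nf
      reduce_mod_char
  · have h2 : (v - 1).val = v.val - 1 := Fin.val_sub_one_of_ne_zero hv
    have h3 : 0 < v.val := Nat.pos_of_ne_zero (fun h => hv (Fin.ext h))
    simp only [h2]
    rcases lt_trichotomy v.val (vs C) with h | h | h
    · have e1 : v.val ≠ vs C := h.ne
      have e2 : ¬ vs C < v.val := by omega
      have e3 : v.val - 1 < vs C := by omega
      rcases hi : inc (v, C) with _ | _ <;> simp [Dat.cells, finDat, h, e1, e2, e3, hv, hi] <;> ring_nf <;>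
        reduce_mod_char
    · obtain ⟨e4, e5⟩ := hvs h
      have e1 : ¬ v.val < vs C := by omega
      have e2 : ¬ vs C < v.val := by omega
      have e3 : v.val - 1 < vs C := by omega
      simp [Dat.cells, finDat, h, e1, e2, e3, hv, e4, e5, hvs0]
      ring_nf
      reduce_mod_char
    · have e1 : v.val ≠ vs C := h.ne'
      have e2 : ¬ v.val < vs C := by omega
      have e3 : ¬ v.val - 1 < vs C := by omega
      rcases hi : inc (v, C) with _ | _ <;> simp [Dat.cells, finDat, h, e1, e2, e3, hv, hi] <;> ring_nf <;>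
        reduce_mod_char

end

theorem yes_identity (inc sg : Fin V × Fin W → Bool) (act : Fin W → Bool)
    (b : Fin V × Fin W → Bool) (vs : Fin W → ℕ) (hinc : ∀ C, inc (0, C) = false)
    (hb : ∀ c, b (c.1, c.2 - 1) = b c ↔ sg (c.1, c.2 - 1) = sg c)
    (hvs0 : ∀ C, 0 < vs C)
    (hvs : ∀ c : Fin V × Fin W, c.1.val = vs c.2 → inc c = true ∧ b c = false)
    (hact : ∀ C, act C = true ↔ vs C < V)
    (δ : Sl (Fin V) (Fin W) → ZMod 2) (ρ : Row (Fin V) (Fin W) → ZMod 2)
    (κ : Col (Fin V) (Fin W) → ZMod 2) :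
    ∑ c, ((lterms inc act b vs c).map (ltVal δ ρ κ)).sum =
      ∑ c, (slVal (finDat V W inc sg act) δ ρ κ (.T c) + slVal (finDat V W inc sg act) δ ρ κ (.S c) +
        slVal (finDat V W inc sg act) δ ρ κ (.L c) + slVal (finDat V W inc sg act) δ ρ κ (.D c) +
        slVal (finDat V W inc sg act) δ ρ κ (.O c)) := by
  have e1 : ∀ c, slVal (finDat V W inc sg act) δ ρ κ (.T c) = δ (.T c) * (mu1 b ρ κ c + mu2 b ρ κ c) := by
    intro c
    rw [id_T]
    simp [slVal, Dat.cells]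
  have e2 : ∀ c, slVal (finDat V W inc sg act) δ ρ κ (.S c) = δ (.S c) * pS vs ρ κ c := by
    intro c
    rw [id_S]
    simp [slVal, Dat.cells, add_assoc]
  have e3 : ∀ c, slVal (finDat V W inc sg act) δ ρ κ (.L c) =
      δ (.L c) * pL b ρ κ c + δ (.L c) * mu2 b ρ κ (c.1, c.2 - 1) := by
    intro c
    rw [← mul_add, id_L inc act b ρ κ sg c (hb c)]
    rfl
  have e4 : ∀ c, slVal (finDat V W inc sg act) δ ρ κ (.D c) = δ (.D c) * pD b vs ρ κ c := by
    intro c
    rw [id_D b vs ρ κ c (fun h => (hvs c h).2)]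
    simp [slVal, Dat.cells]
  have e5 : ∀ c, slVal (finDat V W inc sg act) δ ρ κ (.O c) =
      δ (.O c) * pO inc act b vs ρ κ c + δ (.O c) * pG act vs ρ κ (c.1 - 1, c.2) c := by
    intro c
    rw [← mul_add, id_O inc act b vs ρ κ sg c hinc (hvs0 _) (hvs c) (hact _)]
    rfl
  simp only [lterms_split, e1, e2, e3, e4, e5]
  rw [Finset.sum_add_distrib, Finset.sum_add_distrib,
    shift_c (fun c c' => δ (.L c') * mu2 b ρ κ c), shift_v (fun c c' => δ (.O c') * pG act vs ρ κ c c'),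
    ← Finset.sum_add_distrib, ← Finset.sum_add_distrib]
  refine Finset.sum_congr rfl fun c _ => ?_
  ring

end Pool.Agent.Lib.EsopHard
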