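import Pool.Agent.Lib.MP_a221bc_esop.Statement
import Pool.Agent.Lib.MP_a221bc_esop.Yes
import Pool.Agent.Lib.MP_a221bc_esop.Gray

/-!
# ESOP minimisation: codes of the labels, faces of the cube
-/

set_option linter.unusedSimpArgs false

namespace Pool.Agent.Lib.EsopHard

/-! ## Faces -/

/-- the points of `S` are the points of a face: their indicator is a product term -/
def IsTerm (n : ℕ) (S : List (List Bool)) : Prop :=
  ∃ t : List (Option Bool), t.length = n ∧ ∀ x : List Bool, x.length = n →
    (if termVal t x then (1 : ZMod 2) else 0) = (S.map fun g => if x = g then (1 : ZMod 2) else 0).sum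

theorem termVal_some : ∀ (g x : List Bool), x.length = g.length →
    termVal (g.map some) x = decide (x = g)
  | [], [], _ => by simp [termVal]
  | b :: g, c :: x, h => by
    have := termVal_some g x (by simpa using h)
    rw [List.map_cons, termVal, this]
    by_cases h1 : b = c
    · subst h1
      simp
    · simp [h1, Ne.symm h1]
  | [], _ :: _, h => by simp at h
  | _ :: _, [], h => by simp at h

theorem IsTerm.single (g : List Bool) : IsTerm g.length [g] := by
  refine ⟨g.map some, by simp, fun x hx => ?_⟩
  rw [termVal_some g x hx]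
  simp

theorem IsTerm.edge {g g' : List Bool} (h : Adj g g') : IsTerm g.length [g, g'] := by
  induction h with
  | head b l =>
    refine ⟨none :: l.map some, by simp, fun x hx => ?_⟩
    rcases x with _ | ⟨c, x⟩
    · simp at hx
    · rw [termVal, termVal_some l x (by simpa using hx)]
      cases b <;> cases c <;> simp
  | @tail b l l' h ih =>
    obtain ⟨t, ht, hx⟩ := ih
    refine ⟨some b :: t, by simp [ht], fun x hx' => ?_⟩
    rcases x with _ | ⟨c, x⟩
    · simp at hx'
    · have := hx x (by simpa using hx')
      rw [termVal]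
      by_cases h1 : b = c
      · subst h1
        simpa using this
      · simp [h1, Ne.symm h1]

theorem IsTerm.perm {n : ℕ} {S S' : List (List Bool)} (h : IsTerm n S) (hp : S.Perm S') : IsTerm n S' := by
  obtain ⟨t, ht, hx⟩ := h
  exact ⟨t, ht, fun x hx' => by rw [hx x hx']; exact (hp.map _).sum_eq⟩

theorem termVal_append : ∀ (t : List (Option Bool)) (x : List Bool) (t' : List (Option Bool)) (x' : List Bool),
    t.length = x.length → termVal (t ++ t') (x ++ x') = (termVal t x && termVal t' x')
  | [], [], t', x', _ => by simp [termVal]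
  | none :: t, c :: x, t', x', h => by
    rw [List.cons_append, List.cons_append, termVal, termVal, termVal_append t x t' x' (by simpa using h)]
  | some b :: t, c :: x, t', x', h => by
    rw [List.cons_append, List.cons_append, termVal, termVal, termVal_append t x t' x' (by simpa using h),
      Bool.and_assoc]
  | [], _ :: _, _, _, h => by simp at h
  | _ :: _, [], _, _, h => by simp at h

theorem sum_mul_sum (S : List (List Bool)) (f : List Bool → ZMod 2) (a : ZMod 2) :
    (S.map fun g => f g * a).sum = (S.map f).sum * a := by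
  induction S with
  | nil => simp
  | cons g S ih => simp [ih, add_mul]

theorem IsTerm.append {n m : ℕ} {S S' : List (List Bool)} (h : IsTerm n S) (h' : IsTerm m S')
    (hS : ∀ g ∈ S, g.length = n) : IsTerm (n + m) (S.flatMap fun g => S'.map fun g' => g ++ g') := by
  obtain ⟨t, ht, hx⟩ := h
  obtain ⟨t', ht', hx'⟩ := h'
  refine ⟨t ++ t', by simp [ht, ht'], fun x hlen => ?_⟩
  obtain ⟨y, z, rfl, hy, hz⟩ : ∃ y z, x = y ++ z ∧ y.length = n ∧ z.length = m :=
    ⟨x.take n, x.drop n, (List.take_append_drop n x).symm, by simp [hlen], by simp [hlen]⟩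
  rw [termVal_append t y t' z (by rw [ht, hy])]
  have e1 : (if (termVal t y && termVal t' z) = true then (1 : ZMod 2) else 0) =
      (if termVal t y then (1 : ZMod 2) else 0) * (if termVal t' z then (1 : ZMod 2) else 0) := by
    cases termVal t y <;> cases termVal t' z <;> simp
  rw [e1, hx y hy, hx' z hz, ← sum_mul_sum]
  clear hx ht e1
  induction S with
  | nil => simp
  | cons g S ih =>
    have hg : g.length = n := hS g (List.mem_cons_self ..)
    rw [List.map_cons, List.sum_cons, List.flatMap_cons, List.map_append, List.sum_append, List.map_map,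
      ih (fun g hg => hS g (List.mem_cons_of_mem _ hg))]
    congr 1
    by_cases h1 : y = g
    · subst h1
      simp [Function.comp_def]
    · have : ∀ g', ¬ (y ++ z = g ++ g') := fun g' h2 => h1 (List.append_inj_left h2 (by rw [hy, hg]))
      simp [Function.comp_def, h1, this]

/-! ## Codes -/

/-- codes of slices -/
def ca (i j x y : ℕ) (b : Bool) : List Bool := gray (i + 2) x ++ (gray (j + 2) y ++ [b])

/-- codes of rows and columns -/
def cr (i j x y : ℕ) (l : List Bool) : List Bool := gray (i + 2) x ++ (gray (j + 1) y ++ l)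

theorem length_ca (i j x y : ℕ) (b : Bool) : (ca i j x y b).length = i + j + 5 := by
  simp only [ca, List.length_append, length_gray, List.length_singleton]
  omega

theorem length_cr (i j x y : ℕ) (l : List Bool) : (cr i j x y l).length = i + j + 3 + l.length := by
  simp only [cr, List.length_append, length_gray]
  omega

theorem ca_inj {i j x y x' y' : ℕ} {b b' : Bool} (h : ca i j x y b = ca i j x' y' b') :
    x % 2 ^ (i + 2) = x' % 2 ^ (i + 2) ∧ y % 2 ^ (j + 2) = y' % 2 ^ (j + 2) ∧ b = b' := by
  obtain ⟨h1, h2⟩ := List.append_inj h (by simp [length_gray])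
  obtain ⟨h3, h4⟩ := List.append_inj h2 (by simp [length_gray])
  exact ⟨gray_inj _ _ _ h1, gray_inj _ _ _ h3, by simpa using h4⟩

theorem cr_inj {i j x y x' y' : ℕ} {l l' : List Bool} (h : cr i j x y l = cr i j x' y' l') :
    x % 2 ^ (i + 2) = x' % 2 ^ (i + 2) ∧ y % 2 ^ (j + 1) = y' % 2 ^ (j + 1) ∧ l = l' := by
  obtain ⟨h1, h2⟩ := List.append_inj h (by simp [length_gray])
  obtain ⟨h3, h4⟩ := List.append_inj h2 (by simp [length_gray])
  exact ⟨gray_inj _ _ _ h1, gray_inj _ _ _ h3, h4⟩

theorem ca_x {i j x x' y : ℕ} {b : Bool} (h : (x + 1) % 2 ^ (i + 2) = x' % 2 ^ (i + 2)) :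
    Adj (ca i j x y b) (ca i j x' y b) := by
  have : gray (i + 2) x' = gray (i + 2) (x + 1) := by rw [← gray_mod, ← h, gray_mod]
  unfold ca
  rw [this]
  exact (gray_adj _ _).append_right _

theorem ca_y {i j x y y' : ℕ} {b : Bool} (h : (y + 1) % 2 ^ (j + 2) = y' % 2 ^ (j + 2)) :
    Adj (ca i j x y b) (ca i j x y' b) := by
  have : gray (j + 2) y' = gray (j + 2) (y + 1) := by rw [← gray_mod, ← h, gray_mod]
  unfold ca
  rw [this]
  exact ((gray_adj _ _).append_right _).append_left _

theorem cr_x {i j x x' y : ℕ} {l : List Bool} (h : (x + 1) % 2 ^ (i + 2) = x' % 2 ^ (i + 2)) :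
    Adj (cr i j x y l) (cr i j x' y l) := by
  have : gray (i + 2) x' = gray (i + 2) (x + 1) := by rw [← gray_mod, ← h, gray_mod]
  unfold cr
  rw [this]
  exact (gray_adj _ _).append_right _

theorem cr_y {i j x y y' : ℕ} {l : List Bool} (h : (y + 1) % 2 ^ (j + 1) = y' % 2 ^ (j + 1)) :
    Adj (cr i j x y l) (cr i j x y' l) := by
  have : gray (j + 1) y' = gray (j + 1) (y + 1) := by rw [← gray_mod, ← h, gray_mod]
  unfold cr
  rw [this]
  exact ((gray_adj _ _).append_right _).append_left _

theorem cr_l {i j x y : ℕ} {l l' : List Bool} (h : Adj l l') : Adj (cr i j x y l) (cr i j x y l') :=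
  (h.append_left _).append_left _

variable (i j : ℕ)

/-- code of a slice -/
def codeA : Sl (Fin (2 ^ (i + 1))) (Fin (2 ^ (j + 1))) → List Bool
  | .T c => ca i j (2 * c.1.val) (2 * c.2.val + 1) false
  | .L c => ca i j (2 * c.1.val) (2 * c.2.val) false
  | .O c => ca i j (2 * c.1.val) (2 * c.2.val + 1) true
  | .D c => ca i j (2 * c.1.val) (2 * c.2.val) true
  | .S c => ca i j (2 * c.1.val + 1) (2 * c.2.val + 1) true

/-- code of a row -/
def codeR : Row (Fin (2 ^ (i + 1))) (Fin (2 ^ (j + 1))) → List Bool
  | .inl ((c, false), false) => cr i j (2 * c.1.val) c.2.val [false, false, true]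
  | .inl ((c, false), true) => cr i j (2 * c.1.val) c.2.val [false, true, true]
  | .inl ((c, true), false) => cr i j (2 * c.1.val) c.2.val [false, false, false]
  | .inl ((c, true), true) => cr i j (2 * c.1.val + 1) c.2.val [false, false, false]
  | .inr (c, 0) => cr i j (2 * c.1.val + 1) (c.2 - 1).val [false, false, true]
  | .inr (c, 1) => cr i j (2 * c.1.val) c.2.val [true, false, true]
  | .inr (c, 2) => cr i j (2 * c.1.val) c.2.val [false, true, false]
  | .inr (c, 3) => cr i j (2 * c.1.val) c.2.val [true, false, false]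

/-- code of a column -/
def codeK : Col (Fin (2 ^ (i + 1))) (Fin (2 ^ (j + 1))) → List Bool
  | .inl ((c, false), false) => cr i j (2 * c.1.val) c.2.val [false, true]
  | .inl ((c, false), true) => cr i j (2 * c.1.val) c.2.val [true, true]
  | .inl ((c, true), false) => cr i j (2 * c.1.val) c.2.val [false, false]
  | .inl ((c, true), true) => cr i j (2 * c.1.val + 1) c.2.val [false, false]
  | .inr (c, 0) => cr i j (2 * c.1.val) c.2.val [true, false]
  | .inr (c, 1) => cr i j (2 * c.1.val + 1) c.2.val [false, true]
  | .inr (c, 2) => cr i j (2 * (c.1 - 1).val + 1) c.2.val [true, false]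

theorem length_codeA (a) : (codeA i j a).length = i + j + 5 := by
  cases a <;> exact length_ca ..

theorem length_codeR (r) : (codeR i j r).length = i + j + 6 := by
  rcases r with ⟨⟨c, x⟩, y⟩ | ⟨c, x⟩
  · cases x <;> cases y <;> exact length_cr ..
  · fin_cases x <;> exact length_cr ..

theorem length_codeK (k) : (codeK i j k).length = i + j + 5 := by
  rcases k with ⟨⟨c, x⟩, y⟩ | ⟨c, x⟩
  · cases x <;> cases y <;> exact length_cr ..
  · fin_cases x <;> exact length_cr ..

end Pool.Agent.Lib.EsopHard
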