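import Mathlib

/-!
# ESOP minimisation: lower bound for the rank of tensors of order three over `F_2`

Substitution (private rows, private columns), and: if the sum of some slices of size `N × N` is
invertible and all slices have joint rank at most `N`, then `M_a H M_b = M_b H M_a`.
-/

namespace Pool.Agent.Lib.EsopHard

open Matrix

/-- Substitution: a family of vectors `T r` which is a combination of the vectors of a finite
family `m`; if the `T p`, `p ∈ P`, are independent, then after adding combinations of them to the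
other ones, `|P|` of the vectors of the family `m` are not needed. -/
theorem lower_subst {R L W : Type} [AddCommGroup W] [Module (ZMod 2) W] [DecidableEq L]
    [DecidableEq R] (T : R → W) (m : L → W) (P : Finset R) :
    ∀ (S : Finset L) (c : R → L → ZMod 2) (_ : ∀ r, T r = ∑ l ∈ S, c r l • m l)
      (_ : ∀ u : R → ZMod 2, ∑ p ∈ P, u p • T p = 0 → ∀ p ∈ P, u p = 0),
      ∃ (S' : Finset L) (x : R → R → ZMod 2) (c' : R → L → ZMod 2), S'.card + P.card ≤ S.card ∧
        ∀ r, T r + ∑ p ∈ P, x r p • T p = ∑ l ∈ S', c' r l • m l := by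
  induction P using Finset.induction_on with
  | empty =>
    intro S c h _
    exact ⟨S, fun _ _ => 0, c, by simp, fun r => by simp [h r]⟩
  | insert a P ha ih =>
    intro S c h hind
    obtain ⟨S', x, c', hcard, hx⟩ := ih S c h (fun u hu p hp => by
      have h1 : (if p = a then (0 : ZMod 2) else u p) = 0 := hind (fun r => if r = a then 0 else u r) (by
        rw [Finset.sum_insert ha, if_pos rfl, zero_smul, zero_add, ← hu]
        refine Finset.sum_congr rfl fun r hr => ?_
        rw [if_neg (ne_of_mem_of_not_mem hr ha)]) p (Finset.mem_insert_of_mem hp)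
      rwa [if_neg (ne_of_mem_of_not_mem hp ha)] at h1)
    -- the vector for `a` is nonzero
    have hne : ∃ l ∈ S', c' a l = 1 := by
      by_contra hcon
      push Not at hcon
      have h0 : ∀ l ∈ S', c' a l = 0 := fun l hl => by
        have h1 := hcon l hl
        generalize c' a l = z at h1
        revert h1
        revert z
        decide
      have h1 := hx a
      rw [Finset.sum_eq_zero (s := S') (fun l hl => by rw [h0 l hl, zero_smul])] at h1
      have h2 := hind (fun r => if r = a then 1 else x a r) (by
        rw [Finset.sum_insert ha, if_pos rfl, one_smul, ← h1]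
        congr 1
        refine Finset.sum_congr rfl fun r hr => ?_
        rw [if_neg (ne_of_mem_of_not_mem hr ha)]) a (Finset.mem_insert_self _ _)
      rw [if_pos rfl] at h2
      exact one_ne_zero h2
    obtain ⟨l0, hl0, hc0⟩ := hne
    refine ⟨S'.erase l0, fun r p => if p = a then c' r l0 else x r p + c' r l0 * x a p,
      fun r l => c' r l + c' r l0 * c' a l, ?_, fun r => ?_⟩
    · rw [Finset.card_erase_of_mem hl0, Finset.card_insert_of_notMem ha]
      have : 0 < S'.card := Finset.card_pos.2 ⟨l0, hl0⟩
      omega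
    · have e1 : ∑ p ∈ insert a P, (if p = a then c' r l0 else x r p + c' r l0 * x a p) • T p =
          c' r l0 • (T a + ∑ p ∈ P, x a p • T p) + ∑ p ∈ P, x r p • T p := by
        rw [Finset.sum_insert ha, if_pos rfl, smul_add, Finset.smul_sum, add_assoc,
          ← Finset.sum_add_distrib]
        congr 1
        refine Finset.sum_congr rfl fun p hp => ?_
        rw [if_neg (ne_of_mem_of_not_mem hp ha), smul_smul, ← add_smul, add_comm]
      have e2 : ∑ l ∈ S'.erase l0, (c' r l + c' r l0 * c' a l) • m l =
          ∑ l ∈ S', (c' r l + c' r l0 * c' a l) • m l := by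
        rw [← Finset.add_sum_erase S' _ hl0, hc0, mul_one]
        have : c' r l0 + c' r l0 = 0 := by
          generalize c' r l0 = z
          revert z
          decide
        rw [this, zero_smul, zero_add]
      rw [e1, e2, hx a, ← add_assoc, add_comm (T r), add_assoc, hx r, Finset.smul_sum,
        ← Finset.sum_add_distrib]
      refine Finset.sum_congr rfl fun l _ => ?_
      rw [smul_smul, ← add_smul, add_comm]

/-- If `∑ M_a`, over some slices, is invertible with inverse `H`, and the slices have joint rank at
most the size, then `M_a H M_b = M_b H M_a`. -/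
theorem lower_comm {A N I : Type} [Fintype N] [DecidableEq N] [Fintype I] [DecidableEq I]
    (M : A → Matrix N N (ZMod 2)) (S : Finset I) (hS : S.card ≤ Fintype.card N)
    (α : I → A → ZMod 2) (ρ κ : I → N → ZMod 2)
    (hM : ∀ a r k, M a r k = ∑ l ∈ S, α l a * ρ l r * κ l k)
    {J : Type} [Fintype J] (a0 : J → A) (G H : Matrix N N (ZMod 2))
    (hG : ∀ r k, ∑ j, M (a0 j) r k = G r k) (hGH : G * H = 1) (a b : A) :
    M a * H * M b = M b * H * M a := by
  classical
  set Rho : Matrix N {l // l ∈ S} (ZMod 2) := fun r l => ρ l.1 r with hRho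
  set Kap : Matrix {l // l ∈ S} N (ZMod 2) := fun l k => κ l.1 k with hKap
  have hfac : ∀ a, M a = Rho * diagonal (fun l : {l // l ∈ S} => α l.1 a) * Kap := by
    intro a
    ext r k
    rw [hM, mul_apply, ← Finset.sum_coe_sort S]
    refine Finset.sum_congr rfl fun l _ => ?_
    rw [mul_diagonal, hRho, hKap]
    ring
  set δ : {l // l ∈ S} → ZMod 2 := fun l => ∑ j, α l.1 (a0 j) with hδ
  have hGf : G = Rho * diagonal δ * Kap := by
    ext r k
    rw [← hG, mul_apply]
    simp only [hM]
    rw [Finset.sum_comm, ← Finset.sum_coe_sort S]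
    refine Finset.sum_congr rfl fun l _ => ?_
    rw [mul_diagonal, hRho, hKap, hδ]
    simp only [Finset.mul_sum, Finset.sum_mul]
    refine Finset.sum_congr rfl fun j _ => ?_
    ring
  have h1 : Rho * (diagonal δ * Kap * H) = 1 := by
    rw [← hGH, hGf]
    simp only [Matrix.mul_assoc]
  have hcard : Fintype.card N ≤ Fintype.card {l // l ∈ S} := by
    calc Fintype.card N = (1 : Matrix N N (ZMod 2)).rank := rank_one.symm
      _ = (Rho * (diagonal δ * Kap * H)).rank := by rw [h1]
      _ ≤ Rho.rank := rank_mul_le_left _ _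
      _ ≤ Fintype.card {l // l ∈ S} := rank_le_card_width _
  have hcard2 : Fintype.card N = Fintype.card {l // l ∈ S} := by
    refine le_antisymm hcard ?_
    rw [Fintype.card_coe]
    exact hS
  have h2 : diagonal δ * Kap * H * Rho = 1 :=
    (mul_eq_one_comm_of_card_eq _ _ _ hcard2).1 h1
  have h3 : δ = 1 := by
    funext l
    have h4 := congrFun (congrFun h2 l) l
    rw [Matrix.mul_assoc, Matrix.mul_assoc, diagonal_mul, one_apply_eq] at h4
    have h5 : ∀ z w : ZMod 2, z * w = 1 → z = 1 := by decide
    exact h5 _ _ h4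
  rw [h3, diagonal_one', Matrix.one_mul] at h2
  have h4 : ∀ a b, M a * H * M b = Rho * diagonal (fun l : {l // l ∈ S} => α l.1 a * α l.1 b) * Kap := by
    intro a b
    rw [hfac a, hfac b]
    calc Rho * diagonal (fun l : {l // l ∈ S} => α l.1 a) * Kap * H * (Rho * diagonal (fun l : {l // l ∈ S} => α l.1 b) * Kap)
        = Rho * diagonal (fun l : {l // l ∈ S} => α l.1 a) * (Kap * H * Rho) * diagonal (fun l : {l // l ∈ S} => α l.1 b) * Kap := by
          simp only [Matrix.mul_assoc]
      _ = _ := by
          rw [h2, Matrix.mul_one, Matrix.mul_assoc Rho, diagonal_mul_diagonal]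
  rw [h4, h4]
  congr 3
  funext l
  exact mul_comm _ _

theorem lower_lsum {P X : Type} [Fintype P] (x : P → ZMod 2) (F : P → X → ZMod 2) (ks : List X) :
    (ks.map fun k => ∑ p, x p * F p k).sum = ∑ p, x p * (ks.map (F p)).sum := by
  induction ks with
  | nil => simp
  | cons k ks ih => simp [ih, mul_add, Finset.sum_add_distrib]

theorem lower_lsum2 {X Y : Type} (rs : List X) (ks : List Y) (F : X → Y → ZMod 2) :
    (rs.map fun r => (ks.map fun k => F r k).sum).sum =
      (ks.map fun k => (rs.map fun r => F r k).sum).sum := by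
  induction rs with
  | nil => simp
  | cons r rs ih => simp [ih, List.sum_map_add]

/-- The lower bound. -/
theorem lower {A I P Q J L : Type} [Fintype I] [DecidableEq I] [Fintype P] [DecidableEq P]
    [Fintype Q] [DecidableEq Q] [Fintype J] [Fintype L] [DecidableEq L]
    (T : A → (I × Bool) ⊕ P → (I × Bool) ⊕ Q → ZMod 2)
    (hs : Fintype.card L ≤ 2 * Fintype.card I + Fintype.card P + Fintype.card Q)
    (α : L → A → ZMod 2) (ρ : L → (I × Bool) ⊕ P → ZMod 2) (κ : L → (I × Bool) ⊕ Q → ZMod 2)
    (hT : ∀ a r k, T a r k = ∑ l, α l a * ρ l r * κ l k)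
    (h0 : ∀ a p q, T a (.inr p) (.inr q) = 0)
    (hP : ∀ u : P → ZMod 2, (∀ a k, ∑ p, u p * T a (.inr p) (.inl k) = 0) → u = 0)
    (hQ : ∀ u : Q → ZMod 2, (∀ a r, ∑ q, u q * T a (.inl r) (.inr q) = 0) → u = 0)
    (a0 : J → A) (h0P : ∀ j p k, T (a0 j) (.inr p) (.inl k) = 0)
    (h0Q : ∀ j r q, T (a0 j) (.inl r) (.inr q) = 0)
    (G H : Matrix (I × Bool) (I × Bool) (ZMod 2))
    (hG : ∀ r k, ∑ j, T (a0 j) (.inl r) (.inl k) = G r k) (hGH : G * H = 1) :
    ∃ M : A → Matrix (I × Bool) (I × Bool) (ZMod 2),
      (∀ a b, M a * H * M b = M b * H * M a) ∧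
      ∀ a (rs ks : List (I × Bool)), (∀ p, (ks.map fun k => T a (.inr p) (.inl k)).sum = 0) →
        (∀ q, (rs.map fun r => T a (.inl r) (.inr q)).sum = 0) →
        (rs.map fun r => (ks.map fun k => M a r k).sum).sum =
          (rs.map fun r => (ks.map fun k => T a (.inl r) (.inl k)).sum).sum := by
  classical
  -- private rows
  obtain ⟨S', x, c', hcard', hx⟩ := lower_subst (L := L)
    (T := fun (r : (I × Bool) ⊕ P) => (fun (z : A × ((I × Bool) ⊕ Q)) => T z.1 r z.2))
    (m := fun l z => α l z.1 * κ l z.2)
    (P := Finset.univ.image (Sum.inr : P → (I × Bool) ⊕ P)) Finset.univ (fun r l => ρ l r)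
    (by
      intro r
      funext z
      simp only [hT, Finset.sum_apply, Pi.smul_apply, smul_eq_mul]
      refine Finset.sum_congr rfl fun l _ => ?_
      ring)
    (by
      intro u hu p hp
      obtain ⟨p, -, rfl⟩ := Finset.mem_image.1 hp
      have := hP (fun p => u (.inr p)) (fun a k => by
        have h1 := congrFun hu (a, .inl k)
        rw [Finset.sum_image (fun _ _ _ _ h => Sum.inr_injective h)] at h1
        simpa [Finset.sum_apply] using h1)
      exact congrFun this p)
  rw [Finset.card_image_of_injective _ Sum.inr_injective, Finset.card_univ, Finset.card_univ] at hcard'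
  have hx1 : ∀ a r k, T a r k + ∑ p, x r (.inr p) * T a (.inr p) k = ∑ l ∈ S', c' r l * (α l a * κ l k) := by
    intro a r k
    have h1 := congrFun (hx r) (a, k)
    rw [Finset.sum_image (fun _ _ _ _ h => Sum.inr_injective h)] at h1
    simpa [Finset.sum_apply] using h1
  -- private columns
  obtain ⟨S, y, c, hcard, hy⟩ := lower_subst (L := L)
    (T := fun (k : (I × Bool) ⊕ Q) => (fun (z : A × (I × Bool)) =>
      T z.1 (.inl z.2) k + ∑ p, x (.inl z.2) (.inr p) * T z.1 (.inr p) k))
    (m := fun l z => c' (.inl z.2) l * α l z.1)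
    (P := Finset.univ.image (Sum.inr : Q → (I × Bool) ⊕ Q)) S' (fun k l => κ l k)
    (by
      intro k
      funext z
      simp only [hx1, Finset.sum_apply, Pi.smul_apply, smul_eq_mul]
      refine Finset.sum_congr rfl fun l _ => ?_
      ring)
    (by
      intro u hu q hq
      obtain ⟨q, -, rfl⟩ := Finset.mem_image.1 hq
      have := hQ (fun q => u (.inr q)) (fun a r => by
        have h1 := congrFun hu (a, r)
        rw [Finset.sum_image (fun _ _ _ _ h => Sum.inr_injective h)] at h1
        simpa [Finset.sum_apply, h0] using h1)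
      exact congrFun this q)
  rw [Finset.card_image_of_injective _ Sum.inr_injective, Finset.card_univ] at hcard
  have hy1 : ∀ a r k, (T a (.inl r) k + ∑ p, x (.inl r) (.inr p) * T a (.inr p) k) +
      ∑ q, y k (.inr q) * T a (.inl r) (.inr q) = ∑ l ∈ S, c k l * (c' (.inl r) l * α l a) := by
    intro a r k
    have h1 := congrFun (hy k) (a, r)
    rw [Finset.sum_image (fun _ _ _ _ h => Sum.inr_injective h)] at h1
    simpa [Finset.sum_apply, h0] using h1
  let M : A → Matrix (I × Bool) (I × Bool) (ZMod 2) := fun a r k =>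
    (T a (.inl r) (.inl k) + ∑ p, x (.inl r) (.inr p) * T a (.inr p) (.inl k)) +
      ∑ q, y (.inl k) (.inr q) * T a (.inl r) (.inr q)
  have hM : ∀ a r k, M a r k = (T a (.inl r) (.inl k) + ∑ p, x (.inl r) (.inr p) * T a (.inr p) (.inl k)) +
      ∑ q, y (.inl k) (.inr q) * T a (.inl r) (.inr q) := fun _ _ _ => rfl
  refine ⟨M, fun a b => ?_, fun a rs ks hks hrs => ?_⟩
  · refine lower_comm M S ?_ α (fun l r => c' (.inl r) l) (fun l k => c (.inl k) l) ?_ a0 G H ?_ hGH a b
    · rw [Fintype.card_prod, Fintype.card_bool]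
      omega
    · intro a r k
      rw [hM, hy1]
      refine Finset.sum_congr rfl fun l _ => ?_
      ring
    · intro r k
      rw [← hG]
      refine Finset.sum_congr rfl fun j _ => ?_
      rw [hM]
      simp [h0P, h0Q]
  · have e1 : (rs.map fun r => (ks.map fun k => M a r k).sum).sum =
        (rs.map fun r => (ks.map fun k => T a (.inl r) (.inl k)).sum).sum +
        (rs.map fun r => (ks.map fun k => ∑ p, x (.inl r) (.inr p) * T a (.inr p) (.inl k)).sum).sum +
        (rs.map fun r => (ks.map fun k => ∑ q, y (.inl k) (.inr q) * T a (.inl r) (.inr q)).sum).sum := by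
      simp only [hM, List.sum_map_add]
    rw [e1, lower_lsum2 rs ks (fun r k => ∑ q, y (.inl k) (.inr q) * T a (.inl r) (.inr q))]
    have e2 : ∀ r, (ks.map fun k => ∑ p, x (.inl r) (.inr p) * T a (.inr p) (.inl k)).sum = 0 := by
      intro r
      rw [lower_lsum]
      exact Finset.sum_eq_zero fun p _ => by
        have := hks p
        rw [this, mul_zero]
    have e3 : ∀ k, (rs.map fun r => ∑ q, y (.inl k) (.inr q) * T a (.inl r) (.inr q)).sum = 0 := by
      intro k
      rw [lower_lsum (fun q => y (.inl k) (.inr q)) (fun q r => T a (.inl r) (.inr q))]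
      exact Finset.sum_eq_zero fun q _ => by
        have := hrs q
        rw [this, mul_zero]
    simp only [e2, e3]
    simp

end Pool.Agent.Lib.EsopHard
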