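import Pool.Agent.Lib.MP_a221bc_esop.Sat
import Pool.Agent.Lib.MP_a221bc_esop.Lower

/-!
# ESOP minimisation: from a decomposition of the tensor to a satisfying assignment
-/

set_option linter.unusedSimpArgs false

namespace Pool.Agent.Lib.EsopHard

open Matrix

section

variable {α β : Type} [DecidableEq α] [DecidableEq β] (d : Dat α β)

attribute [local simp] tens Dat.cells ht ht' hs hs' rL rD r1 r2 pt qt ps qs cL c1 c2

theorem tens_priv (a : Sl α β) (p : (α × β) × Fin 4) (q : (α × β) × Fin 3) :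
    tens d a (.inr p) (.inr q) = 0 := by
  obtain ⟨c, x⟩ := p
  obtain ⟨c', y⟩ := q
  cases a with
  | T e => simp
  | S e => simp
  | L e => by_cases h : d.sg (e.1, d.pc e.2) = d.sg e <;> simp [h]
  | D e => simp
  | O e =>
    by_cases h : d.inc e = true <;> by_cases h1 : d.z e.1 = true <;> by_cases h2 : d.act e.2 = true <;>
      simp [h, h1, h2]

theorem priv_L (c : α × β) (p : (α × β) × Fin 4) (hC : ∀ C, d.pc C ≠ C) :
    tens d (.L c) (.inr p) (qt c) = if p = (c, 0) then 1 else 0 := by
  obtain ⟨c', x⟩ := p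
  obtain ⟨v, C⟩ := c
  have h1 := hC C
  have h2 := h1.symm
  by_cases h : d.sg (v, d.pc C) = d.sg (v, C) <;> simp [h, h1, h2, Prod.ext_iff] <;> simp [eq_comm]

theorem priv_D (c : α × β) (p : (α × β) × Fin 4) :
    tens d (.D c) (.inr p) (pt c) = if p = (c, 1) then 1 else 0 := by
  obtain ⟨c', x⟩ := p
  obtain ⟨v, C⟩ := c
  simp [Prod.ext_iff] <;> simp [eq_comm]

theorem priv_O (c : α × β) (p : (α × β) × Fin 4) :
    tens d (.O c) (.inr p) (pt c) = if p = (c, 2) then 1 else 0 := by
  obtain ⟨c', x⟩ := p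
  obtain ⟨v, C⟩ := c
  by_cases h : d.inc (v, C) = true <;> by_cases h1 : d.z v = true <;> by_cases h2 : d.act C = true <;>
    simp [h, h1, h2, Prod.ext_iff] <;> simp [eq_comm]

theorem priv_Oz (c : α × β) (p : (α × β) × Fin 4) (h1 : d.z c.1 = true) :
    tens d (.O c) (.inr p) (qt c) = if p = (c, 3) then 1 else 0 := by
  obtain ⟨c', x⟩ := p
  obtain ⟨v, C⟩ := c
  by_cases h : d.inc (v, C) = true <;> by_cases h2 : d.act C = true <;>
    simp [h, h1, h2, Prod.ext_iff] <;> simp [eq_comm]

theorem priv_On (c : α × β) (p : (α × β) × Fin 4) (h1 : d.z c.1 = false) :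
    tens d (.O c) (.inr p) (qs (d.pv c.1, c.2)) = if p = (c, 3) then 1 else 0 := by
  obtain ⟨c', x⟩ := p
  obtain ⟨v, C⟩ := c
  by_cases h : d.inc (v, C) = true <;>
    simp [h, h1, Prod.ext_iff] <;> simp [eq_comm]

theorem priv'_L (c : α × β) (q : (α × β) × Fin 3) (hC : ∀ C, d.pc C ≠ C) :
    tens d (.L c) (ht c) (.inr q) = if q = (c, 0) then 1 else 0 := by
  obtain ⟨c', x⟩ := q
  obtain ⟨v, C⟩ := c
  have h1 := hC C
  have h2 := h1.symm
  by_cases h : d.sg (v, d.pc C) = d.sg (v, C) <;> simp [h, h1, h2, Prod.ext_iff] <;> simp [eq_comm]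

theorem priv'_O (c : α × β) (q : (α × β) × Fin 3) :
    tens d (.O c) (ht c) (.inr q) = if q = (c, 1) then 1 else 0 := by
  obtain ⟨c', x⟩ := q
  obtain ⟨v, C⟩ := c
  by_cases h : d.inc (v, C) = true <;> by_cases h1 : d.z v = true <;> by_cases h2 : d.act C = true <;>
    simp [h, h1, h2, Prod.ext_iff] <;> simp [eq_comm]

theorem priv'_Oz (c : α × β) (q : (α × β) × Fin 3) (h1 : d.z c.1 = true) :
    tens d (.O c) (ht' c) (.inr q) = if q = (c, 2) then 1 else 0 := by
  obtain ⟨c', x⟩ := q
  obtain ⟨v, C⟩ := c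
  by_cases h : d.inc (v, C) = true <;> by_cases h2 : d.act C = true <;>
    simp [h, h1, h2, Prod.ext_iff] <;> simp [eq_comm]

theorem priv'_On (c : α × β) (q : (α × β) × Fin 3) (h1 : d.z c.1 = false) :
    tens d (.O c) (hs' (d.pv c.1, c.2)) (.inr q) = if q = (c, 2) then 1 else 0 := by
  obtain ⟨c', x⟩ := q
  obtain ⟨v, C⟩ := c
  by_cases h : d.inc (v, C) = true <;>
    simp [h, h1, Prod.ext_iff] <;> simp [eq_comm]

end

section

variable {α β : Type} [DecidableEq α] [DecidableEq β] (d : Dat α β) [Fintype α] [Fintype β]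

theorem indep_rows (hC : ∀ C, d.pc C ≠ C) (u : (α × β) × Fin 4 → ZMod 2)
    (h : ∀ a k, ∑ p, u p * tens d a (.inr p) (.inl k) = 0) : u = 0 := by
  funext ⟨c, x⟩
  fin_cases x
  · have h1 := h (.L c) ((c, false), true)
    have h2 := fun p => priv_L d c p hC
    simp only [qt] at h2
    simpa [h2] using h1
  · have h1 := h (.D c) ((c, false), false)
    have h2 := fun p => priv_D d c p
    simp only [pt] at h2
    simpa [h2] using h1
  · have h1 := h (.O c) ((c, false), false)
    have h2 := fun p => priv_O d c p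
    simp only [pt] at h2
    simpa [h2] using h1
  · by_cases hz : d.z c.1 = true
    · have h1 := h (.O c) ((c, false), true)
      have h2 := fun p => priv_Oz d c p hz
      simp only [qt] at h2
      simpa [h2] using h1
    · rw [Bool.not_eq_true] at hz
      have h1 := h (.O c) (((d.pv c.1, c.2), true), true)
      have h2 := fun p => priv_On d c p hz
      simp only [qs] at h2
      simpa [h2] using h1

theorem indep_cols (hC : ∀ C, d.pc C ≠ C) (u : (α × β) × Fin 3 → ZMod 2)
    (h : ∀ a r, ∑ q, u q * tens d a (.inl r) (.inr q) = 0) : u = 0 := by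
  funext ⟨c, x⟩
  fin_cases x
  · have h1 := h (.L c) ((c, false), false)
    have h2 := fun q => priv'_L d c q hC
    simp only [ht] at h2
    simpa [h2] using h1
  · have h1 := h (.O c) ((c, false), false)
    have h2 := fun q => priv'_O d c q
    simp only [ht] at h2
    simpa [h2] using h1
  · by_cases hz : d.z c.1 = true
    · have h1 := h (.O c) ((c, false), true)
      have h2 := fun q => priv'_Oz d c q hz
      simp only [ht'] at h2
      simpa [h2] using h1
    · rw [Bool.not_eq_true] at hz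
      have h1 := h (.O c) (((d.pv c.1, c.2), true), true)
      have h2 := fun q => priv'_On d c q hz
      simp only [hs'] at h2
      simpa [h2] using h1

end

/-- A decomposition of the tensor into at most `11 V W` terms gives a satisfying assignment. -/
theorem sat_of_rank {V W : ℕ} [NeZero V] [NeZero W] {inc sg : Fin V × Fin W → Bool} {act : Fin W → Bool}
    (hV : 1 < V) (hW : 1 < W) (hinc : ∀ C, inc (0, C) = false) (L : Type) [Fintype L]
    (hL : Fintype.card L ≤ 11 * V * W) (α : L → Sl (Fin V) (Fin W) → ZMod 2)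
    (ρ : L → Row (Fin V) (Fin W) → ZMod 2) (κ : L → Col (Fin V) (Fin W) → ZMod 2)
    (hT : ∀ a r k, tens (finDat V W inc sg act) a r k = ∑ l, α l a * ρ l r * κ l k) :
    ∃ x : Fin V → Bool, ∀ C, act C = true → ∃ v, inc (v, C) = true ∧ x v = sg (v, C) := by
  classical
  obtain ⟨M, hc, hp⟩ := lower (I := Blk (Fin V) (Fin W)) (J := Blk (Fin V) (Fin W))
    (tens (finDat V W inc sg act)) (L := L) (by
      simp only [Fintype.card_prod, Fintype.card_bool, Fintype.card_fin]
      refine hL.trans (le_of_eq ?_)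
      ring) α ρ κ hT (tens_priv _) (indep_rows _ (fin_pred_ne hW)) (indep_cols _ (fin_pred_ne hW))
    bs (fun j p k => tens_bs_row _ j p _) (fun j r q => tens_bs_col _ j q _) (gm _ _) (gm _ _)
    (fun r k => by
      simp only [tens_bs]
      simp) gm_sq
  exact sat_of_comm hV hW hinc hc hp

end Pool.Agent.Lib.EsopHard
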