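import Pool.Agent.Lib.MP_a221bc_esop.Faces
import Pool.Agent.Lib.MP_a221bc_esop.Rank

/-!
# ESOP minimisation: the equivalence
-/

set_option linter.unusedSimpArgs false

namespace Pool.Agent.Lib.EsopHard

/-- `0` or `1` in `F_2` -/
def chi (b : Bool) : ZMod 2 := if b then 1 else 0

theorem chi_xor (b c : Bool) : chi (xor b c) = chi b + chi c := by
  cases b <;> cases c <;> decide

theorem chi_and (b c : Bool) : chi (b && c) = chi b * chi c := by
  cases b <;> cases c <;> decide

theorem chi_inj {b c : Bool} (h : chi b = chi c) : b = c := by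
  revert h
  cases b <;> cases c <;> decide

theorem chi_xorVal (L : List (List (Option Bool))) (x : List Bool) :
    chi (xorVal L x) = (L.map fun t => chi (termVal t x)).sum := by
  unfold xorVal
  induction L with
  | nil => rfl
  | cons t L ih => rw [List.map_cons, List.foldr_cons, chi_xor, ih, List.map_cons, List.sum_cons]

theorem chi_decide (p : Prop) [Decidable p] : chi (decide p) = if p then 1 else 0 := by
  unfold chi
  split_ifs <;> simp_all

variable {i j : ℕ}

/-- the code of a cell -/
def code3 (a : Sl (Fin (2 ^ (i + 1))) (Fin (2 ^ (j + 1)))) (r : Row (Fin (2 ^ (i + 1))) (Fin (2 ^ (j + 1))))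
    (k : Col (Fin (2 ^ (i + 1))) (Fin (2 ^ (j + 1)))) : List Bool :=
  codeA i j a ++ (codeR i j r ++ codeK i j k)

theorem code3_inj {a a' : Sl (Fin (2 ^ (i + 1))) (Fin (2 ^ (j + 1)))} {r r' k k'}
    (h : code3 a r k = code3 a' r' k') : a = a' ∧ r = r' ∧ k = k' := by
  obtain ⟨h1, h2⟩ := List.append_inj h (by rw [length_codeA, length_codeA])
  obtain ⟨h3, h4⟩ := List.append_inj h2 (by rw [length_codeR, length_codeR])
  exact ⟨codeA_inj i j h1, codeR_inj i j h3, codeK_inj i j h4⟩

theorem code3_length (a : Sl (Fin (2 ^ (i + 1))) (Fin (2 ^ (j + 1)))) (r k) :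
    (code3 a r k).length = 3 * i + 3 * j + 16 := by
  simp only [code3, List.length_append, length_codeA, length_codeR, length_codeK]
  ring

variable (inc sg : Fin (2 ^ (i + 1)) × Fin (2 ^ (j + 1)) → Bool) (act : Fin (2 ^ (j + 1)) → Bool)

/-- the codes of the cells for the cell `c` of the grid -/
def cellCodes (c : Fin (2 ^ (i + 1)) × Fin (2 ^ (j + 1))) : List (List Bool) :=
  [Sl.T c, .S c, .L c, .D c, .O c].flatMap fun a =>
    ((finDat _ _ inc sg act).cells a).map fun p => code3 a p.1 p.2

/-- the Boolean function -/
noncomputable def fval (x : List Bool) : ZMod 2 :=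
  ∑ c, ((cellCodes inc sg act c).map fun g => if x = g then (1 : ZMod 2) else 0).sum

theorem fval_code3 (a r k) : fval inc sg act (code3 a r k) = tens (finDat _ _ inc sg act) a r k := by
  have h1 : ∀ a' : Sl (Fin (2 ^ (i + 1))) (Fin (2 ^ (j + 1))),
      ((((finDat _ _ inc sg act).cells a').map fun p => code3 a' p.1 p.2).map
        fun g => if code3 a r k = g then (1 : ZMod 2) else 0).sum =
      if a' = a then tens (finDat _ _ inc sg act) a r k else 0 := by
    intro a'
    rw [List.map_map]
    by_cases h : a' = a
    · subst h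
      rw [if_pos rfl, tens]
      congr 1
      refine List.map_congr_left fun p _ => ?_
      have : (code3 a' r k = code3 a' p.1 p.2) ↔ (p.1 = r ∧ p.2 = k) := by
        constructor
        · intro h2
          obtain ⟨-, h3, h4⟩ := code3_inj h2
          exact ⟨h3.symm, h4.symm⟩
        · rintro ⟨rfl, rfl⟩
          rfl
      simp only [Function.comp, this]
    · rw [if_neg h]
      apply List.sum_eq_zero
      intro y hy
      obtain ⟨p, -, rfl⟩ := List.mem_map.1 hy
      exact if_neg fun h2 => h (code3_inj h2).1.symm
  unfold fval cellCodes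
  have h2 : ∀ c, ((([Sl.T c, .S c, .L c, .D c, .O c].flatMap fun a =>
      ((finDat _ _ inc sg act).cells a).map fun p => code3 a p.1 p.2)).map
        fun g => if code3 a r k = g then (1 : ZMod 2) else 0).sum =
      (if Sl.T c = a then tens (finDat _ _ inc sg act) a r k else 0) +
      ((if Sl.S c = a then tens (finDat _ _ inc sg act) a r k else 0) +
      ((if Sl.L c = a then tens (finDat _ _ inc sg act) a r k else 0) +
      ((if Sl.D c = a then tens (finDat _ _ inc sg act) a r k else 0) +
      (if Sl.O c = a then tens (finDat _ _ inc sg act) a r k else 0)))) := by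
    intro c
    simp only [List.flatMap_cons, List.flatMap_nil, List.map_append, List.sum_append, h1, List.append_nil]
  simp only [h2]
  rcases a with c | c | c | c | c <;> simp

theorem split3 {t : List (Option Bool)} {x y z : List Bool}
    (ht : t.length = x.length + (y.length + z.length)) :
    chi (termVal t (x ++ (y ++ z))) = chi (termVal (t.take x.length) x) *
      chi (termVal ((t.drop x.length).take y.length) y) *
      chi (termVal ((t.drop x.length).drop y.length) z) := by
  have h1 : t = t.take x.length ++ ((t.drop x.length).take y.length ++ (t.drop x.length).drop y.length) := by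
    rw [List.take_append_drop, List.take_append_drop]
  conv_lhs => rw [h1]
  rw [termVal_append _ _ _ _ (by rw [List.length_take]; omega),
    termVal_append _ _ _ _ (by rw [List.length_take, List.length_drop]; omega), chi_and, chi_and, mul_assoc]

/-- few terms give a satisfying assignment -/
theorem core_sat (hinc : ∀ C, inc (0, C) = false) (f : List Bool → Bool)
    (hf : ∀ x : List Bool, x.length = 3 * i + 3 * j + 16 → chi (f x) = fval inc sg act x)
    (L : List (List (Option Bool))) (hL : L.length ≤ 11 * 2 ^ (i + 1) * 2 ^ (j + 1))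
    (hlen : ∀ t ∈ L, t.length = 3 * i + 3 * j + 16)
    (hv : ∀ x : List Bool, x.length = 3 * i + 3 * j + 16 → xorVal L x = f x) :
    ∃ x : Fin (2 ^ (i + 1)) → Bool, ∀ C, act C = true → ∃ v, inc (v, C) = true ∧ x v = sg (v, C) := by
  refine sat_of_rank (one_lt_two.trans_le (by rw [pow_succ]; have := Nat.one_le_two_pow (n := i); omega))
    (one_lt_two.trans_le (by rw [pow_succ]; have := Nat.one_le_two_pow (n := j); omega)) hinc
    (Fin L.length) (by rw [Fintype.card_fin]; exact hL)
    (fun l a => chi (termVal (L[l].take (i + j + 5)) (codeA i j a)))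
    (fun l r => chi (termVal ((L[l].drop (i + j + 5)).take (i + j + 6)) (codeR i j r)))
    (fun l k => chi (termVal ((L[l].drop (i + j + 5)).drop (i + j + 6)) (codeK i j k)))
    (fun a r k => ?_)
  rw [← fval_code3, ← hf _ (code3_length a r k), ← hv _ (code3_length a r k), chi_xorVal]
  have h1 : (L.map fun t => chi (termVal t (code3 a r k))).sum =
      ∑ l : Fin L.length, chi (termVal L[l] (code3 a r k)) := by
    rw [← List.sum_ofFn]
    congr 1
    apply List.ext_getElem
    · simp
    · intro n h1 h2
      simp
  rw [h1]
  refine Finset.sum_congr rfl fun l _ => ?_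
  have h2 := split3 (t := L[l]) (x := codeA i j a) (y := codeR i j r) (z := codeK i j k) (by
    have hl : L[l].length = 3 * i + 3 * j + 16 := hlen L[l.1] (List.getElem_mem _)
    rw [hl, length_codeA, length_codeR, length_codeK]
    ring)
  rw [length_codeA, length_codeR] at h2
  exact h2

theorem LTok.term {l : LT (Fin (2 ^ (i + 1))) (Fin (2 ^ (j + 1)))} (h : LTok l) :
    ∃ t : List (Option Bool), t.length = 3 * i + 3 * j + 16 ∧ ∀ x y z : List Bool, x.length = i + j + 5 →
      y.length = i + j + 6 → z.length = i + j + 5 →
      chi (termVal t (x ++ (y ++ z))) = ltVal (fun a => if x = codeA i j a then 1 else 0)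
        (fun r => if y = codeR i j r then 1 else 0) (fun k => if z = codeK i j k then 1 else 0) l := by
  obtain ⟨⟨t1, h1, e1⟩, ⟨t2, h2, e2⟩, ⟨t3, h3, e3⟩⟩ := h
  refine ⟨t1 ++ (t2 ++ t3), ?_, fun x y z hx hy hz => ?_⟩
  · simp only [List.length_append, h1, h2, h3]
    ring
  · rw [termVal_append _ _ _ _ (by rw [h1, hx]), termVal_append _ _ _ _ (by rw [h2, hy]), chi_and, chi_and,
      ← mul_assoc]
    unfold ltVal
    have f1 := e1 x hx
    have f2 := e2 y hy
    have f3 := e3 z hz
    rw [List.map_map] at f1 f2 f3
    simp only [Function.comp_def] at f1 f2 f3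
    unfold chi
    rw [f1, f2, f3]

theorem sum_toList {γ : Type} [Fintype γ] (g : γ → List (List (Option Bool)))
    (F : List (Option Bool) → ZMod 2) :
    (((Finset.univ : Finset γ).toList.flatMap g).map F).sum = ∑ c, ((g c).map F).sum := by
  have h : ∀ l : List γ, ((l.flatMap g).map F).sum = (l.map fun c => ((g c).map F).sum).sum := by
    intro l
    induction l with
    | nil => rfl
    | cons c l ih => rw [List.flatMap_cons, List.map_append, List.sum_append, ih, List.map_cons, List.sum_cons]
  rw [h, Finset.sum_map_toList]

/-- a satisfying assignment gives few terms -/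
theorem core_terms (hinc : ∀ C, inc (0, C) = false) (f : List Bool → Bool)
    (hf : ∀ x : List Bool, x.length = 3 * i + 3 * j + 16 → chi (f x) = fval inc sg act x)
    (x : Fin (2 ^ (i + 1)) → Bool)
    (hx : ∀ C, act C = true → ∃ v, inc (v, C) = true ∧ x v = sg (v, C)) :
    ∃ L : List (List (Option Bool)), L.length ≤ 11 * 2 ^ (i + 1) * 2 ^ (j + 1) ∧
      (∀ t ∈ L, t.length = 3 * i + 3 * j + 16) ∧
      ∀ x : List Bool, x.length = 3 * i + 3 * j + 16 → xorVal L x = f x := by
  classical
  let b : Fin (2 ^ (i + 1)) × Fin (2 ^ (j + 1)) → Bool := fun c => xor (x c.1) (sg c)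
  choose! w hw1 hw2 using hx
  let vs : Fin (2 ^ (j + 1)) → ℕ := fun C => if act C = true then (w C).val else 2 ^ (i + 1)
  have hvs1 : ∀ C, act C = true → vs C = (w C).val := fun C h => if_pos h
  have hvs2 : ∀ C, ¬ act C = true → vs C = 2 ^ (i + 1) := fun C h => if_neg h
  have hok : ∀ c, ∀ l ∈ lterms inc act b vs c, LTok l := lterms_ok inc act b vs
  choose! T hT1 hT2 using fun (l : LT (Fin (2 ^ (i + 1))) (Fin (2 ^ (j + 1)))) (h : LTok l) => LTok.term h
  refine ⟨(Finset.univ : Finset (Fin (2 ^ (i + 1)) × Fin (2 ^ (j + 1)))).toList.flatMap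
    (fun c => (lterms inc act b vs c).map T), ?_, ?_, ?_⟩
  · rw [List.length_flatMap]
    simp only [List.length_map, length_lterms, List.map_const', List.sum_replicate, Finset.length_toList,
      Finset.card_univ, Fintype.card_prod, Fintype.card_fin, smul_eq_mul]
    refine le_of_eq ?_
    ring
  · intro t ht
    obtain ⟨c, -, hc⟩ := List.mem_flatMap.1 ht
    obtain ⟨l, hl, rfl⟩ := List.mem_map.1 hc
    exact hT1 l (hok c l hl)
  · intro p hp
    apply chi_inj
    rw [hf p hp, chi_xorVal, sum_toList]
    obtain ⟨y1, y2, y3, rfl, h1, h2, h3⟩ : ∃ y1 y2 y3 : List Bool, p = y1 ++ (y2 ++ y3) ∧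
        y1.length = i + j + 5 ∧ y2.length = i + j + 6 ∧ y3.length = i + j + 5 := by
      refine ⟨p.take (i + j + 5), (p.drop (i + j + 5)).take (i + j + 6), (p.drop (i + j + 5)).drop (i + j + 6),
        ?_, ?_, ?_, ?_⟩
      · rw [List.take_append_drop, List.take_append_drop]
      · rw [List.length_take]; omega
      · rw [List.length_take, List.length_drop]; omega
      · rw [List.length_drop, List.length_drop]; omega
    have e1 := yes_identity inc sg act b vs hinc ?_ ?_ ?_ ?_ (fun a => if y1 = codeA i j a then 1 else 0)
        (fun r => if y2 = codeR i j r then 1 else 0) (fun k => if y3 = codeK i j k then 1 else 0)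
    · have e2 : ∀ c, (((lterms inc act b vs c).map T).map fun t => chi (termVal t (y1 ++ (y2 ++ y3)))).sum =
          ((lterms inc act b vs c).map (ltVal (fun a => if y1 = codeA i j a then 1 else 0)
          (fun r => if y2 = codeR i j r then 1 else 0) (fun k => if y3 = codeK i j k then 1 else 0))).sum := by
        intro c
        rw [List.map_map]
        congr 1
        refine List.map_congr_left fun l hl => ?_
        exact hT2 l (hok c l hl) y1 y2 y3 h1 h2 h3
      simp only [e2]
      rw [e1]
      unfold fval
      refine Finset.sum_congr rfl fun c _ => ?_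
      have e3 : ∀ a : Sl (Fin (2 ^ (i + 1))) (Fin (2 ^ (j + 1))),
          ((((finDat _ _ inc sg act).cells a).map fun p => code3 a p.1 p.2).map
            fun g => if y1 ++ (y2 ++ y3) = g then (1 : ZMod 2) else 0).sum =
          slVal (finDat _ _ inc sg act) (fun a => if y1 = codeA i j a then 1 else 0)
            (fun r => if y2 = codeR i j r then 1 else 0) (fun k => if y3 = codeK i j k then 1 else 0) a := by
        intro a
        unfold slVal
        rw [List.map_map, ← List.sum_map_mul_left]
        congr 1
        refine List.map_congr_left fun q _ => ?_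
        have e4 : (y1 ++ (y2 ++ y3) = code3 a q.1 q.2) ↔
            (y1 = codeA i j a ∧ y2 = codeR i j q.1 ∧ y3 = codeK i j q.2) := by
          constructor
          · intro h
            obtain ⟨h4, h5⟩ := List.append_inj h (by rw [h1, length_codeA])
            obtain ⟨h6, h7⟩ := List.append_inj h5 (by rw [h2, length_codeR])
            exact ⟨h4, h6, h7⟩
          · rintro ⟨rfl, rfl, rfl⟩
            rfl
        simp only [Function.comp, e4]
        by_cases f1 : y1 = codeA i j a <;> by_cases f2 : y2 = codeR i j q.1 <;>
          by_cases f3 : y3 = codeK i j q.2 <;> simp [f1, f2, f3]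
      unfold cellCodes
      simp only [List.flatMap_cons, List.flatMap_nil, List.map_append, List.sum_append, e3, List.append_nil]
      ring
    · intro c
      show xor (x c.1) (sg (c.1, c.2 - 1)) = xor (x c.1) (sg c) ↔ _
      cases x c.1 <;> simp
    · intro C
      by_cases h : act C = true
      · rw [hvs1 C h]
        have h4 := hw1 C h
        rcases Nat.eq_zero_or_pos (w C).val with h5 | h5
        · have h6 : w C = 0 := Fin.ext h5
          rw [h6, hinc] at h4
          exact absurd h4 (by decide)
        · exact h5
      · rw [hvs2 C h]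
        exact Nat.two_pow_pos _
    · intro c hc
      by_cases h : act c.2 = true
      · rw [hvs1 _ h] at hc
        have h4 : c.1 = w c.2 := Fin.ext hc
        have h5 : c = (w c.2, c.2) := Prod.ext h4 rfl
        have h6 := hw1 c.2 h
        have h7 := hw2 c.2 h
        rw [← h5] at h6 h7
        rw [← h4] at h7
        refine ⟨h6, ?_⟩
        show xor (x c.1) (sg c) = false
        rw [h7]
        simp
      · rw [hvs2 _ h] at hc
        exact absurd hc c.1.2.ne
    · intro C
      by_cases h : act C = true
      · rw [hvs1 _ h]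
        exact ⟨fun _ => (w C).2, fun _ => h⟩
      · rw [hvs2 _ h]
        exact ⟨fun h' => absurd h' h, fun h' => absurd h' (lt_irrefl _)⟩

end Pool.Agent.Lib.EsopHard
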