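import Mathlib

/-!
# ESOP minimisation: the cells of the reduction, on labels

`V` positions for variables, `M` positions for clauses, both cyclic. `inc (v, C)`: the variable of
position `v` occurs in the clause `C`; `sg (v, C)`: the value of the variable for which the literal
is true; `act C`: the clause `C` must be satisfied.

Blocks `t c` (`(c, false)`) and `s c` (`(c, true)`), for every `c = (v, C)`; every block has two
rows `h`, `h'` and two columns `p`, `q`.
-/

namespace Pool.Agent.Lib.EsopHard

variable {α β : Type}

/-- slices -/
inductive Sl (α β : Type)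
  | T (c : α × β)
  | S (c : α × β)
  | L (c : α × β)
  | D (c : α × β)
  | O (c : α × β)
  deriving DecidableEq

/-- blocks: `(c, false)` is `t c`, `(c, true)` is `s c` -/
abbrev Blk (α β : Type) := (α × β) × Bool

/-- rows: of blocks (`(blk, false)` is `h`, `(blk, true)` is `h'`), private -/
abbrev Row (α β : Type) := (Blk α β × Bool) ⊕ ((α × β) × Fin 4)

/-- columns: of blocks (`(blk, false)` is `p`, `(blk, true)` is `q`), private -/
abbrev Col (α β : Type) := (Blk α β × Bool) ⊕ ((α × β) × Fin 3)

/-- row `h` of the block `t c` -/
abbrev ht (c : α × β) : Row α β := .inl ((c, false), false)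
/-- row `h'` of the block `t c` -/
abbrev ht' (c : α × β) : Row α β := .inl ((c, false), true)
/-- row `h` of the block `s c` -/
abbrev hs (c : α × β) : Row α β := .inl ((c, true), false)
/-- row `h'` of the block `s c` -/
abbrev hs' (c : α × β) : Row α β := .inl ((c, true), true)
/-- private row of the slice `L c` -/
abbrev rL (c : α × β) : Row α β := .inr (c, 0)
/-- private row of the slice `D c` -/
abbrev rD (c : α × β) : Row α β := .inr (c, 1)
/-- first private row of the slice `O c` -/
abbrev r1 (c : α × β) : Row α β := .inr (c, 2)
/-- second private row of the slice `O c` -/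
abbrev r2 (c : α × β) : Row α β := .inr (c, 3)
/-- column `p` of the block `t c` -/
abbrev pt (c : α × β) : Col α β := .inl ((c, false), false)
/-- column `q` of the block `t c` -/
abbrev qt (c : α × β) : Col α β := .inl ((c, false), true)
/-- column `p` of the block `s c` -/
abbrev ps (c : α × β) : Col α β := .inl ((c, true), false)
/-- column `q` of the block `s c` -/
abbrev qs (c : α × β) : Col α β := .inl ((c, true), true)
/-- private column of the slice `L c` -/
abbrev cL (c : α × β) : Col α β := .inr (c, 0)
/-- first private column of the slice `O c` -/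
abbrev c1 (c : α × β) : Col α β := .inr (c, 1)
/-- second private column of the slice `O c` -/
abbrev c2 (c : α × β) : Col α β := .inr (c, 2)

/-- The data of an instance: the predecessors, the position `0` of variables, `inc`, `sg`,
`act`. -/
structure Dat (α β : Type) where
  /-- predecessor of a position of variables -/
  pv : α → α
  /-- predecessor of a position of clauses -/
  pc : β → β
  /-- is it the position 0 of variables? -/
  z : α → Bool
  /-- incidence -/
  inc : α × β → Bool
  /-- signs -/
  sg : α × β → Bool
  /-- active clauses -/
  act : β → Bool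

/-- the cells of a slice -/
def Dat.cells (d : Dat α β) : Sl α β → List (Row α β × Col α β)
  | .T c => [(ht c, pt c), (ht' c, qt c)]
  | .S c => [(hs c, ps c), (hs c, qs c), (hs' c, qs c)]
  | .L c => [(ht' (c.1, d.pc c.2), qt (c.1, d.pc c.2)), (ht c, pt c),
      (rL c, qt (c.1, d.pc c.2)), (rL c, qt c), (ht (c.1, d.pc c.2), cL c), (ht c, cL c)] ++
      if d.sg (c.1, d.pc c.2) ≠ d.sg c then [(ht c, qt c)] else []
  | .D c => [(rD c, pt c)]
  | .O c => [(r1 c, pt c), (ht c, c1 c)] ++
      (if d.inc c then [(r1 c, ps c), (hs c, c1 c)] else []) ++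
      if d.z c.1 then [(r2 c, qt c), (ht' c, c2 c)] ++
        (if d.act c.2 then [(hs c, ps c), (hs' (d.pv c.1, c.2), qs (d.pv c.1, c.2))] else [])
      else [(hs c, ps c), (r2 c, ps c), (r2 c, qs (d.pv c.1, c.2)), (hs c, c2 c),
        (hs' (d.pv c.1, c.2), c2 c)]

/-- The data on `Fin V`, `Fin M`, with the cyclic predecessors. -/
def finDat (V M : ℕ) [NeZero V] [NeZero M] (inc sg : Fin V × Fin M → Bool) (act : Fin M → Bool) :
    Dat (Fin V) (Fin M) where
  pv v := v - 1
  pc C := C - 1
  z v := decide (v = 0)
  inc := inc
  sg := sg
  act := act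

end Pool.Agent.Lib.EsopHard
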