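import Pool.Agent.Lib.MP_a221bc_esop.Codes

/-!
# ESOP minimisation: injectivity of the codes; the terms on labels are faces
-/

set_option linter.unusedSimpArgs false

namespace Pool.Agent.Lib.EsopHard

variable (i j : ℕ)

theorem two_mod (i : ℕ) (v : Fin (2 ^ (i + 1))) : (2 * v.val) % 2 ^ (i + 2) = 2 * v.val := by
  apply Nat.mod_eq_of_lt
  have := v.2
  have e : 2 ^ (i + 2) = 2 * 2 ^ (i + 1) := by rw [pow_succ 2 (i + 1), mul_comm]
  omega

theorem two_mod' (i : ℕ) (v : Fin (2 ^ (i + 1))) : (2 * v.val + 1) % 2 ^ (i + 2) = 2 * v.val + 1 := by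
  apply Nat.mod_eq_of_lt
  have := v.2
  have e : 2 ^ (i + 2) = 2 * 2 ^ (i + 1) := by rw [pow_succ 2 (i + 1), mul_comm]
  omega

theorem one_mod (j : ℕ) (v : Fin (2 ^ (j + 1))) : v.val % 2 ^ (j + 1) = v.val := Nat.mod_eq_of_lt v.2

theorem codeA_inj : Function.Injective (codeA i j) := by
  intro a a' h
  rcases a with ⟨v, C⟩ | ⟨v, C⟩ | ⟨v, C⟩ | ⟨v, C⟩ | ⟨v, C⟩ <;>
    rcases a' with ⟨v', C'⟩ | ⟨v', C'⟩ | ⟨v', C'⟩ | ⟨v', C'⟩ | ⟨v', C'⟩ <;>
    obtain ⟨h1, h2, h3⟩ := ca_inj h <;>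
    simp only [two_mod, two_mod'] at h1 h2 <;>
    first
    | (exfalso; omega)
    | (exfalso; exact absurd h3 (by decide))
    | (have e1 : v = v' := Fin.ext (by omega)
       have e2 : C = C' := Fin.ext (by omega)
       rw [e1, e2])

theorem codeR_inj : Function.Injective (codeR i j) := by
  intro a a' h
  rcases a with ⟨⟨⟨v, C⟩, x⟩, y⟩ | ⟨⟨v, C⟩, x⟩ <;>
    rcases a' with ⟨⟨⟨v', C'⟩, x'⟩, y'⟩ | ⟨⟨v', C'⟩, x'⟩
  · cases x <;> cases y <;> cases x' <;> cases y' <;>
    obtain ⟨h1, h2, h3⟩ := cr_inj h <;>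
    simp only [two_mod, two_mod', one_mod] at h1 h2 <;>
    first
    | (exfalso; omega)
    | (exfalso; exact absurd h3 (by decide))
    | (have e1 : v = v' := Fin.ext (by omega)
       have e2 : C = C' := Fin.ext (by omega)
       rw [e1, e2])
  · cases x <;> cases y <;> fin_cases x' <;>
    obtain ⟨h1, h2, h3⟩ := cr_inj h <;>
    simp only [two_mod, two_mod', one_mod] at h1 h2 <;>
    first
    | (exfalso; omega)
    | (exfalso; exact absurd h3 (by decide))
  · fin_cases x <;> cases x' <;> cases y' <;>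
    obtain ⟨h1, h2, h3⟩ := cr_inj h <;>
    simp only [two_mod, two_mod', one_mod] at h1 h2 <;>
    first
    | (exfalso; omega)
    | (exfalso; exact absurd h3 (by decide))
  · fin_cases x <;> fin_cases x' <;>
    obtain ⟨h1, h2, h3⟩ := cr_inj h <;>
    simp only [two_mod, two_mod', one_mod] at h1 h2 <;>
    first
    | (exfalso; omega)
    | (exfalso; exact absurd h3 (by decide))
    | (have e1 : v = v' := Fin.ext (by omega)
       have e2 : C = C' := Fin.ext (by omega)
       rw [e1, e2])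
    | (have e1 : v = v' := Fin.ext (by omega)
       have e0 : C - 1 = C' - 1 := Fin.ext (by omega)
       have e2 : C = C' := sub_left_inj.1 e0
       rw [e1, e2])

theorem codeK_inj : Function.Injective (codeK i j) := by
  intro a a' h
  rcases a with ⟨⟨⟨v, C⟩, x⟩, y⟩ | ⟨⟨v, C⟩, x⟩ <;>
    rcases a' with ⟨⟨⟨v', C'⟩, x'⟩, y'⟩ | ⟨⟨v', C'⟩, x'⟩
  · cases x <;> cases y <;> cases x' <;> cases y' <;>
    obtain ⟨h1, h2, h3⟩ := cr_inj h <;>
    simp only [two_mod, two_mod', one_mod] at h1 h2 <;>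
    first
    | (exfalso; omega)
    | (exfalso; exact absurd h3 (by decide))
    | (have e1 : v = v' := Fin.ext (by omega)
       have e2 : C = C' := Fin.ext (by omega)
       rw [e1, e2])
  · cases x <;> cases y <;> fin_cases x' <;>
    obtain ⟨h1, h2, h3⟩ := cr_inj h <;>
    simp only [two_mod, two_mod', one_mod] at h1 h2 <;>
    first
    | (exfalso; omega)
    | (exfalso; exact absurd h3 (by decide))
  · fin_cases x <;> cases x' <;> cases y' <;>
    obtain ⟨h1, h2, h3⟩ := cr_inj h <;>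
    simp only [two_mod, two_mod', one_mod] at h1 h2 <;>
    first
    | (exfalso; omega)
    | (exfalso; exact absurd h3 (by decide))
  · fin_cases x <;> fin_cases x' <;>
    obtain ⟨h1, h2, h3⟩ := cr_inj h <;>
    simp only [two_mod, two_mod', one_mod] at h1 h2 <;>
    first
    | (exfalso; omega)
    | (exfalso; exact absurd h3 (by decide))
    | (have e1 : v = v' := Fin.ext (by omega)
       have e2 : C = C' := Fin.ext (by omega)
       rw [e1, e2])
    | (have e0 : v - 1 = v' - 1 := Fin.ext (by omega)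
       have e1 : v = v' := sub_left_inj.1 e0
       have e2 : C = C' := Fin.ext (by omega)
       rw [e1, e2])

/-! ## Adjacent codes -/

theorem succ_mod (j : ℕ) (C : Fin (2 ^ (j + 1))) : ((C - 1).val + 1) % 2 ^ (j + 1) = C.val := by
  have h : ((C - 1 + 1 : Fin (2 ^ (j + 1)))).val = C.val := by rw [sub_add_cancel]
  rw [Fin.val_add, Fin.val_one'] at h
  rw [← h]
  simp [Nat.add_mod]

theorem val_succ (i : ℕ) (v : Fin (2 ^ (i + 1))) : (v + 1).val = (v.val + 1) % 2 ^ (i + 1) := by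
  rw [Fin.val_add, Fin.val_one']
  simp [Nat.add_mod]

theorem two_succ (i : ℕ) (v : Fin (2 ^ (i + 1))) :
    (2 * v.val + 1 + 1) % 2 ^ (i + 2) = (2 * (v + 1).val) % 2 ^ (i + 2) := by
  have e : 2 ^ (i + 2) = 2 * 2 ^ (i + 1) := by rw [pow_succ 2 (i + 1), mul_comm]
  have e1 : 2 * v.val + 1 + 1 = 2 * (v.val + 1) := by ring
  rw [val_succ, e, e1, Nat.mul_mod_mul_left, Nat.mul_mod_mul_left, Nat.mod_mod]

theorem two_pred (i : ℕ) (v : Fin (2 ^ (i + 1))) :
    (2 * (v - 1).val + 1 + 1) % 2 ^ (i + 2) = (2 * v.val) % 2 ^ (i + 2) := by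
  have := two_succ i (v - 1)
  rwa [sub_add_cancel] at this

variable {i j}

theorem adj_TL (c) : Adj (codeA i j (.T c)) (codeA i j (.L c)) := (ca_y (by rfl)).symm
theorem adj_TL' (c : Fin (2 ^ (i + 1)) × Fin (2 ^ (j + 1))) :
    Adj (codeA i j (.T c)) (codeA i j (.L (c.1, c.2 + 1))) := ca_y (two_succ j c.2)
theorem adj_SO (c) : Adj (codeA i j (.S c)) (codeA i j (.O c)) := (ca_x (by rfl)).symm
theorem adj_SO' (c : Fin (2 ^ (i + 1)) × Fin (2 ^ (j + 1))) :
    Adj (codeA i j (.S c)) (codeA i j (.O (c.1 + 1, c.2))) := ca_x (two_succ i c.1)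

theorem perm4 (a b c d : List Bool) : [a, b, c, d].Perm [c, a, d, b] :=
  (((List.Perm.swap c b [d]).cons a).trans (List.Perm.swap c a [b, d])).trans
    (((List.Perm.swap d b []).cons a).cons c)

theorem isTerm_TLOD (c) : IsTerm (i + j + 5) ([.T c, .L c, .O c, .D c].map (codeA i j)) := by
  have h1 : IsTerm (i + 2) [gray (i + 2) (2 * c.1.val)] := by
    have := IsTerm.single (gray (i + 2) (2 * c.1.val))
    rwa [length_gray] at this
  have h2 : IsTerm (j + 2) [gray (j + 2) (2 * c.2.val), gray (j + 2) (2 * c.2.val + 1)] := by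
    have := IsTerm.edge (gray_adj (j + 1) (2 * c.2.val))
    rwa [length_gray] at this
  have h3 : IsTerm 1 [[false], [true]] := IsTerm.edge (Adj.head false [])
  have h4 := h1.append (h2.append h3 (by simp [length_gray])) (by simp [length_gray])
  have e : i + 2 + (j + 2 + 1) = i + j + 5 := by ring
  rw [e] at h4
  refine h4.perm ?_
  simp only [List.flatMap_cons, List.flatMap_nil, List.map_cons, List.map_nil, List.append_nil,
    List.cons_append, List.nil_append, codeA, ca]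
  exact perm4 _ _ _ _

/-! rows -/

theorem adj_ht (c) : Adj (codeR i j (ht' c)) (codeR i j (ht c)) :=
  (cr_l (Adj.tail false (Adj.head false [true]))).symm
theorem adj_hs (c) : Adj (codeR i j (hs c)) (codeR i j (hs' c)) := cr_x (by rfl)
theorem adj_rL (c : Fin (2 ^ (i + 1)) × Fin (2 ^ (j + 1))) :
    Adj (codeR i j (rL c)) (codeR i j (ht (c.1, c.2 - 1))) := (cr_x (by rfl)).symm
theorem adj_htL (c : Fin (2 ^ (i + 1)) × Fin (2 ^ (j + 1))) :
    Adj (codeR i j (ht (c.1, c.2 - 1))) (codeR i j (ht c)) :=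
  cr_y (by rw [succ_mod, one_mod])
theorem adj_rD (c) : Adj (codeR i j (rD c)) (codeR i j (ht c)) :=
  (cr_l (Adj.head false [false, true])).symm
theorem adj_r1 (c) : Adj (codeR i j (r1 c)) (codeR i j (hs c)) :=
  (cr_l (Adj.tail false (Adj.head false [false]))).symm
theorem adj_hths (c) : Adj (codeR i j (ht c)) (codeR i j (hs c)) :=
  (cr_l (Adj.tail false (Adj.tail false (Adj.head false [])))).symm
theorem adj_r2 (c) : Adj (codeR i j (r2 c)) (codeR i j (hs c)) :=
  (cr_l (Adj.head false [false, false])).symm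
theorem adj_hsO (c : Fin (2 ^ (i + 1)) × Fin (2 ^ (j + 1))) :
    Adj (codeR i j (hs c)) (codeR i j (hs' (c.1 - 1, c.2))) := (cr_x (two_pred i c.1)).symm

/-! columns -/

theorem adj_pt (c) : Adj (codeK i j (pt c)) (codeK i j (qt c)) := cr_l (Adj.head false [true])
theorem adj_ps (c) : Adj (codeK i j (ps c)) (codeK i j (qs c)) := cr_x (by rfl)
theorem adj_qtL (c : Fin (2 ^ (i + 1)) × Fin (2 ^ (j + 1))) :
    Adj (codeK i j (qt (c.1, c.2 - 1))) (codeK i j (qt c)) :=
  cr_y (by rw [succ_mod, one_mod])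
theorem adj_cL (c) : Adj (codeK i j (cL c)) (codeK i j (qt c)) :=
  cr_l (Adj.tail true (Adj.head false []))
theorem adj_ptps (c) : Adj (codeK i j (pt c)) (codeK i j (ps c)) :=
  (cr_l (Adj.tail false (Adj.head false []))).symm
theorem adj_c1 (c) : Adj (codeK i j (c1 c)) (codeK i j (pt c)) := (cr_x (by rfl)).symm
theorem adj_psO (c : Fin (2 ^ (i + 1)) × Fin (2 ^ (j + 1))) :
    Adj (codeK i j (ps c)) (codeK i j (qs (c.1 - 1, c.2))) := (cr_x (two_pred i c.1)).symm
theorem adj_c2 (c : Fin (2 ^ (i + 1)) × Fin (2 ^ (j + 1))) :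
    Adj (codeK i j (c2 c)) (codeK i j (qs (c.1 - 1, c.2))) := (cr_l (Adj.head false [false])).symm

theorem isA1 (a) : IsTerm (i + j + 5) ([a].map (codeA i j)) := by
  have := IsTerm.single (codeA i j a)
  rwa [length_codeA] at this
theorem isA2 {a a'} (h : Adj (codeA i j a) (codeA i j a')) : IsTerm (i + j + 5) ([a, a'].map (codeA i j)) := by
  have := IsTerm.edge h
  rwa [length_codeA] at this
theorem isR1 (a) : IsTerm (i + j + 6) ([a].map (codeR i j)) := by
  have := IsTerm.single (codeR i j a)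
  rwa [length_codeR] at this
theorem isR2 {a a'} (h : Adj (codeR i j a) (codeR i j a')) : IsTerm (i + j + 6) ([a, a'].map (codeR i j)) := by
  have := IsTerm.edge h
  rwa [length_codeR] at this
theorem isK1 (a) : IsTerm (i + j + 5) ([a].map (codeK i j)) := by
  have := IsTerm.single (codeK i j a)
  rwa [length_codeK] at this
theorem isK2 {a a'} (h : Adj (codeK i j a) (codeK i j a')) : IsTerm (i + j + 5) ([a, a'].map (codeK i j)) := by
  have := IsTerm.edge h
  rwa [length_codeK] at this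

/-- the three components of a term on labels are faces -/
def LTok (l : LT (Fin (2 ^ (i + 1))) (Fin (2 ^ (j + 1)))) : Prop :=
  IsTerm (i + j + 5) (l.1.map (codeA i j)) ∧ IsTerm (i + j + 6) (l.2.1.map (codeR i j)) ∧
    IsTerm (i + j + 5) (l.2.2.map (codeK i j))

theorem lterms_ok (inc : Fin (2 ^ (i + 1)) × Fin (2 ^ (j + 1)) → Bool) (act : Fin (2 ^ (j + 1)) → Bool)
    (b : Fin (2 ^ (i + 1)) × Fin (2 ^ (j + 1)) → Bool) (vs : Fin (2 ^ (j + 1)) → ℕ)
    (c : Fin (2 ^ (i + 1)) × Fin (2 ^ (j + 1))) : ∀ l ∈ lterms inc act b vs c, LTok l := by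
  intro l hl
  simp only [lterms, List.mem_cons, List.not_mem_nil, or_false] at hl
  rcases hl with rfl | rfl | rfl | rfl | rfl | rfl | rfl | rfl | rfl | rfl | rfl
  · refine ⟨?_, isR1 _, ?_⟩
    · dsimp only
      split_ifs
      · exact isTerm_TLOD c
      · exact isA2 (adj_TL c)
    · dsimp only
      split_ifs
      · exact isK2 (adj_pt c)
      · exact isK1 _
  · refine ⟨isA2 (adj_TL' c), ?_, isK1 _⟩
    dsimp only
    split_ifs
    · exact isR2 (adj_ht c)
    · exact isR1 _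
  · refine ⟨isA1 _, ?_, isK2 (adj_qtL c)⟩
    dsimp only
    split_ifs
    · exact isR2 (adj_rL c)
    · exact isR1 _
  · refine ⟨isA1 _, isR2 (adj_htL c), ?_⟩
    dsimp only
    split_ifs
    · exact isK2 (adj_cL c)
    · exact isK1 _
  · refine ⟨isA1 _, ?_, isK1 _⟩
    dsimp only
    split_ifs
    · exact isR2 (adj_rD c)
    · exact isR1 _
  · refine ⟨isA1 _, ?_, ?_⟩
    · dsimp only
      split_ifs
      · exact isR2 (adj_r1 c)
      · exact isR1 _
    · dsimp only
      split_ifs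
      · exact isK2 (adj_ptps c)
      · exact isK1 _
  · refine ⟨isA1 _, ?_, ?_⟩
    · dsimp only
      split_ifs
      · exact isR2 (adj_hths c)
      · exact isR1 _
    · dsimp only
      split_ifs
      · exact isK2 (adj_c1 c)
      · exact isK1 _
  · split_ifs
    · exact ⟨isA1 _, isR1 _, isK1 _⟩
    · exact ⟨isA1 _, isR2 (adj_r2 c), isK2 (adj_psO c)⟩
    · exact ⟨isA1 _, isR1 _, isK2 (adj_psO c)⟩
  · split_ifs
    · exact ⟨isA1 _, isR1 _, isK1 _⟩
    · exact ⟨isA1 _, isR2 (adj_hsO c), isK2 (adj_c2 c)⟩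
    · exact ⟨isA1 _, isR2 (adj_hsO c), isK1 _⟩
  · split_ifs
    · exact ⟨isA2 (adj_SO c), isR1 _, isK1 _⟩
    · exact ⟨isA1 _, isR1 _, isK1 _⟩
    · exact ⟨isA1 _, isR1 _, isK2 (adj_ps c)⟩
  · split_ifs
    · exact ⟨isA1 _, isR2 (adj_hs c), isK1 _⟩
    · exact ⟨isA2 (adj_SO' c), isR1 _, isK1 _⟩
    · exact ⟨isA1 _, isR1 _, isK1 _⟩

end Pool.Agent.Lib.EsopHard
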