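import Pool.Agent.Lib.MP_a221bc_esop.Defs

/-!
# ESOP minimisation: the gadgets
-/

set_option linter.unusedSimpArgs false
set_option linter.unusedVariables false

namespace Pool.Agent.Lib.EsopHard

open Matrix

variable {α β : Type} [DecidableEq α] [DecidableEq β]

/-- the tensor -/
def tens (d : Dat α β) (a : Sl α β) (r : Row α β) (k : Col α β) : ZMod 2 :=
  ((d.cells a).map fun p => if p.1 = r ∧ p.2 = k then (1 : ZMod 2) else 0).sum

/-- matrices on the rows and columns of the blocks -/
abbrev BM (α β : Type) := Matrix (Blk α β × Bool) (Blk α β × Bool) (ZMod 2)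

/-- the sum of the block slices (and its inverse) -/
def gm (α β : Type) [DecidableEq α] [DecidableEq β] : BM α β := fun r k =>
  if r.1 = k.1 then
    (if r.2 = k.2 then 1 else if r.1.2 = true ∧ r.2 = false then 1 else 0)
  else 0

theorem gm_sq [Fintype α] [Fintype β] : gm α β * gm α β = 1 := by
  ext ⟨b, i⟩ ⟨γ, j⟩
  rw [mul_apply, Fintype.sum_prod_type, Finset.sum_eq_single b]
  · by_cases h : b = γ
    · subst h
      obtain ⟨c, x⟩ := b
      cases i <;> cases j <;> cases x <;> (simp [gm, one_apply]; try decide)
    · simp [gm, h, one_apply]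
  · intro b' _ hb
    simp [gm, Ne.symm hb]
  · intro h
    exact absurd (Finset.mem_univ _) h

theorem two_ite (p : Prop) [Decidable p] : (if p then (1 : ZMod 2) else 0) + (if p then 1 else 0) = 0 := by
  split_ifs <;> decide

/-- the consequences of the lower bound: off-diagonal blocks vanish, sums over rows and columns -/
structure Mat (d : Dat α β) (Mx : Sl α β → Blk α β × Bool → Blk α β × Bool → ZMod 2) : Prop where
  off : ∀ a r k, r.1 ≠ k.1 → Mx a r k = 0
  pair : ∀ a (rs ks : List (Blk α β × Bool)), (∀ p, (ks.map fun k => tens d a (.inr p) (.inl k)).sum = 0) →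
        (∀ q, (rs.map fun r => tens d a (.inl r) (.inr q)).sum = 0) →
        (rs.map fun r => (ks.map fun k => Mx a r k).sum).sum =
          (rs.map fun r => (ks.map fun k => tens d a (.inl r) (.inl k)).sum).sum

variable {d : Dat α β} {Mx : Sl α β → Blk α β × Bool → Blk α β × Bool → ZMod 2}

attribute [local simp] tens Dat.cells ht ht' hs hs' rL rD r1 r2 pt qt ps qs cL c1 c2

/-- slice `L`, block `t c`, entry `(h, p)` -/
theorem L_1 (h : Mat d Mx) {v : α} {C : β} (hC : d.pc C ≠ C) :
    Mx (.L (v, C)) (((v, C), false), false) (((v, C), false), false) = 1 := by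
  have hC' := hC.symm
  have h1 := h.pair (.L (v, C)) [(((v, d.pc C), false), false), (((v, C), false), false)] [(((v, C), false), false)] (by
      rintro ⟨c', x⟩
      by_cases hs : d.sg (v, d.pc C) = d.sg (v, C) <;> fin_cases x <;> simp [hs, hC, hC', two_ite]) (by
      rintro ⟨c', x⟩
      by_cases hs : d.sg (v, d.pc C) = d.sg (v, C) <;> fin_cases x <;> simp [hs, hC, hC', two_ite])
  have o0 := h.off (.L (v, C)) (((v, d.pc C), false), false) (((v, C), false), false) (by simp [hC, hC'])
  by_cases hs : d.sg (v, d.pc C) = d.sg (v, C) <;> simpa [o0, hs, hC, hC', add_assoc] using h1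

/-- slice `L`, block `t c`, entry `(h', q)` -/
theorem L_2 (h : Mat d Mx) {v : α} {C : β} (hC : d.pc C ≠ C) :
    Mx (.L (v, C)) (((v, C), false), true) (((v, C), false), true) = 0 := by
  have hC' := hC.symm
  have h1 := h.pair (.L (v, C)) [(((v, C), false), true)] [(((v, d.pc C), false), true), (((v, C), false), true)] (by
      rintro ⟨c', x⟩
      by_cases hs : d.sg (v, d.pc C) = d.sg (v, C) <;> fin_cases x <;> simp [hs, hC, hC', two_ite]) (by
      rintro ⟨c', x⟩
      by_cases hs : d.sg (v, d.pc C) = d.sg (v, C) <;> fin_cases x <;> simp [hs, hC, hC', two_ite])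
  have o0 := h.off (.L (v, C)) (((v, C), false), true) (((v, d.pc C), false), true) (by simp [hC, hC'])
  by_cases hs : d.sg (v, d.pc C) = d.sg (v, C) <;> simpa [o0, hs, hC, hC', add_assoc] using h1

/-- slice `L`, block `t (pred c)`, entry `(h, p)` -/
theorem L_3 (h : Mat d Mx) {v : α} {C : β} (hC : d.pc C ≠ C) :
    Mx (.L (v, C)) (((v, d.pc C), false), false) (((v, d.pc C), false), false) = 0 := by
  have hC' := hC.symm
  have h1 := h.pair (.L (v, C)) [(((v, d.pc C), false), false), (((v, C), false), false)] [(((v, d.pc C), false), false)] (by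
      rintro ⟨c', x⟩
      by_cases hs : d.sg (v, d.pc C) = d.sg (v, C) <;> fin_cases x <;> simp [hs, hC, hC', two_ite]) (by
      rintro ⟨c', x⟩
      by_cases hs : d.sg (v, d.pc C) = d.sg (v, C) <;> fin_cases x <;> simp [hs, hC, hC', two_ite])
  have o0 := h.off (.L (v, C)) (((v, C), false), false) (((v, d.pc C), false), false) (by simp [hC, hC'])
  by_cases hs : d.sg (v, d.pc C) = d.sg (v, C) <;> simpa [o0, hs, hC, hC', add_assoc] using h1

/-- slice `L`, block `t (pred c)`, entry `(h', q)` -/
theorem L_4 (h : Mat d Mx) {v : α} {C : β} (hC : d.pc C ≠ C) :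
    Mx (.L (v, C)) (((v, d.pc C), false), true) (((v, d.pc C), false), true) = 1 := by
  have hC' := hC.symm
  have h1 := h.pair (.L (v, C)) [(((v, d.pc C), false), true)] [(((v, d.pc C), false), true), (((v, C), false), true)] (by
      rintro ⟨c', x⟩
      by_cases hs : d.sg (v, d.pc C) = d.sg (v, C) <;> fin_cases x <;> simp [hs, hC, hC', two_ite]) (by
      rintro ⟨c', x⟩
      by_cases hs : d.sg (v, d.pc C) = d.sg (v, C) <;> fin_cases x <;> simp [hs, hC, hC', two_ite])
  have o0 := h.off (.L (v, C)) (((v, d.pc C), false), true) (((v, C), false), true) (by simp [hC, hC'])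
  by_cases hs : d.sg (v, d.pc C) = d.sg (v, C) <;> simpa [o0, hs, hC, hC', add_assoc] using h1

/-- slice `L`, the two entries `(h, q)` -/
theorem L_5 (h : Mat d Mx) {v : α} {C : β} (hC : d.pc C ≠ C) :
    Mx (.L (v, C)) (((v, d.pc C), false), false) (((v, d.pc C), false), true) + Mx (.L (v, C)) (((v, C), false), false) (((v, C), false), true) = if d.sg (v, d.pc C) = d.sg (v, C) then 0 else 1 := by
  have hC' := hC.symm
  have h1 := h.pair (.L (v, C)) [(((v, d.pc C), false), false), (((v, C), false), false)] [(((v, d.pc C), false), true), (((v, C), false), true)] (by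
      rintro ⟨c', x⟩
      by_cases hs : d.sg (v, d.pc C) = d.sg (v, C) <;> fin_cases x <;> simp [hs, hC, hC', two_ite]) (by
      rintro ⟨c', x⟩
      by_cases hs : d.sg (v, d.pc C) = d.sg (v, C) <;> fin_cases x <;> simp [hs, hC, hC', two_ite])
  have o0 := h.off (.L (v, C)) (((v, d.pc C), false), false) (((v, C), false), true) (by simp [hC, hC'])
  have o1 := h.off (.L (v, C)) (((v, C), false), false) (((v, d.pc C), false), true) (by simp [hC, hC'])
  by_cases hs : d.sg (v, d.pc C) = d.sg (v, C) <;> simpa [o0, o1, hs, hC, hC', add_assoc] using h1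

/-- slice `O`, incident: the three entries -/
theorem O_1 (h : Mat d Mx) {v : α} {C : β} (hv : d.pv v ≠ v) (hz : d.z v = false) (hi : d.inc (v, C) = true) :
    Mx (.O (v, C)) (((v, C), false), false) (((v, C), false), false) + Mx (.O (v, C)) (((v, C), true), false) (((v, C), true), false) + Mx (.O (v, C)) (((d.pv v, C), true), true) (((d.pv v, C), true), true) = 1 := by
  have hv' := hv.symm
  have h1 := h.pair (.O (v, C)) [(((v, C), false), false), (((v, C), true), false), (((d.pv v, C), true), true)] [(((v, C), false), false), (((v, C), true), false), (((d.pv v, C), true), true)] (by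
      rintro ⟨c', x⟩
      fin_cases x <;> simp [hz, hi, hv, hv', two_ite]) (by
      rintro ⟨c', x⟩
      fin_cases x <;> simp [hz, hi, hv, hv', two_ite])
  have o0 := h.off (.O (v, C)) (((v, C), false), false) (((v, C), true), false) (by simp [hv, hv'])
  have o1 := h.off (.O (v, C)) (((v, C), false), false) (((d.pv v, C), true), true) (by simp [hv, hv'])
  have o2 := h.off (.O (v, C)) (((v, C), true), false) (((v, C), false), false) (by simp [hv, hv'])
  have o3 := h.off (.O (v, C)) (((v, C), true), false) (((d.pv v, C), true), true) (by simp [hv, hv'])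
  have o4 := h.off (.O (v, C)) (((d.pv v, C), true), true) (((v, C), false), false) (by simp [hv, hv'])
  have o5 := h.off (.O (v, C)) (((d.pv v, C), true), true) (((v, C), true), false) (by simp [hv, hv'])
  simpa [o0, o1, o2, o3, o4, o5, hz, hi, hv, hv', add_assoc] using h1

/-- slice `O`, not incident: the two entries -/
theorem O_2 (h : Mat d Mx) {v : α} {C : β} (hv : d.pv v ≠ v) (hz : d.z v = false) (hi : d.inc (v, C) = false) :
    Mx (.O (v, C)) (((v, C), true), false) (((v, C), true), false) + Mx (.O (v, C)) (((d.pv v, C), true), true) (((d.pv v, C), true), true) = 1 := by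
  have hv' := hv.symm
  have h1 := h.pair (.O (v, C)) [(((v, C), true), false), (((d.pv v, C), true), true)] [(((v, C), true), false), (((d.pv v, C), true), true)] (by
      rintro ⟨c', x⟩
      fin_cases x <;> simp [hz, hi, hv, hv', two_ite]) (by
      rintro ⟨c', x⟩
      fin_cases x <;> simp [hz, hi, hv, hv', two_ite])
  have o0 := h.off (.O (v, C)) (((v, C), true), false) (((d.pv v, C), true), true) (by simp [hv, hv'])
  have o1 := h.off (.O (v, C)) (((d.pv v, C), true), true) (((v, C), true), false) (by simp [hv, hv'])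
  simpa [o0, o1, hz, hi, hv, hv', add_assoc] using h1

/-- slice `O`, block `t c`, entry `(h, q)` -/
theorem O_3 (h : Mat d Mx) {v : α} {C : β} (hv : d.pv v ≠ v) (hz : d.z v = false) (hi : d.inc (v, C) = true) :
    Mx (.O (v, C)) (((v, C), false), false) (((v, C), false), true) = 0 := by
  have hv' := hv.symm
  have h1 := h.pair (.O (v, C)) [(((v, C), false), false), (((v, C), true), false), (((d.pv v, C), true), true)] [(((v, C), false), true)] (by
      rintro ⟨c', x⟩
      fin_cases x <;> simp [hz, hi, hv, hv', two_ite]) (by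
      rintro ⟨c', x⟩
      fin_cases x <;> simp [hz, hi, hv, hv', two_ite])
  have o0 := h.off (.O (v, C)) (((v, C), true), false) (((v, C), false), true) (by simp [hv, hv'])
  have o1 := h.off (.O (v, C)) (((d.pv v, C), true), true) (((v, C), false), true) (by simp [hv, hv'])
  simpa [o0, o1, hz, hi, hv, hv', add_assoc] using h1

/-- slice `O`, block `t c`, entry `(h', q)` -/
theorem O_4 (h : Mat d Mx) {v : α} {C : β} (hv : d.pv v ≠ v) (hz : d.z v = false) (hi : d.inc (v, C) = true) :
    Mx (.O (v, C)) (((v, C), false), true) (((v, C), false), true) = 0 := by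
  have hv' := hv.symm
  have h1 := h.pair (.O (v, C)) [(((v, C), false), true)] [(((v, C), false), true)] (by
      rintro ⟨c', x⟩
      fin_cases x <;> simp [hz, hi, hv, hv', two_ite]) (by
      rintro ⟨c', x⟩
      fin_cases x <;> simp [hz, hi, hv, hv', two_ite])
  simpa [hz, hi, hv, hv', add_assoc] using h1

/-- slice `O`, block `s c`, entry `(h, q)` -/
theorem O_5 (h : Mat d Mx) {v : α} {C : β} (hv : d.pv v ≠ v) (hz : d.z v = false) (hi : d.inc (v, C) = true) :
    Mx (.O (v, C)) (((v, C), true), false) (((v, C), true), true) = 0 := by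
  have hv' := hv.symm
  have h1 := h.pair (.O (v, C)) [(((v, C), false), false), (((v, C), true), false), (((d.pv v, C), true), true)] [(((v, C), true), true)] (by
      rintro ⟨c', x⟩
      fin_cases x <;> simp [hz, hi, hv, hv', two_ite]) (by
      rintro ⟨c', x⟩
      fin_cases x <;> simp [hz, hi, hv, hv', two_ite])
  have o0 := h.off (.O (v, C)) (((v, C), false), false) (((v, C), true), true) (by simp [hv, hv'])
  have o1 := h.off (.O (v, C)) (((d.pv v, C), true), true) (((v, C), true), true) (by simp [hv, hv'])
  simpa [o0, o1, hz, hi, hv, hv', add_assoc] using h1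

/-- slice `O`, block `s c`, entry `(h, q)` -/
theorem O_5' (h : Mat d Mx) {v : α} {C : β} (hv : d.pv v ≠ v) (hz : d.z v = false) (hi : d.inc (v, C) = false) :
    Mx (.O (v, C)) (((v, C), true), false) (((v, C), true), true) = 0 := by
  have hv' := hv.symm
  have h1 := h.pair (.O (v, C)) [(((v, C), true), false), (((d.pv v, C), true), true)] [(((v, C), true), true)] (by
      rintro ⟨c', x⟩
      fin_cases x <;> simp [hz, hi, hv, hv', two_ite]) (by
      rintro ⟨c', x⟩
      fin_cases x <;> simp [hz, hi, hv, hv', two_ite])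
  have o0 := h.off (.O (v, C)) (((d.pv v, C), true), true) (((v, C), true), true) (by simp [hv, hv'])
  simpa [o0, hz, hi, hv, hv', add_assoc] using h1

/-- slice `O`, block `s c`, entry `(h', q)` -/
theorem O_6 (h : Mat d Mx) {v : α} {C : β} (hv : d.pv v ≠ v) (hz : d.z v = false) (hi : d.inc (v, C) = true) :
    Mx (.O (v, C)) (((v, C), true), true) (((v, C), true), true) = 0 := by
  have hv' := hv.symm
  have h1 := h.pair (.O (v, C)) [(((v, C), true), true)] [(((v, C), true), true)] (by
      rintro ⟨c', x⟩
      fin_cases x <;> simp [hz, hi, hv, hv', two_ite]) (by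
      rintro ⟨c', x⟩
      fin_cases x <;> simp [hz, hi, hv, hv', two_ite])
  simpa [hz, hi, hv, hv', add_assoc] using h1

/-- slice `O`, block `s c`, entry `(h', q)` -/
theorem O_6' (h : Mat d Mx) {v : α} {C : β} (hv : d.pv v ≠ v) (hz : d.z v = false) (hi : d.inc (v, C) = false) :
    Mx (.O (v, C)) (((v, C), true), true) (((v, C), true), true) = 0 := by
  have hv' := hv.symm
  have h1 := h.pair (.O (v, C)) [(((v, C), true), true)] [(((v, C), true), true)] (by
      rintro ⟨c', x⟩
      fin_cases x <;> simp [hz, hi, hv, hv', two_ite]) (by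
      rintro ⟨c', x⟩
      fin_cases x <;> simp [hz, hi, hv, hv', two_ite])
  simpa [hz, hi, hv, hv', add_assoc] using h1

/-- slice `O`, block `s (pred c)`, entry `(h, q)` -/
theorem O_7 (h : Mat d Mx) {v : α} {C : β} (hv : d.pv v ≠ v) (hz : d.z v = false) (hi : d.inc (v, C) = true) :
    Mx (.O (v, C)) (((d.pv v, C), true), false) (((d.pv v, C), true), true) = 0 := by
  have hv' := hv.symm
  have h1 := h.pair (.O (v, C)) [(((d.pv v, C), true), false)] [(((v, C), false), false), (((v, C), true), false), (((d.pv v, C), true), true)] (by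
      rintro ⟨c', x⟩
      fin_cases x <;> simp [hz, hi, hv, hv', two_ite]) (by
      rintro ⟨c', x⟩
      fin_cases x <;> simp [hz, hi, hv, hv', two_ite])
  have o0 := h.off (.O (v, C)) (((d.pv v, C), true), false) (((v, C), false), false) (by simp [hv, hv'])
  have o1 := h.off (.O (v, C)) (((d.pv v, C), true), false) (((v, C), true), false) (by simp [hv, hv'])
  simpa [o0, o1, hz, hi, hv, hv', add_assoc] using h1

/-- slice `O`, block `s (pred c)`, entry `(h, q)` -/
theorem O_7' (h : Mat d Mx) {v : α} {C : β} (hv : d.pv v ≠ v) (hz : d.z v = false) (hi : d.inc (v, C) = false) :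
    Mx (.O (v, C)) (((d.pv v, C), true), false) (((d.pv v, C), true), true) = 0 := by
  have hv' := hv.symm
  have h1 := h.pair (.O (v, C)) [(((d.pv v, C), true), false)] [(((v, C), true), false), (((d.pv v, C), true), true)] (by
      rintro ⟨c', x⟩
      fin_cases x <;> simp [hz, hi, hv, hv', two_ite]) (by
      rintro ⟨c', x⟩
      fin_cases x <;> simp [hz, hi, hv, hv', two_ite])
  have o0 := h.off (.O (v, C)) (((d.pv v, C), true), false) (((v, C), true), false) (by simp [hv, hv'])
  simpa [o0, hz, hi, hv, hv', add_assoc] using h1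

/-- slice `O` at the position 0, block `s c`, entry `(h, p)` -/
theorem Z_1 (h : Mat d Mx) {v : α} {C : β} (hv : d.pv v ≠ v) (hz : d.z v = true) (hi : d.inc (v, C) = false) :
    Mx (.O (v, C)) (((v, C), true), false) (((v, C), true), false) = if d.act C then 1 else 0 := by
  have hv' := hv.symm
  have h1 := h.pair (.O (v, C)) [(((v, C), true), false)] [(((v, C), true), false)] (by
      rintro ⟨c', x⟩
      by_cases ha : d.act C = true <;> fin_cases x <;> simp [hz, hi, ha, hv, hv', two_ite]) (by
      rintro ⟨c', x⟩
      by_cases ha : d.act C = true <;> fin_cases x <;> simp [hz, hi, ha, hv, hv', two_ite])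
  by_cases ha : d.act C = true <;> simpa [hz, hi, ha, hv, hv', add_assoc] using h1

/-- slice `O` at the position 0, block `s c`, entry `(h, q)` -/
theorem Z_2 (h : Mat d Mx) {v : α} {C : β} (hv : d.pv v ≠ v) (hz : d.z v = true) (hi : d.inc (v, C) = false) :
    Mx (.O (v, C)) (((v, C), true), false) (((v, C), true), true) = 0 := by
  have hv' := hv.symm
  have h1 := h.pair (.O (v, C)) [(((v, C), true), false)] [(((v, C), true), true)] (by
      rintro ⟨c', x⟩
      by_cases ha : d.act C = true <;> fin_cases x <;> simp [hz, hi, ha, hv, hv', two_ite]) (by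
      rintro ⟨c', x⟩
      by_cases ha : d.act C = true <;> fin_cases x <;> simp [hz, hi, ha, hv, hv', two_ite])
  by_cases ha : d.act C = true <;> simpa [hz, hi, ha, hv, hv', add_assoc] using h1

/-- slice `O` at the position 0, block `s c`, entry `(h', q)` -/
theorem Z_3 (h : Mat d Mx) {v : α} {C : β} (hv : d.pv v ≠ v) (hz : d.z v = true) (hi : d.inc (v, C) = false) :
    Mx (.O (v, C)) (((v, C), true), true) (((v, C), true), true) = 0 := by
  have hv' := hv.symm
  have h1 := h.pair (.O (v, C)) [(((v, C), true), true)] [(((v, C), true), true)] (by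
      rintro ⟨c', x⟩
      by_cases ha : d.act C = true <;> fin_cases x <;> simp [hz, hi, ha, hv, hv', two_ite]) (by
      rintro ⟨c', x⟩
      by_cases ha : d.act C = true <;> fin_cases x <;> simp [hz, hi, ha, hv, hv', two_ite])
  by_cases ha : d.act C = true <;> simpa [hz, hi, ha, hv, hv', add_assoc] using h1

/-- slice `O` at the position 0, block `s (pred c)`, entry `(h', q)` -/
theorem Z_4 (h : Mat d Mx) {v : α} {C : β} (hv : d.pv v ≠ v) (hz : d.z v = true) (hi : d.inc (v, C) = false) :
    Mx (.O (v, C)) (((d.pv v, C), true), true) (((d.pv v, C), true), true) = if d.act C then 1 else 0 := by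
  have hv' := hv.symm
  have h1 := h.pair (.O (v, C)) [(((d.pv v, C), true), true)] [(((d.pv v, C), true), true)] (by
      rintro ⟨c', x⟩
      by_cases ha : d.act C = true <;> fin_cases x <;> simp [hz, hi, ha, hv, hv', two_ite]) (by
      rintro ⟨c', x⟩
      by_cases ha : d.act C = true <;> fin_cases x <;> simp [hz, hi, ha, hv, hv', two_ite])
  by_cases ha : d.act C = true <;> simpa [hz, hi, ha, hv, hv', add_assoc] using h1

/-- slice `O` at the position 0, block `s (pred c)`, entry `(h, q)` -/
theorem Z_5 (h : Mat d Mx) {v : α} {C : β} (hv : d.pv v ≠ v) (hz : d.z v = true) (hi : d.inc (v, C) = false) :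
    Mx (.O (v, C)) (((d.pv v, C), true), false) (((d.pv v, C), true), true) = 0 := by
  have hv' := hv.symm
  have h1 := h.pair (.O (v, C)) [(((d.pv v, C), true), false)] [(((d.pv v, C), true), true)] (by
      rintro ⟨c', x⟩
      by_cases ha : d.act C = true <;> fin_cases x <;> simp [hz, hi, ha, hv, hv', two_ite]) (by
      rintro ⟨c', x⟩
      by_cases ha : d.act C = true <;> fin_cases x <;> simp [hz, hi, ha, hv, hv', two_ite])
  by_cases ha : d.act C = true <;> simpa [hz, hi, ha, hv, hv', add_assoc] using h1

end Pool.Agent.Lib.EsopHard
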