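import Pool.Agent.Lib.MP_a221bc_esop.Poly

/-!
# ESOP minimisation is in NP
-/

set_option linter.unusedSimpArgs false

namespace Pool.Agent.Lib.EsopHard

open Turing Pool.Agent.Lib.PolyTime

/-! ## Lists of terms as words -/

/-- the first literal of the first term -/
def consHead (s : Option Bool) : List (List (Option Bool)) → List (List (Option Bool))
  | [] => []
  | t :: r => (s :: t) :: r

/-- one symbol -/
def proc (b c : Bool) (acc : List (List (Option Bool))) : List (List (Option Bool)) :=
  if b = true then consHead (some c) acc else if c = true then consHead none acc else [] :: acc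

/-- one bit; two bits are a symbol -/
def dstep (b : Bool) (st : Option Bool × List (List (Option Bool))) :
    Option Bool × List (List (Option Bool)) :=
  st.1.elim (some b, st.2) fun c => (none, proc b c st.2)

/-- decoding -/
def dec (w : List Bool) : List (List (Option Bool)) := (w.foldr dstep (none, [])).2

/-- the code of a literal -/
def esym : Option Bool → List Bool
  | none => [false, true]
  | some b => [true, b]

/-- the code of a term -/
def eterm (t : List (Option Bool)) : List Bool := t.flatMap esym ++ [false, false]

/-- the code of a list of terms -/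
def encT (T : List (List (Option Bool))) : List Bool := T.flatMap eterm

theorem foldr_sym (s : Option Bool) (w : List Bool) (acc : List (List (Option Bool)))
    (h : w.foldr dstep (none, []) = (none, acc)) :
    (esym s ++ w).foldr dstep (none, []) = (none, consHead s acc) := by
  rcases s with _ | b
  · simp [esym, h, dstep, proc]
  · simp [esym, h, dstep, proc]

theorem foldr_term (t : List (Option Bool)) (w : List Bool) (acc : List (List (Option Bool)))
    (h : w.foldr dstep (none, []) = (none, acc)) :
    (eterm t ++ w).foldr dstep (none, []) = (none, t :: acc) := by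
  induction t with
  | nil => simp [eterm, h, dstep, proc]
  | cons s t ih =>
    have := foldr_sym s _ _ ih
    rw [eterm, List.flatMap_cons]
    rw [eterm] at this
    simpa [consHead] using this

theorem foldr_pad (m : ℕ) :
    ((List.replicate m [false, true]).flatten).foldr dstep (none, []) = (none, []) := by
  induction m with
  | zero => rfl
  | succ m ih =>
    rw [List.replicate_succ, List.flatten_cons, List.foldr_append, ih]
    rfl

theorem dec_encT (T : List (List (Option Bool))) (m : ℕ) :
    dec (encT T ++ (List.replicate m [false, true]).flatten) = T := by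
  have h : (encT T ++ (List.replicate m [false, true]).flatten).foldr dstep (none, []) = (none, T) := by
    induction T with
    | nil => exact foldr_pad m
    | cons t T ih =>
      have := foldr_term t _ _ ih
      simpa [encT] using this
  rw [dec, h]

theorem length_esym (s : Option Bool) : (esym s).length = 2 := by
  rcases s with _ | b <;> rfl

theorem length_eterm (t : List (Option Bool)) : (eterm t).length = 2 * (t.length + 1) := by
  rw [eterm, List.length_append]
  have : (t.flatMap esym).length = 2 * t.length := by
    induction t with
    | nil => rfl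
    | cons s t ih => rw [List.flatMap_cons, List.length_append, length_esym, ih, List.length_cons]; ring
  rw [this]
  simp
  ring

theorem length_encT {n : ℕ} (T : List (List (Option Bool))) (h : ∀ t ∈ T, t.length = n) :
    (encT T).length = 2 * (T.length * (n + 1)) := by
  induction T with
  | nil => simp [encT]
  | cons t T ih =>
    rw [encT, List.flatMap_cons, List.length_append, length_eterm, h t (List.mem_cons_self ..),
      List.length_cons]
    have := ih fun t ht => h t (List.mem_cons_of_mem _ ht)
    rw [encT] at this
    rw [this]
    ring

theorem encT_cons (t : List (Option Bool)) (T : List (List (Option Bool))) :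
    encT (t :: T) = eterm t ++ encT T := rfl

/-! ## The verifier -/

/-- the digits -/
def vbits (T : List (List (Option Bool))) : List Bool := ((T[0]?).getD []).filterMap id

/-- the number of variables -/
def vn (x : List Bool) (T : List (List (Option Bool))) : ℕ :=
  min ((T[1]?).getD []).length (Nat.size x.length)

/-- the verifier, on a list of terms -/
def ver (x : List Bool) (T : List (List (Option Bool))) : Bool :=
  decide (natWord (bval (vbits T)) ++ table (vn x T) (T.drop 2) = x) &&
    ((T.drop 2).all fun t => decide (t.length = vn x T)) &&
    decide ((T.drop 2).length ≤ bval (vbits T))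

theorem ver_sound {x : List Bool} {T : List (List (Option Bool))} (h : ver x T = true) :
    ∃ a ∈ ESOP, word a = x := by
  simp only [ver, Bool.and_eq_true, decide_eq_true_eq, List.all_eq_true] at h
  obtain ⟨⟨h1, h2⟩, h3⟩ := h
  exact ⟨(table (vn x T) (T.drop 2), bval (vbits T)), ⟨vn x T, T.drop 2, h3, h2, rfl⟩, h1⟩

/-- every function has at most one term for each point -/
theorem short (n : ℕ) (f : List Bool → Bool) : ∃ L : List (List (Option Bool)), L.length ≤ 2 ^ n ∧
    (∀ t ∈ L, t.length = n) ∧ table n L = (points n).map f := by
  refine ⟨((points n).filter f).map fun p => p.map some, ?_, ?_, ?_⟩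
  · rw [List.length_map, ← length_points n]
    exact List.length_filter_le _ _
  · intro t ht
    obtain ⟨p, hp, rfl⟩ := List.mem_map.1 ht
    rw [List.length_map]
    exact mem_points.1 (List.mem_filter.1 hp).1
  · refine List.map_inj_left.2 fun x hx => ?_
    have hnd : ∀ n, (points n).Nodup := by
      intro n
      induction n with
      | zero => simp [points]
      | succ n ih =>
        rw [points]
        refine List.Nodup.append (ih.map fun a b h => by simpa using h) (ih.map fun a b h => by simpa using h) ?_
        intro a h1 h2
        obtain ⟨y, -, rfl⟩ := List.mem_map.1 h1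
        obtain ⟨z, -, h3⟩ := List.mem_map.1 h2
        simp at h3
    have h1 : ∀ l : List (List Bool), (∀ p ∈ l, p.length = n) → l.Nodup →
        xorVal ((l.filter f).map fun p => p.map some) x = (decide (x ∈ l) && f x) := by
      intro l
      induction l with
      | nil => intro _ _; simp [xorVal]
      | cons p l ih =>
        intro hl hd
        have ih' := ih (fun q hq => hl q (List.mem_cons_of_mem _ hq)) (List.nodup_cons.1 hd).2
        have hp : termVal (p.map some) x = decide (x = p) :=
          termVal_some p x (by rw [mem_points.1 hx, hl p (List.mem_cons_self ..)])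
        rw [List.filter_cons]
        by_cases h1 : f p = true
        · rw [if_pos h1, List.map_cons]
          have h2 : xorVal (p.map some :: (l.filter f).map fun p => p.map some) x =
              xor (termVal (p.map some) x) (xorVal ((l.filter f).map fun p => p.map some) x) := rfl
          rw [h2, hp, ih']
          by_cases h3 : x = p
          · subst h3
            simp [h1, (List.nodup_cons.1 hd).1]
          · simp [h3]
        · rw [if_neg h1, ih']
          by_cases h3 : x = p
          · subst h3
            simp [h1, (List.nodup_cons.1 hd).1]
          · simp [h3]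
    rw [h1 _ (fun p hp => mem_points.1 hp) (hnd n)]
    simp [hx]

theorem length_natWord (s : ℕ) : (natWord s).length = 2 * (Nat.bits s).length + 1 := by
  rw [natWord, List.length_append]
  have : ∀ l : List Bool, (l.flatMap fun b => [true, b]).length = 2 * l.length := by
    intro l
    induction l with
    | nil => rfl
    | cons b l ih => rw [List.flatMap_cons, List.length_append, ih, List.length_cons]; simp; ring
  rw [this]
  rfl

theorem ver_complete {x : List Bool} (h : ∃ a ∈ ESOP, word a = x) :
    ∃ w : List Bool, w.length = 2 * ((x.length + 1) * (x.length + 1) + 2 * (x.length + 1)) ∧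
      ver x (dec w) = true := by
  obtain ⟨⟨tt, s⟩, ⟨n, L, h1, h2, h3⟩, rfl⟩ := h
  simp only at h1 h3
  obtain ⟨L', h1', h2', h3', h4'⟩ : ∃ L' : List (List (Option Bool)), L'.length ≤ s ∧
      (∀ t ∈ L', t.length = n) ∧ tt = table n L' ∧ L'.length ≤ 2 ^ n := by
    by_cases h4 : L.length ≤ 2 ^ n
    · exact ⟨L, h1, h2, h3, h4⟩
    · obtain ⟨L', h5, h6, h7⟩ := short n (xorVal L)
      exact ⟨L', by omega, h6, by rw [h3, h7]; rfl, h5⟩
  set N := (word (tt, s)).length with hN
  have hlt : tt.length = 2 ^ n := by rw [h3', table, List.length_map, length_points]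
  have hN1 : N = 2 * (Nat.bits s).length + 1 + 2 ^ n := by
    rw [hN, word_eq, List.length_append, length_natWord, hlt]
  have hn : n < 2 ^ n := Nat.lt_two_pow_self
  let T : List (List (Option Bool)) := (Nat.bits s).map some :: List.replicate n none :: L'
  have hlen : (encT T).length = 2 * (((Nat.bits s).length + 1) + (n + 1) + L'.length * (n + 1)) := by
    rw [encT_cons, encT_cons, List.length_append, List.length_append, length_eterm, length_eterm,
      length_encT L' h2', List.length_map, List.length_replicate]
    ring
  have hle : ((Nat.bits s).length + 1) + (n + 1) + L'.length * (n + 1) ≤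
      (N + 1) * (N + 1) + 2 * (N + 1) := by
    have e1 : L'.length * (n + 1) ≤ (N + 1) * (N + 1) := Nat.mul_le_mul (by omega) (by omega)
    omega
  refine ⟨encT T ++ (List.replicate ((N + 1) * (N + 1) + 2 * (N + 1) -
    (((Nat.bits s).length + 1) + (n + 1) + L'.length * (n + 1))) [false, true]).flatten, ?_, ?_⟩
  · rw [List.length_append, hlen]
    have e2 : ∀ m : ℕ, ((List.replicate m [false, true]).flatten).length = 2 * m := by
      intro m
      simp [mul_comm]
    rw [e2]
    omega
  · rw [dec_encT]
    have f1 : vbits T = Nat.bits s := by
      simp only [vbits, T, List.getElem?_cons_zero, Option.getD_some, List.filterMap_map]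
      exact List.filterMap_some
    have f2 : vn (word (tt, s)) T = n := by
      have : n < Nat.size N := Nat.lt_size.2 (by omega)
      simp only [vn, T, List.getElem?_cons_succ, List.getElem?_cons_zero, Option.getD_some,
        List.length_replicate]
      rw [← hN]
      omega
    have f3 : T.drop 2 = L' := rfl
    simp only [ver, f1, f2, f3, bval_bits, Bool.and_eq_true, decide_eq_true_eq, List.all_eq_true]
    refine ⟨⟨?_, h2'⟩, h1'⟩
    rw [word_eq, h3']

/-! ## Polynomial time -/

section

variable {α : Type*} [TEnc α]

theorem polyF_consHead {s : α → Option Bool} {l : α → List (List (Option Bool))} (hs : PolyF s)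
    (hl : PolyF l) : PolyF (fun x => consHead (s x) (l x)) := by
  refine PolyF.listCases (g := fun _ => []) (h := fun p => (s p.1 :: p.2.1) :: p.2.2) hl
    PolyF.nil (((hs.comp PolyF.fst').cons PolyF.snd'.fst).cons PolyF.snd'.snd) ?_ ?_
  · intro x hx
    rw [hx]
    rfl
  · intro x b t hx
    rw [hx]
    rfl

theorem polyF_proc {b c : α → Bool} {l : α → List (List (Option Bool))} (hb : PolyF b) (hc : PolyF c)
    (hl : PolyF l) : PolyF (fun x => proc (b x) (c x) (l x)) :=
  PolyF.iteBool hb (polyF_consHead hc.some hl)
    (PolyF.iteBool hc (polyF_consHead (PolyF.const none) hl) (PolyF.nil.cons hl))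

theorem polyF_dec {w : α → List Bool} (hw : PolyF w) : PolyF (fun x => dec (w x)) := by
  have h1 : PolyF (fun p : α × Bool × (Option Bool × List (List (Option Bool))) => dstep p.2.1 p.2.2) := by
    refine PolyF.optionElim (o := fun p : α × Bool × (Option Bool × List (List (Option Bool))) => p.2.2.1)
      (g := fun p => (some p.2.1, p.2.2.2)) (h := fun p c => (none, proc p.2.1 c p.2.2.2))
      PolyF.snd'.snd.fst (PolyF.snd'.fst.some.pair PolyF.snd'.snd.snd) ?_
    exact (PolyF.const none).pair (polyF_proc (PolyF.fst'.snd.fst) PolyF.snd' PolyF.fst'.snd.snd.snd)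
  refine (PolyF.foldr_add (i := fun _ => ((none, []) : Option Bool × List (List (Option Bool))))
    (f := fun _ b st => dstep b st) hw (PolyF.const _) h1 (fun _ => 5) (PBd.const 5)
    (fun x st b _ => ?_)).snd
  obtain ⟨o, acc⟩ := st
  have hb := sz_bool_le b
  rcases o with _ | c
  · simp only [dstep, Option.elim, sz_prod, sz_some, sz_none]
    omega
  · have hc := sz_bool_le c
    have h2 : ∀ s : Option Bool, sz s ≤ 2 → sz (consHead s acc) ≤ sz acc + 3 := by
      intro s hs
      rcases acc with _ | ⟨t, r⟩
      · simp [consHead]
      · simp only [consHead, sz_cons]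
        omega
    have h3 : sz (proc b c acc) ≤ sz acc + 3 := by
      unfold proc
      split_ifs
      · exact h2 _ (by rw [sz_some]; omega)
      · exact h2 _ (by rw [sz_none]; omega)
      · rw [sz_cons, sz_nil]
        omega
    simp only [dstep, Option.elim, sz_prod, sz_some, sz_none]
    omega

theorem termVal_eq : ∀ (t : List (Option Bool)) (x : List Bool), termVal t x =
    (decide (t.length = x.length) && (t.zip x).all fun p => p.1.elim true fun b => b == p.2)
  | [], [] => by simp [termVal]
  | none :: t, c :: x => by rw [termVal, termVal_eq t x]; simp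
  | some b :: t, c :: x => by
    rw [termVal, termVal_eq t x]
    simp only [List.length_cons, List.zip_cons_cons, List.all_cons, Option.elim, Nat.add_right_cancel_iff]
    cases (b == c) <;> cases decide (t.length = x.length) <;> simp
  | [], _ :: _ => by simp [termVal]
  | none :: _, [] => by simp [termVal]
  | some _ :: _, [] => by simp [termVal]

theorem polyF_termVal {t : α → List (Option Bool)} {y : α → List Bool} (ht : PolyF t) (hy : PolyF y) :
    PolyF (fun x => termVal (t x) (y x)) := by
  have h1 : PolyF (fun x => ((t x).zip (y x)).all fun p => p.1.elim true fun b => b == p.2) := by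
    refine PolyF.all (p := fun _ (p : Option Bool × Bool) => p.1.elim true fun b => b == p.2)
      (PolyF.zip ht hy) ?_
    exact PolyF.optionElim (o := fun q : α × (Option Bool × Bool) => q.2.1) (g := fun _ => true)
      (h := fun q b => b == q.2.2) PolyF.snd'.fst (PolyF.const true)
      (PolyF.beq PolyF.snd' PolyF.fst'.snd.snd)
  exact ((PolyF.natEq ht.length hy.length).and h1).congr fun x => (termVal_eq _ _).symm

theorem xorVal_eq (L : List (List (Option Bool))) (y : List Bool) :
    xorVal L y = decide ((L.countP fun t => termVal t y) % 2 = 1) := by
  apply chi_inj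
  rw [chi_mod, chi_xorVal]
  induction L with
  | nil => simp
  | cons t L ih =>
    rw [List.map_cons, List.sum_cons, ih, List.countP_cons]
    by_cases h : termVal t y = true
    · rw [if_pos h, h]
      simp [chi, add_comm]
    · rw [if_neg h, Bool.not_eq_true] at *
      simp [chi, h]

theorem polyF_xorVal {L : α → List (List (Option Bool))} {y : α → List Bool} (hL : PolyF L) (hy : PolyF y) :
    PolyF (fun x => xorVal (L x) (y x)) := by
  have h1 : PolyF (fun x => (L x).countP fun t => termVal t (y x)) :=
    PolyF.countP (p := fun x t => termVal t (y x)) hL (polyF_termVal PolyF.snd' (hy.comp PolyF.fst'))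
  exact (polyF_odd h1).congr fun x => (xorVal_eq _ _).symm

theorem polyF_table {n : α → ℕ} {L : α → List (List (Option Bool))} (hn : PolyF n)
    (hb : PBd fun x => 2 ^ n x) (hL : PolyF L) : PolyF (fun x => table (n x) (L x)) :=
  PolyF.map (h := fun x y => xorVal (L x) y) (polyF_points hn hb)
    (polyF_xorVal (hL.comp PolyF.fst') PolyF.snd')

theorem polyF_vbits {T : α → List (List (Option Bool))} (hT : PolyF T) : PolyF (fun x => vbits (T x)) :=
  PolyF.filterMap (h := fun _ (o : Option Bool) => id o)
    ((PolyF.getElem? (PolyF.const 0) hT).getD (PolyF.const [])) PolyF.snd'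

theorem polyF_vn {x : α → List Bool} {T : α → List (List (Option Bool))} (hx : PolyF x) (hT : PolyF T) :
    PolyF (fun a => vn (x a) (T a)) :=
  PolyF.natMin ((PolyF.getElem? (PolyF.const 1) hT).getD (PolyF.const [])).length (polyF_size hx.length)

theorem pbd_vn {x : α → List Bool} {T : α → List (List (Option Bool))} (hx : PolyF x) :
    PBd (fun a => 2 ^ vn (x a) (T a)) :=
  (((PBd.const 2).mul hx.length.pbdNat).add (PBd.const 1)).of_le fun a =>
    (Nat.pow_le_pow_right (by norm_num) (min_le_right _ _)).trans (pow_size_le _)

theorem polyF_natWord' {n : α → NBin} (hn : PolyF n) : PolyF (fun x => natWord (n x)) := by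
  have h := (hn.toBin.bits).flatMap (h := fun _ (b : Bool) => [true, b])
    ((PolyF.const true).cons (PolyF.snd'.cons PolyF.nil))
  exact h.append (PolyF.const [false])

theorem polyF_ver {x : α → List Bool} {T : α → List (List (Option Bool))} (hx : PolyF x) (hT : PolyF T) :
    PolyF (fun a => ver (x a) (T a)) := by
  have hs : PolyF (α := α) (β := NBin) (fun a => bval (vbits (T a))) := ((polyF_vbits hT).ofBits).ofBin
  have hd : PolyF (fun a => (T a).drop 2) := PolyF.drop (PolyF.const 2) hT
  have hn := polyF_vn hx hT
  have h1 : PolyF (fun a => decide (natWord (bval (vbits (T a))) ++ table (vn (x a) (T a)) ((T a).drop 2) =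
      x a)) :=
    PolyF.eq ((polyF_natWord' hs).append (polyF_table hn (pbd_vn hx) hd)) hx
  have h2 : PolyF (fun a => ((T a).drop 2).all fun t => decide (t.length = vn (x a) (T a))) :=
    PolyF.all (p := fun a t => decide (t.length = vn (x a) (T a))) hd
      (PolyF.natEq PolyF.snd'.length (hn.comp PolyF.fst'))
  have h3 : PolyF (fun a => decide (((T a).drop 2).length ≤ bval (vbits (T a)))) :=
    PolyF.nbLe hd.length.nbOfNat hs
  exact (h1.and h2).and h3

/-- first component of a pair -/
def unX (y : List (Option Bool)) : List Bool := (y.takeWhile Option.isSome).filterMap id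

/-- second component of a pair -/
def unW (y : List (Option Bool)) : List Bool := (y.dropWhile Option.isSome).filterMap id

theorem unX_pair (p : List Bool × List Bool) : unX (pairWord p) = p.1 := by
  obtain ⟨x, w⟩ := p
  unfold unX pairWord
  simp only
  rw [List.takeWhile_append_of_pos (by intro a ha; obtain ⟨b, _, rfl⟩ := List.mem_map.1 ha; rfl)]
  simp

theorem unW_pair (p : List Bool × List Bool) : unW (pairWord p) = p.2 := by
  obtain ⟨x, w⟩ := p
  unfold unW pairWord
  simp only
  rw [List.dropWhile_append_of_pos (by intro a ha; obtain ⟨b, _, rfl⟩ := List.mem_map.1 ha; rfl)]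
  simp

theorem polyF_unX : PolyF unX :=
  PolyF.filterMap (h := fun _ (o : Option Bool) => id o)
    (PolyF.takeWhile (p := fun _ (o : Option Bool) => o.isSome) PolyF.id PolyF.snd'.isSome) PolyF.snd'

theorem polyF_unW : PolyF unW :=
  PolyF.filterMap (h := fun _ (o : Option Bool) => id o)
    (PolyF.dropWhile (p := fun _ (o : Option Bool) => o.isSome) PolyF.id PolyF.snd'.isSome) PolyF.snd'

end

/-- **ESOP minimisation from the truth table is in NP.** -/
theorem esop_np : InNP ESOPLanguage := by
  refine ⟨2 * ((Polynomial.X + 1) * (Polynomial.X + 1) + 2 * (Polynomial.X + 1)),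
    fun p => ver p.1 (dec p.2), ?_, fun x => ⟨fun h => ?_, ?_⟩⟩
  · have h : PolyF (fun y : List (Option Bool) => ver (unX y) (dec (unW y))) :=
      polyF_ver polyF_unX (polyF_dec polyF_unW)
    exact h.tm2_bool fun p => by rw [unX_pair, unW_pair]
  · obtain ⟨w, h1, h2⟩ := ver_complete h
    refine ⟨w, ?_, h2⟩
    rw [h1]
    simp
  · rintro ⟨w, -, h⟩
    exact ver_sound h

/-- **ESOP minimisation from the truth table is NP-complete.** -/
theorem esop_complete : NPComplete ESOPLanguage := ⟨esop_np, esop_hard⟩

end Pool.Agent.Lib.EsopHard
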