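import Pool.Agent.Lib.MP_a221bc_esop.Red
import Pool.Agent.Lib.PolyTime.NatBin
import Pool.Agent.Lib.PolyTime.Bridge
import Pool.Agent.Lib.CookLevin.Final

/-!
# ESOP minimisation: the reduction is computable in polynomial time
-/

set_option linter.unusedSimpArgs false

namespace Pool.Agent.Lib.EsopHard

open Turing Pool.Agent.Lib.PolyTime Pool.Agent.Lib.CookLevin

variable {α : Type*} [TEnc α]

/-! ## Numbers -/

theorem polyF_odd {n : α → ℕ} (hn : PolyF n) : PolyF (fun x => decide (n x % 2 = 1)) :=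
  hn.natEven.not.congr fun x => by
    rcases Nat.mod_two_eq_zero_or_one (n x) with h | h <;> simp [h]

theorem polyF_size {n : α → ℕ} (hn : PolyF n) : PolyF (fun x => Nat.size (n x)) :=
  (hn.binOfNat.bits.length).congr fun x => Nat.size_eq_bits_len (n x)

theorem pow_size_le (n : ℕ) : 2 ^ Nat.size n ≤ 2 * n + 1 := by
  rcases Nat.eq_zero_or_pos n with h | h
  · subst h
    simp
  · have h1 : 0 < Nat.size n := Nat.size_pos.2 h
    have h2 : ¬ Nat.size n ≤ Nat.size n - 1 := by omega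
    rw [Nat.size_le, not_lt] at h2
    obtain ⟨k, hk⟩ := Nat.exists_eq_succ_of_ne_zero h1.ne'
    rw [hk] at h2 ⊢
    simp only [Nat.succ_eq_add_one, Nat.add_sub_cancel] at h2
    rw [Nat.succ_eq_add_one, pow_succ]
    omega

theorem iterate_double (k c : ℕ) : (fun t : ℕ => t + t)^[k] c = 2 ^ k * c := by
  induction k with
  | zero => simp
  | succ k ih => rw [Function.iterate_succ_apply', ih, pow_succ]; ring

theorem polyF_pow {m : α → ℕ} (hm : PolyF m) (hb : PBd fun x => 2 ^ m x) : PolyF (fun x => 2 ^ m x) := by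
  obtain ⟨B, hB⟩ := hb
  refine (PolyF.natIterate (f := fun _ t => t + t) (g := fun _ => 1) hm
    (PolyF.snd'.natAdd PolyF.snd') (PolyF.const 1) ⟨B, fun x k hk => ?_⟩).congr fun x => ?_
  · rw [iterate_double, mul_one, sz_nat]
    exact (Nat.pow_le_pow_right (by norm_num) hk).trans (hB x)
  · rw [iterate_double, mul_one]

theorem iterate_half_le (k t : ℕ) : (fun s : ℕ => s / 2)^[k] t ≤ t := by
  induction k with
  | zero => exact le_rfl
  | succ k ih =>
    rw [Function.iterate_succ_apply']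
    exact (Nat.div_le_self _ _).trans ih

theorem polyF_halves {k t : α → ℕ} (hk : PolyF k) (ht : PolyF t) :
    PolyF (fun x => (fun s : ℕ => s / 2)^[k x] (t x)) := by
  obtain ⟨B, hB⟩ := ht.pbdNat
  refine PolyF.natIterate (f := fun _ t => t / 2) hk (PolyF.snd'.natDiv (PolyF.const 2)) ht
    ⟨B, fun x k _ => ?_⟩
  rw [sz_nat]
  exact (iterate_half_le k (t x)).trans (hB x)

/-! ## Gray codes -/

theorem gray_eq (k t : ℕ) : gray (k + 1) t =
    ((List.range k).map fun b => (decide ((fun s : ℕ => s / 2)^[b] t % 2 = 1) ^^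
      decide ((fun s : ℕ => s / 2)^[b + 1] t % 2 = 1))) ++
      [decide ((fun s : ℕ => s / 2)^[k] t % 2 = 1)] := by
  induction k generalizing t with
  | zero => rfl
  | succ k ih =>
    rw [gray, ih, List.range_succ_eq_map, List.map_cons, List.map_map, List.cons_append]
    rfl

theorem polyF_gray {k t : α → ℕ} (hk : PolyF k) (ht : PolyF t) : PolyF (fun x => gray (k x + 1) (t x)) := by
  have h1 : PolyF (fun x => (List.range (k x)).map fun b =>
      (decide ((fun s : ℕ => s / 2)^[b] (t x) % 2 = 1) ^^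
      decide ((fun s : ℕ => s / 2)^[b + 1] (t x) % 2 = 1))) := by
    refine PolyF.map (h := fun x b => (decide ((fun s : ℕ => s / 2)^[b] (t x) % 2 = 1) ^^
      decide ((fun s : ℕ => s / 2)^[b + 1] (t x) % 2 = 1))) hk.range ?_
    exact (polyF_odd (polyF_halves PolyF.snd' (ht.comp PolyF.fst'))).xor
      (polyF_odd (polyF_halves PolyF.snd'.succ (ht.comp PolyF.fst')))
  exact (h1.append (polyF_odd (polyF_halves hk ht)).singleton).congr fun x => (gray_eq _ _).symm

theorem polyF_ca {i j s t : α → ℕ} {b : α → Bool} (hi : PolyF i) (hj : PolyF j) (hs : PolyF s) (ht : PolyF t)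
    (hb : PolyF b) : PolyF (fun x => ca (i x) (j x) (s x) (t x) (b x)) :=
  (polyF_gray hi.succ hs).append ((polyF_gray hj.succ ht).append hb.singleton)

theorem polyF_cr {i j s t : α → ℕ} {l : α → List Bool} (hi : PolyF i) (hj : PolyF j) (hs : PolyF s)
    (ht : PolyF t) (hl : PolyF l) : PolyF (fun x => cr (i x) (j x) (s x) (t x) (l x)) :=
  (polyF_gray hi.succ hs).append ((polyF_gray hj ht).append hl)

theorem polyF_el {i j s t s1 t1 s2 t2 : α → ℕ} (b : Bool) (l1 l2 : List Bool) (hi : PolyF i) (hj : PolyF j)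
    (hs : PolyF s) (ht : PolyF t) (hs1 : PolyF s1) (ht1 : PolyF t1) (hs2 : PolyF s2) (ht2 : PolyF t2) :
    PolyF (fun x => el (i x) (j x) (s x) (t x) b (s1 x) (t1 x) l1 (s2 x) (t2 x) l2) :=
  (polyF_ca hi hj hs ht (PolyF.const b)).append ((polyF_cr hi hj hs1 ht1 (PolyF.const l1)).append
    (polyF_cr hi hj hs2 ht2 (PolyF.const l2)))

theorem polyF_cellN {i j v C p w : α → ℕ} {ds inc act : α → Bool} (hi : PolyF i) (hj : PolyF j)
    (hv : PolyF v) (hC : PolyF C) (hp : PolyF p) (hw : PolyF w) (hds : PolyF ds) (hinc : PolyF inc)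
    (hact : PolyF act) :
    PolyF (fun x => cellN (i x) (j x) (v x) (C x) (p x) (w x) (ds x) (inc x) (act x)) := by
  have v0 : PolyF (fun x => 2 * v x) := (PolyF.const 2).natMul hv
  have v1 : PolyF (fun x => 2 * v x + 1) := v0.succ
  have c0 : PolyF (fun x => 2 * C x) := (PolyF.const 2).natMul hC
  have c1 : PolyF (fun x => 2 * C x + 1) := c0.succ
  have p1 : PolyF (fun x => 2 * p x + 1) := ((PolyF.const 2).natMul hp).succ
  have nl : PolyF (fun _ : α => ([] : List (List Bool))) := PolyF.nil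
  unfold cellN
  refine PolyF.append ?_ (PolyF.append (PolyF.iteBool hds ?_ nl) (PolyF.append ?_
    (PolyF.append (PolyF.iteBool hinc ?_ nl) (PolyF.ite hv.natIsZero (PolyF.append ?_
      (PolyF.iteBool hact ?_ nl)) ?_))))
  · exact (polyF_el _ _ _ hi hj v0 c1 v0 hC v0 hC).cons
      ((polyF_el _ _ _ hi hj v0 c1 v0 hC v0 hC).cons
      ((polyF_el _ _ _ hi hj v1 c1 v0 hC v0 hC).cons
      ((polyF_el _ _ _ hi hj v1 c1 v0 hC v1 hC).cons
      ((polyF_el _ _ _ hi hj v1 c1 v1 hC v1 hC).cons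
      ((polyF_el _ _ _ hi hj v0 c0 v0 hw v0 hw).cons
      ((polyF_el _ _ _ hi hj v0 c0 v0 hC v0 hC).cons
      ((polyF_el _ _ _ hi hj v0 c0 v1 hw v0 hw).cons
      ((polyF_el _ _ _ hi hj v0 c0 v1 hw v0 hC).cons
      ((polyF_el _ _ _ hi hj v0 c0 v0 hw v0 hC).cons
      ((polyF_el _ _ _ hi hj v0 c0 v0 hC v0 hC).cons nl))))))))))
  · exact (polyF_el _ _ _ hi hj v0 c0 v0 hC v0 hC).cons nl
  · exact (polyF_el _ _ _ hi hj v0 c0 v0 hC v0 hC).cons
      ((polyF_el _ _ _ hi hj v0 c1 v0 hC v0 hC).cons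
      ((polyF_el _ _ _ hi hj v0 c1 v0 hC v1 hC).cons nl))
  · exact (polyF_el _ _ _ hi hj v0 c1 v0 hC v0 hC).cons
      ((polyF_el _ _ _ hi hj v0 c1 v0 hC v1 hC).cons nl)
  · exact (polyF_el _ _ _ hi hj v0 c1 v0 hC v0 hC).cons
      ((polyF_el _ _ _ hi hj v0 c1 v0 hC p1 hC).cons nl)
  · exact (polyF_el _ _ _ hi hj v0 c1 v0 hC v0 hC).cons
      ((polyF_el _ _ _ hi hj v0 c1 p1 hC p1 hC).cons nl)
  · exact (polyF_el _ _ _ hi hj v0 c1 v0 hC v0 hC).cons
      ((polyF_el _ _ _ hi hj v0 c1 v0 hC v0 hC).cons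
      ((polyF_el _ _ _ hi hj v0 c1 v0 hC p1 hC).cons
      ((polyF_el _ _ _ hi hj v0 c1 v0 hC p1 hC).cons
      ((polyF_el _ _ _ hi hj v0 c1 p1 hC p1 hC).cons nl))))

/-! ## The formula -/

theorem polyF_cl {φ : α → CNF} {C : α → ℕ} (hφ : PolyF φ) (hC : PolyF C) :
    PolyF (fun x => cl (φ x) (C x)) :=
  (PolyF.getElem? hC hφ.snd).getD (PolyF.const [])

theorem polyF_taut {c : α → List (ℕ × Bool)} (hc : PolyF c) : PolyF (fun x => taut (c x)) := by
  refine PolyF.any (p := fun x (l : ℕ × Bool) => (c x).contains (l.1, !l.2)) hc ?_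
  exact PolyF.contains (hc.comp PolyF.fst') (PolyF.snd'.fst.pair PolyF.snd'.snd.not)

theorem polyF_sgN {φ : α → CNF} {v C : α → ℕ} (hφ : PolyF φ) (hv : PolyF v) (hC : PolyF C) :
    PolyF (fun x => sgN (φ x) (v x) (C x)) :=
  PolyF.contains (polyF_cl hφ hC) (hv.pred.pair (PolyF.const true))

theorem polyF_incN {φ : α → CNF} {v C : α → ℕ} (hφ : PolyF φ) (hv : PolyF v) (hC : PolyF C) :
    PolyF (fun x => incN (φ x) (v x) (C x)) :=
  hv.natIsZero.not.and ((PolyF.contains (polyF_cl hφ hC) (hv.pred.pair (PolyF.const true))).or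
    (PolyF.contains (polyF_cl hφ hC) (hv.pred.pair (PolyF.const false))))

theorem polyF_actN {φ : α → CNF} {C : α → ℕ} (hφ : PolyF φ) (hC : PolyF C) :
    PolyF (fun x => actN (φ x) (C x)) :=
  (PolyF.natLt hC hφ.snd.length).and (polyF_taut (polyF_cl hφ hC)).not

theorem polyF_ki {φ : α → CNF} (hφ : PolyF φ) : PolyF (fun x => ki (φ x)) := polyF_size hφ.fst

theorem polyF_kj {φ : α → CNF} (hφ : PolyF φ) : PolyF (fun x => kj (φ x)) := polyF_size hφ.snd.length

theorem pbd_ki {φ : α → CNF} (hφ : PolyF φ) : PBd (fun x => 2 ^ ki (φ x)) :=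
  (((PBd.const 2).mul hφ.fst.pbdNat).add (PBd.const 1)).of_le fun _ => pow_size_le _

theorem pbd_kj {φ : α → CNF} (hφ : PolyF φ) : PBd (fun x => 2 ^ kj (φ x)) :=
  (((PBd.const 2).mul hφ.snd.length.pbdNat).add (PBd.const 1)).of_le fun _ => pow_size_le _

theorem polyF_V {φ : α → CNF} (hφ : PolyF φ) : PolyF (fun x => 2 ^ (ki (φ x) + 1)) :=
  polyF_pow (polyF_ki hφ).succ (((pbd_ki hφ).mul (PBd.const 2)).of_le fun _ => (pow_succ _ _).le)

theorem polyF_W {φ : α → CNF} (hφ : PolyF φ) : PolyF (fun x => 2 ^ (kj (φ x) + 1)) :=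
  polyF_pow (polyF_kj hφ).succ (((pbd_kj hφ).mul (PBd.const 2)).of_le fun _ => (pow_succ _ _).le)

theorem polyF_prd {n v : α → ℕ} (hn : PolyF n) (hv : PolyF v) : PolyF (fun x => (v x + (n x - 1)) % n x) :=
  (hv.natAdd hn.pred).natMod hn

theorem polyF_codes {φ : α → CNF} (hφ : PolyF φ) : PolyF (fun x => codes (φ x)) := by
  have h0 : PolyF (fun p : α × ℕ => φ p.1) := hφ.comp PolyF.fst'
  have h1 : PolyF (fun p : (α × ℕ) × ℕ => φ p.1.1) := h0.comp PolyF.fst'
  have hv : PolyF (fun p : (α × ℕ) × ℕ => p.1.2) := PolyF.fst'.snd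
  have hC : PolyF (fun p : (α × ℕ) × ℕ => p.2) := PolyF.snd'
  have hp := polyF_prd (polyF_V h1) hv
  have hw := polyF_prd (polyF_W h1) hC
  refine PolyF.flatMap (h := fun x v => (List.range (2 ^ (kj (φ x) + 1))).flatMap fun C =>
    cellN (ki (φ x)) (kj (φ x)) v C ((v + (2 ^ (ki (φ x) + 1) - 1)) % 2 ^ (ki (φ x) + 1))
      ((C + (2 ^ (kj (φ x) + 1) - 1)) % 2 ^ (kj (φ x) + 1))
      (xor (sgN (φ x) v ((C + (2 ^ (kj (φ x) + 1) - 1)) % 2 ^ (kj (φ x) + 1))) (sgN (φ x) v C))
      (incN (φ x) v C) (actN (φ x) C)) (polyF_V hφ).range ?_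
  refine PolyF.flatMap (h := fun (p : α × ℕ) C =>
    cellN (ki (φ p.1)) (kj (φ p.1)) p.2 C ((p.2 + (2 ^ (ki (φ p.1) + 1) - 1)) % 2 ^ (ki (φ p.1) + 1))
      ((C + (2 ^ (kj (φ p.1) + 1) - 1)) % 2 ^ (kj (φ p.1) + 1))
      (xor (sgN (φ p.1) p.2 ((C + (2 ^ (kj (φ p.1) + 1) - 1)) % 2 ^ (kj (φ p.1) + 1))) (sgN (φ p.1) p.2 C))
      (incN (φ p.1) p.2 C) (actN (φ p.1) C)) (polyF_W h0).range ?_
  exact polyF_cellN (polyF_ki h1) (polyF_kj h1) hv hC hp hw
    ((polyF_sgN h1 hv hw).xor (polyF_sgN h1 hv hC)) (polyF_incN h1 hv hC) (polyF_actN h1 hC)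

/-! ## The points -/

/-- one more coordinate -/
def pstep (l : List (List Bool)) : List (List Bool) := l.map (List.cons false) ++ l.map (List.cons true)

theorem points_eq (n : ℕ) : points n = pstep^[n] [[]] := by
  induction n with
  | zero => rfl
  | succ n ih => rw [Function.iterate_succ_apply', ← ih]; rfl

theorem sz_points (n : ℕ) : sz (points n) ≤ 2 ^ n * (1 + 2 * n) := by
  have h : ∀ l ∈ points n, sz l ≤ 2 * n := by
    intro l hl
    rw [← mem_points.1 hl]
    exact sz_bits_le l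
  refine (sz_le_of_forall h).trans (le_of_eq ?_)
  rw [length_points]
  ring

theorem polyF_points {m : α → ℕ} (hm : PolyF m) (hb : PBd fun x => 2 ^ m x) : PolyF (fun x => points (m x)) := by
  have h1 : PBd fun x => 2 ^ m x * (1 + 2 * m x) := hb.mul ((PBd.const 1).add ((PBd.const 2).mul hm.pbdNat))
  obtain ⟨B, hB⟩ := h1
  refine (PolyF.natIterate (f := fun _ l => pstep l) (g := fun _ => [[]]) hm ?_ (PolyF.const _)
    ⟨B, fun x k hk => ?_⟩).congr fun x => (points_eq _).symm
  · exact (PolyF.map (h := fun _ l => false :: l) PolyF.snd' ((PolyF.const false).cons PolyF.snd')).append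
      (PolyF.map (h := fun _ l => true :: l) PolyF.snd' ((PolyF.const true).cons PolyF.snd'))
  · rw [show (fun l => pstep l)^[k] [[]] = points k from (points_eq k).symm]
    refine (sz_points k).trans (le_trans ?_ (hB x))
    exact Nat.mul_le_mul (Nat.pow_le_pow_right (by norm_num) hk) (by omega)

theorem polyF_tab {φ : α → CNF} (hφ : PolyF φ) : PolyF (fun x => tab (φ x)) := by
  have h1 : PolyF (fun x => 3 * ki (φ x) + 3 * kj (φ x) + 16) :=
    (((PolyF.const 3).natMul (polyF_ki hφ)).natAdd ((PolyF.const 3).natMul (polyF_kj hφ))).natAdd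
      (PolyF.const 16)
  have h2 : PBd (fun x => 2 ^ (3 * ki (φ x) + 3 * kj (φ x) + 16)) :=
    (((((pbd_ki hφ).pow 3).mul ((pbd_kj hφ).pow 3)).mul (PBd.const (2 ^ 16))).of_le fun x => by
      rw [pow_add, pow_add, mul_comm 3, mul_comm 3, pow_mul, pow_mul])
  refine PolyF.map (h := fun x y => decide ((codes (φ x)).count y % 2 = 1)) (polyF_points h1 h2) ?_
  exact polyF_odd (PolyF.count PolyF.snd' (polyF_codes (hφ.comp PolyF.fst')))

theorem polyF_sizeN {φ : α → CNF} (hφ : PolyF φ) : PolyF (fun x => size (φ x)) :=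
  ((PolyF.const 11).natMul (polyF_V hφ)).natMul (polyF_W hφ)

theorem polyF_natWord {n : α → ℕ} (hn : PolyF n) : PolyF (fun x => natWord (n x)) := by
  have h := (hn.binOfNat.bits).flatMap (h := fun _ (b : Bool) => [true, b])
    ((PolyF.const true).cons (PolyF.snd'.cons PolyF.nil))
  exact h.append (PolyF.const [false])

theorem word_eq (l : List Bool) (n : ℕ) : word (l, n) = natWord n ++ l := rfl

theorem polyF_red {φ : α → CNF} (hφ : PolyF φ) : PolyF (fun x => word (tab (φ x), size (φ x))) := by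
  have h : PolyF (fun x => natWord (size (φ x)) ++ tab (φ x)) :=
    (polyF_natWord (polyF_sizeN hφ)).append (polyF_tab hφ)
  exact h.congr fun x => (word_eq _ _).symm

/-! ## Hardness -/

theorem prefix_inj : ∀ l l' r r' : List Bool,
    l.flatMap (fun b => [true, b]) ++ false :: r = l'.flatMap (fun b => [true, b]) ++ false :: r' →
      l = l' ∧ r = r'
  | [], [], r, r', h => by simpa using h
  | [], b :: l', r, r', h => by simp at h
  | b :: l, [], r, r', h => by simp at h
  | b :: l, c :: l', r, r', h => by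
    simp only [List.flatMap_cons, List.cons_append, List.nil_append, List.cons.injEq, true_and] at h
    obtain ⟨h1, h2⟩ := h
    obtain ⟨h3, h4⟩ := prefix_inj l l' r r' h2
    exact ⟨by rw [h1, h3], h4⟩

theorem word_injective : Function.Injective word := by
  rintro ⟨l, n⟩ ⟨l', n'⟩ h
  rw [word_eq, word_eq, natWord, natWord, List.append_assoc, List.append_assoc] at h
  obtain ⟨h1, h2⟩ := prefix_inj _ _ l l' h
  rw [bits_inj n n' h1, h2]

/-- **ESOP minimisation from the truth table is NP-hard.** -/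
theorem esop_hard (L' : Set (List Bool)) (hL : InNP L') : KarpReducible L' ESOPLanguage := by
  obtain ⟨p, V, hV, hx⟩ := hL
  have hS : SharpP fun x => Nat.card {w : List Bool // w.length = p.eval x.length ∧
      V (x, w) = true} := ⟨p, V, hV, fun _ => rfl⟩
  obtain ⟨g, hg, hwf, hc⟩ := cook_levin hS
  refine ⟨fun x => word (tab (g x), size (g x)), ?_, fun x => ?_⟩
  · exact (polyF_red hg).tm2 fun _ => rfl
  · have h1 : word (tab (g x), size (g x)) ∈ ESOPLanguage ↔ (tab (g x), size (g x)) ∈ ESOP := by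
      constructor
      · rintro ⟨q, hq, e⟩
        rwa [← word_injective e]
      · intro h
        exact ⟨_, h, rfl⟩
    rw [h1, red_iff (g x) (hwf x), ← count_pos (g x) (hwf x), ← hc x, hx]
    have : Finite {w : List Bool // w.length = p.eval x.length ∧ V (x, w) = true} :=
      Set.Finite.to_subtype ((List.finite_length_eq Bool (p.eval x.length)).subset
        fun w hw => hw.1)
    rw [Finite.card_pos_iff]
    exact nonempty_subtype.symm

end Pool.Agent.Lib.EsopHard
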