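import Pool.Agent.Lib.MP_a221bc_esop.Core
import Pool.Agent.Lib.CookLevin.Sat

/-!
# ESOP minimisation: the reduction
-/

set_option linter.unusedSimpArgs false

namespace Pool.Agent.Lib.EsopHard

open Pool.Agent.Lib.CookLevin

/-! ## The cells, on numbers -/

/-- code of a cell, on numbers -/
def el (i j x y : ℕ) (b : Bool) (x1 y1 : ℕ) (l1 : List Bool) (x2 y2 : ℕ) (l2 : List Bool) : List Bool :=
  ca i j x y b ++ (cr i j x1 y1 l1 ++ cr i j x2 y2 l2)

/-- the codes of the cells of the slices of `(v, C)`; `p` and `w` are the predecessors of `v` and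
`C`; flags: signs differ, incidence, activity -/
def cellN (i j v C p w : ℕ) (ds inc act : Bool) : List (List Bool) :=
  [el i j (2 * v) (2 * C + 1) false (2 * v) C [false, false, true] (2 * v) C [false, true],
    el i j (2 * v) (2 * C + 1) false (2 * v) C [false, true, true] (2 * v) C [true, true],
    el i j (2 * v + 1) (2 * C + 1) true (2 * v) C [false, false, false] (2 * v) C [false, false],
    el i j (2 * v + 1) (2 * C + 1) true (2 * v) C [false, false, false] (2 * v + 1) C [false, false],
    el i j (2 * v + 1) (2 * C + 1) true (2 * v + 1) C [false, false, false] (2 * v + 1) C [false, false],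
    el i j (2 * v) (2 * C) false (2 * v) w [false, true, true] (2 * v) w [true, true],
    el i j (2 * v) (2 * C) false (2 * v) C [false, false, true] (2 * v) C [false, true],
    el i j (2 * v) (2 * C) false (2 * v + 1) w [false, false, true] (2 * v) w [true, true],
    el i j (2 * v) (2 * C) false (2 * v + 1) w [false, false, true] (2 * v) C [true, true],
    el i j (2 * v) (2 * C) false (2 * v) w [false, false, true] (2 * v) C [true, false],
    el i j (2 * v) (2 * C) false (2 * v) C [false, false, true] (2 * v) C [true, false]] ++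
  ((if ds = true then
    [el i j (2 * v) (2 * C) false (2 * v) C [false, false, true] (2 * v) C [true, true]] else []) ++
  ([el i j (2 * v) (2 * C) true (2 * v) C [true, false, true] (2 * v) C [false, true],
    el i j (2 * v) (2 * C + 1) true (2 * v) C [false, true, false] (2 * v) C [false, true],
    el i j (2 * v) (2 * C + 1) true (2 * v) C [false, false, true] (2 * v + 1) C [false, true]] ++
  ((if inc = true then
    [el i j (2 * v) (2 * C + 1) true (2 * v) C [false, true, false] (2 * v) C [false, false],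
      el i j (2 * v) (2 * C + 1) true (2 * v) C [false, false, false] (2 * v + 1) C [false, true]]
    else []) ++
  if v = 0 then
    [el i j (2 * v) (2 * C + 1) true (2 * v) C [true, false, false] (2 * v) C [true, true],
      el i j (2 * v) (2 * C + 1) true (2 * v) C [false, true, true] (2 * p + 1) C [true, false]] ++
      (if act = true then
        [el i j (2 * v) (2 * C + 1) true (2 * v) C [false, false, false] (2 * v) C [false, false],
          el i j (2 * v) (2 * C + 1) true (2 * p + 1) C [false, false, false] (2 * p + 1) C [false, false]]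
        else [])
  else
    [el i j (2 * v) (2 * C + 1) true (2 * v) C [false, false, false] (2 * v) C [false, false],
      el i j (2 * v) (2 * C + 1) true (2 * v) C [true, false, false] (2 * v) C [false, false],
      el i j (2 * v) (2 * C + 1) true (2 * v) C [true, false, false] (2 * p + 1) C [false, false],
      el i j (2 * v) (2 * C + 1) true (2 * v) C [false, false, false] (2 * p + 1) C [true, false],
      el i j (2 * v) (2 * C + 1) true (2 * p + 1) C [false, false, false] (2 * p + 1) C [true, false]])))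

theorem cellN_eq {i j : ℕ} (inc sg : Fin (2 ^ (i + 1)) × Fin (2 ^ (j + 1)) → Bool)
    (act : Fin (2 ^ (j + 1)) → Bool) (c : Fin (2 ^ (i + 1)) × Fin (2 ^ (j + 1))) :
    cellCodes inc sg act c = cellN i j c.1.val c.2.val (c.1 - 1).val (c.2 - 1).val
      (decide (sg (c.1, c.2 - 1) ≠ sg c)) (inc c) (act c.2) := by
  obtain ⟨v, C⟩ := c
  have e : (v = 0) ↔ (v.val = 0) := by
    constructor
    · rintro rfl
      rfl
    · intro h
      exact Fin.ext h
  unfold cellCodes cellN
  by_cases h1 : sg (v, C - 1) = sg (v, C) <;> by_cases h2 : inc (v, C) = true <;>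
    by_cases h3 : act C = true <;> by_cases h4 : v.val = 0 <;>
    simp [Dat.cells, finDat, h1, h2, h3, h4, e, code3, codeA, codeR, codeK, el]

/-! ## The truth tables -/

theorem length_points (n : ℕ) : (points n).length = 2 ^ n := by
  induction n with
  | zero => rfl
  | succ n ih =>
    rw [points, List.length_append, List.length_map, List.length_map, ih, pow_succ]
    ring

theorem mem_points {n : ℕ} {x : List Bool} : x ∈ points n ↔ x.length = n := by
  induction n generalizing x with
  | zero => simp [points]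
  | succ n ih =>
    rw [points, List.mem_append, List.mem_map, List.mem_map]
    constructor
    · rintro (⟨y, hy, rfl⟩ | ⟨y, hy, rfl⟩) <;> rw [List.length_cons, ih.1 hy]
    · intro h
      rcases x with _ | ⟨b, x⟩
      · simp at h
      · have h1 : x ∈ points n := ih.2 (by simpa using h)
        cases b
        · exact Or.inl ⟨x, h1, rfl⟩
        · exact Or.inr ⟨x, h1, rfl⟩

theorem mem_esop {n s : ℕ} (f : List Bool → Bool) : ((points n).map f, s) ∈ ESOP ↔
    ∃ L : List (List (Option Bool)), L.length ≤ s ∧ (∀ t ∈ L, t.length = n) ∧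
      ∀ x : List Bool, x.length = n → xorVal L x = f x := by
  constructor
  · rintro ⟨m, L, h1, h2, h3⟩
    have h4 : n = m := by
      have := congrArg List.length h3
      simp only [table, List.length_map, length_points] at this
      exact Nat.pow_right_injective le_rfl this
    subst h4
    refine ⟨L, h1, h2, fun x hx => ?_⟩
    exact (List.map_inj_left.1 h3 x (mem_points.2 hx)).symm
  · rintro ⟨L, h1, h2, h3⟩
    refine ⟨n, L, h1, h2, ?_⟩
    exact List.map_inj_left.2 fun x hx => (h3 x (mem_points.1 hx)).symm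

theorem chi_mod (n : ℕ) : chi (decide (n % 2 = 1)) = (n : ZMod 2) := by
  rw [chi_decide]
  rcases Nat.mod_two_eq_zero_or_one n with h | h
  · rw [h, if_neg (by decide)]
    exact ((ZMod.natCast_eq_zero_iff n 2).2 (Nat.dvd_of_mod_eq_zero h)).symm
  · rw [if_pos h]
    have : ((n % 2 : ℕ) : ZMod 2) = (n : ZMod 2) := ZMod.natCast_mod n 2
    rw [← this, h]
    rfl

theorem chi_count (l : List (List Bool)) (x : List Bool) :
    chi (decide (l.count x % 2 = 1)) = (l.map fun g => if x = g then (1 : ZMod 2) else 0).sum := by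
  rw [chi_mod]
  induction l with
  | nil => simp
  | cons a l ih =>
    rw [List.count_cons, List.map_cons, List.sum_cons, ← ih]
    by_cases h : x = a
    · subst h
      simp [add_comm]
    · have h' : ¬ a = x := fun e => h e.symm
      simp [h, h']

/-! ## The reduction -/

/-- The formula is satisfiable. -/
def Sat (φ : CNF) : Prop := ∃ a : ℕ → Bool, ∀ c ∈ φ.2, ∃ l ∈ c, a l.1 = l.2

theorem count_pos (φ : CNF) (hφ : φ.Wf) : 0 < count φ ↔ Sat φ := by
  unfold count
  rw [Finite.card_pos_iff]
  constructor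
  · rintro ⟨⟨a, ha⟩⟩
    refine ⟨fun v => if h : v < φ.1 then a ⟨v, h⟩ else false, fun c hc => ?_⟩
    obtain ⟨l, hl, h, e⟩ := ha c hc
    exact ⟨l, hl, (dif_pos h).trans e⟩
  · rintro ⟨a, ha⟩
    refine ⟨⟨fun v => a v, fun c hc => ?_⟩⟩
    obtain ⟨l, hl, e⟩ := ha c hc
    exact ⟨l, hl, hφ c hc l hl, e⟩

/-- a clause -/
def cl (φ : CNF) (C : ℕ) : List (ℕ × Bool) := (φ.2[C]?).getD []

/-- a clause with a literal and its negation -/
def taut (c : List (ℕ × Bool)) : Bool := c.any fun l => c.contains (l.1, !l.2)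

/-- incidence; the variable number `u` of the formula has the number `u + 1` -/
def incN (φ : CNF) (v C : ℕ) : Bool :=
  !(decide (v = 0)) && ((cl φ C).contains (v - 1, true) || (cl φ C).contains (v - 1, false))

/-- the sign -/
def sgN (φ : CNF) (v C : ℕ) : Bool := (cl φ C).contains (v - 1, true)

/-- clauses which are no tautologies -/
def actN (φ : CNF) (C : ℕ) : Bool := decide (C < φ.2.length) && !(taut (cl φ C))

/-- the exponents -/
def ki (φ : CNF) : ℕ := Nat.size φ.1

/-- the exponents -/
def kj (φ : CNF) : ℕ := Nat.size φ.2.length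

/-- the codes of the cells -/
def codes (φ : CNF) : List (List Bool) :=
  (List.range (2 ^ (ki φ + 1))).flatMap fun v => (List.range (2 ^ (kj φ + 1))).flatMap fun C =>
    cellN (ki φ) (kj φ) v C ((v + (2 ^ (ki φ + 1) - 1)) % 2 ^ (ki φ + 1))
      ((C + (2 ^ (kj φ + 1) - 1)) % 2 ^ (kj φ + 1))
      (xor (sgN φ v ((C + (2 ^ (kj φ + 1) - 1)) % 2 ^ (kj φ + 1))) (sgN φ v C)) (incN φ v C) (actN φ C)

/-- the truth table -/
def tab (φ : CNF) : List Bool :=
  (points (3 * ki φ + 3 * kj φ + 16)).map fun x => decide ((codes φ).count x % 2 = 1)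

/-- the size -/
def size (φ : CNF) : ℕ := 11 * 2 ^ (ki φ + 1) * 2 ^ (kj φ + 1)

theorem sum_flatMap {γ : Type*} (l : List γ) (g : γ → List (List Bool)) (F : List Bool → ZMod 2) :
    ((l.flatMap g).map F).sum = (l.map fun c => ((g c).map F).sum).sum := by
  induction l with
  | nil => rfl
  | cons c l ih => rw [List.flatMap_cons, List.map_append, List.sum_append, ih, List.map_cons, List.sum_cons]

theorem pred_val {n : ℕ} [NeZero n] (h : 1 < n) (a : Fin n) : (a - 1).val = (a.val + (n - 1)) % n := by
  rw [Fin.sub_def, Fin.val_one', Nat.mod_eq_of_lt h, add_comm]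

theorem sum_range_fin {n : ℕ} (F : ℕ → ZMod 2) : ((List.range n).map F).sum = ∑ k : Fin n, F k := by
  rw [← Finset.sum_range]
  induction n with
  | zero => rfl
  | succ n ih =>
    rw [List.range_succ, List.map_append, List.sum_append, ih, Finset.sum_range_succ]
    simp

theorem one_lt_pow (k : ℕ) : 1 < 2 ^ (k + 1) :=
  Nat.one_lt_two_pow (Nat.succ_ne_zero k)

theorem fval_eq (φ : CNF) (x : List Bool) :
    chi (decide ((codes φ).count x % 2 = 1)) =
      fval (i := ki φ) (j := kj φ) (fun c => incN φ c.1 c.2) (fun c => sgN φ c.1 c.2) (fun C => actN φ C) x := by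
  rw [chi_count, codes, sum_flatMap, fval, Fintype.sum_prod_type, sum_range_fin]
  refine Finset.sum_congr rfl fun v _ => ?_
  rw [sum_flatMap, sum_range_fin]
  refine Finset.sum_congr rfl fun C _ => ?_
  rw [cellN_eq]
  simp only [pred_val (one_lt_pow _)]
  have e : ∀ a b : Bool, decide (a ≠ b) = xor a b := by decide
  rw [e]

theorem taut_iff (c : List (ℕ × Bool)) : taut c = true ↔ ∃ l ∈ c, (l.1, !l.2) ∈ c := by
  simp [taut]

/-- the satisfying assignments -/
theorem sat_iff (φ : CNF) (hφ : φ.Wf) : Sat φ ↔ ∃ x : Fin (2 ^ (ki φ + 1)) → Bool,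
    ∀ C : Fin (2 ^ (kj φ + 1)), actN φ C = true → ∃ v : Fin (2 ^ (ki φ + 1)), incN φ v C = true ∧
      x v = sgN φ v C := by
  have hV : φ.1 < 2 ^ ki φ := Nat.lt_size_self _
  have hW : φ.2.length < 2 ^ kj φ := Nat.lt_size_self _
  have hV' : 2 ^ (ki φ + 1) = 2 ^ ki φ * 2 := pow_succ _ _
  have hW' : 2 ^ (kj φ + 1) = 2 ^ kj φ * 2 := pow_succ _ _
  have hcl : ∀ C < φ.2.length, cl φ C ∈ φ.2 := by
    intro C hC
    simp [cl, List.getElem?_eq_getElem hC]
  constructor
  · rintro ⟨a, ha⟩
    refine ⟨fun v => a (v.val - 1), fun C hC => ?_⟩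
    simp only [actN, Bool.and_eq_true, decide_eq_true_eq, Bool.not_eq_true'] at hC
    obtain ⟨h1, h2⟩ := hC
    obtain ⟨⟨u, b⟩, h3, h4⟩ := ha _ (hcl _ h1)
    have h5 : u < φ.1 := hφ _ (hcl _ h1) _ h3
    have h6 : u + 1 < 2 ^ (ki φ + 1) := by omega
    refine ⟨⟨u + 1, h6⟩, ?_, ?_⟩
    · simp only [incN, Nat.add_sub_cancel, Bool.and_eq_true, Bool.not_eq_true', decide_eq_false_iff_not,
        Bool.or_eq_true, List.contains_iff_mem]
      refine ⟨Nat.succ_ne_zero u, ?_⟩
      cases b
      · exact Or.inr h3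
      · exact Or.inl h3
    · show a (u + 1 - 1) = sgN φ (u + 1) C
      rw [Nat.add_sub_cancel]
      unfold sgN
      rw [Nat.add_sub_cancel]
      have h7 : ¬ ∃ l ∈ cl φ C, (l.1, !l.2) ∈ cl φ C := by
        rw [← taut_iff, h2]
        decide
      have h8 : a u = b := h4
      rw [h8]
      cases b
      · symm
        rw [Bool.eq_false_iff]
        intro h9
        exact h7 ⟨(u, false), h3, by simpa using h9⟩
      · symm
        simpa using h3
  · rintro ⟨x, hx⟩
    refine ⟨fun u => if h : u + 1 < 2 ^ (ki φ + 1) then x ⟨u + 1, h⟩ else false, fun c hc => ?_⟩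
    obtain ⟨C, hC, rfl⟩ := List.mem_iff_getElem.1 hc
    have h0 : cl φ C = φ.2[C] := by simp [cl, List.getElem?_eq_getElem hC]
    rw [← h0]
    by_cases h1 : taut (cl φ C) = true
    · obtain ⟨⟨u, b⟩, h2, h3⟩ := (taut_iff _).1 h1
      by_cases h4 : (if h : u + 1 < 2 ^ (ki φ + 1) then x ⟨u + 1, h⟩ else false) = b
      · exact ⟨(u, b), h2, h4⟩
      · refine ⟨(u, !b), h3, ?_⟩
        show (if h : u + 1 < 2 ^ (ki φ + 1) then x ⟨u + 1, h⟩ else false) = !b
        exact Bool.eq_not_of_ne h4
    · have h2 : C < 2 ^ (kj φ + 1) := by omega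
      obtain ⟨v, h3, h4⟩ := hx ⟨C, h2⟩ (by
        simp only [actN, Bool.and_eq_true, decide_eq_true_eq, Bool.not_eq_true']
        exact ⟨hC, by simpa using h1⟩)
      simp only [incN, Bool.and_eq_true, Bool.not_eq_true', decide_eq_false_iff_not,
        Bool.or_eq_true, List.contains_iff_mem] at h3
      obtain ⟨h5, h6⟩ := h3
      have h7 : v.val - 1 + 1 = v.val := by omega
      have h8 : (if h : v.val - 1 + 1 < 2 ^ (ki φ + 1) then x ⟨v.val - 1 + 1, h⟩ else false) = x v := by
        rw [dif_pos (by rw [h7]; exact v.2)]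
        congr 1
        exact Fin.ext h7
      by_cases h9 : (v.val - 1, true) ∈ cl φ C
      · refine ⟨_, h9, ?_⟩
        show (if h : v.val - 1 + 1 < 2 ^ (ki φ + 1) then x ⟨v.val - 1 + 1, h⟩ else false) = true
        rw [h8, h4]
        simpa [sgN] using h9
      · rcases h6 with h6 | h6
        · exact absurd h6 h9
        refine ⟨_, h6, ?_⟩
        show (if h : v.val - 1 + 1 < 2 ^ (ki φ + 1) then x ⟨v.val - 1 + 1, h⟩ else false) = false
        rw [h8, h4]
        simpa [sgN] using h9

/-- **The reduction.** -/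
theorem red_iff (φ : CNF) (hφ : φ.Wf) : (tab φ, size φ) ∈ ESOP ↔ Sat φ := by
  have hinc : ∀ C : Fin (2 ^ (kj φ + 1)), (fun c : Fin (2 ^ (ki φ + 1)) × Fin (2 ^ (kj φ + 1)) =>
      incN φ c.1 c.2) (0, C) = false := by
    intro C
    simp [incN]
  have hf : ∀ x : List Bool, x.length = 3 * ki φ + 3 * kj φ + 16 →
      chi ((fun x => decide ((codes φ).count x % 2 = 1)) x) =
      fval (i := ki φ) (j := kj φ) (fun c => incN φ c.1 c.2) (fun c => sgN φ c.1 c.2) (fun C => actN φ C) x :=
    fun x _ => fval_eq φ x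
  rw [tab, mem_esop, sat_iff φ hφ]
  constructor
  · rintro ⟨L, h1, h2, h3⟩
    exact core_sat _ _ _ hinc _ hf L h1 h2 h3
  · rintro ⟨x, hx⟩
    exact core_terms _ _ _ hinc _ hf x hx

end Pool.Agent.Lib.EsopHard
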