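import Pool.Agent.Lib.MP_a221bc_esop.Gadget

/-!
# ESOP minimisation: a satisfying assignment from commuting matrices
-/

set_option linter.unusedSimpArgs false

namespace Pool.Agent.Lib.EsopHard

open Matrix

section

variable {α β : Type} [DecidableEq α] [DecidableEq β]

/-- the slice of a block -/
def bs : Blk α β → Sl α β
  | (c, false) => .T c
  | (c, true) => .S c

theorem tens_bs (d : Dat α β) (b : Blk α β) (r k : Blk α β × Bool) :
    tens d (bs b) (.inl r) (.inl k) = if k.1 = b then gm α β r k else 0 := by
  obtain ⟨c, x⟩ := b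
  obtain ⟨⟨c', x'⟩, i⟩ := r
  obtain ⟨⟨c'', x''⟩, j⟩ := k
  by_cases h1 : c = c' <;> by_cases h2 : c = c'' <;> cases x <;> cases x' <;> cases x'' <;> cases i <;> cases j <;>
    simp [bs, tens, Dat.cells, gm, h1, h2, ht, ht', hs, hs', pt, qt, ps, qs, eq_comm]

theorem tens_bs_row (d : Dat α β) (b : Blk α β) (p : (α × β) × Fin 4) (k : Col α β) :
    tens d (bs b) (.inr p) k = 0 := by
  obtain ⟨c, x⟩ := b
  cases x <;> simp [bs, tens, Dat.cells, ht, ht', hs, hs', pt, qt, ps, qs]

theorem tens_bs_col (d : Dat α β) (b : Blk α β) (q : (α × β) × Fin 3) (r : Row α β) :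
    tens d (bs b) r (.inr q) = 0 := by
  obtain ⟨c, x⟩ := b
  cases x <;> simp [bs, tens, Dat.cells, ht, ht', hs, hs', pt, qt, ps, qs]

variable [Fintype α] [Fintype β]

/-- the sums over rows and columns -/
def PairP (d : Dat α β) (M : Sl α β → BM α β) : Prop :=
  ∀ a (rs ks : List (Blk α β × Bool)), (∀ p, (ks.map fun k => tens d a (.inr p) (.inl k)).sum = 0) →
        (∀ q, (rs.map fun r => tens d a (.inl r) (.inr q)).sum = 0) →
        (rs.map fun r => (ks.map fun k => M a r k).sum).sum =
          (rs.map fun r => (ks.map fun k => tens d a (.inl r) (.inl k)).sum).sum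

theorem mat_of_comm {d : Dat α β} {M : Sl α β → BM α β}
    (hc : ∀ a b, M a * gm α β * M b = M b * gm α β * M a) (hp : PairP d M) : Mat d M := by
  have hbs : ∀ (b : Blk α β) (r k : Blk α β × Bool), M (bs b) r k = if k.1 = b then gm α β r k else 0 := by
    intro b r k
    have h1 := hp (bs b) [r] [k] (by simp [tens_bs_row]) (by simp [tens_bs_col])
    simpa [tens_bs] using h1
  refine ⟨fun a r k hrk => ?_, hp⟩
  have h1 := congrFun (congrFun (hc a (bs k.1)) r) k
  have h2 : (M a * gm α β * M (bs k.1)) r k = M a r k := by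
    have h3 : (M a * gm α β * gm α β) r k = M a r k := by rw [Matrix.mul_assoc, gm_sq, Matrix.mul_one]
    rw [← h3, mul_apply, mul_apply]
    refine Finset.sum_congr rfl fun t _ => ?_
    rw [hbs, if_pos rfl]
  have h4 : (M (bs k.1) * gm α β * M a) r k = 0 := by
    rw [Matrix.mul_assoc, mul_apply]
    refine Finset.sum_eq_zero fun t _ => ?_
    rw [hbs]
    split_ifs with h5
    · have : gm α β r t = 0 := by
        unfold gm
        rw [if_neg (fun h => hrk (h.trans h5))]
      rw [this, zero_mul]
    · rw [zero_mul]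
  rw [h2, h4] at h1
  exact h1

theorem block_prod {X Y : BM α β}
    (hX : ∀ r k, r.1 ≠ k.1 → X r k = 0) (b : Blk α β) (i j : Bool) :
    (X * gm α β * Y) (b, i) (b, j) = ∑ x : Bool, ∑ y : Bool, X (b, i) (b, x) * gm α β (b, x) (b, y) * Y (b, y) (b, j) := by
  rw [mul_apply, Fintype.sum_prod_type, Finset.sum_eq_single b]
  · rw [Finset.sum_comm]
    refine Finset.sum_congr rfl fun y _ => ?_
    rw [mul_apply, Fintype.sum_prod_type, Finset.sum_eq_single b, Finset.sum_mul]
    · intro b' _ hb'
      refine Finset.sum_eq_zero fun x _ => ?_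
      rw [hX _ _ (Ne.symm hb'), zero_mul]
    · intro h
      exact absurd (Finset.mem_univ _) h
  · intro b' _ hb'
    refine Finset.sum_eq_zero fun y _ => ?_
    have : (X * gm α β) (b, i) (b', y) = 0 := by
      rw [mul_apply]
      refine Finset.sum_eq_zero fun s _ => ?_
      by_cases hs : b = s.1
      · have : gm α β s (b', y) = 0 := by
          unfold gm
          rw [if_neg]
          rw [← hs]
          exact Ne.symm hb'
        rw [this, mul_zero]
      · rw [hX _ _ hs, zero_mul]
    rw [this, zero_mul]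
  · intro h
    exact absurd (Finset.mem_univ _) h

theorem comm_t {X Y : BM α β} (h : X * gm α β * Y = Y * gm α β * X)
    (hX : ∀ r k, r.1 ≠ k.1 → X r k = 0) (hY : ∀ r k, r.1 ≠ k.1 → Y r k = 0) (c : α × β) :
    X ((c, false), false) ((c, false), false) * Y ((c, false), false) ((c, false), true) +
      X ((c, false), false) ((c, false), true) * Y ((c, false), true) ((c, false), true) =
    Y ((c, false), false) ((c, false), false) * X ((c, false), false) ((c, false), true) +
      Y ((c, false), false) ((c, false), true) * X ((c, false), true) ((c, false), true) := by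
  have h1 := congrFun (congrFun h ((c, false), false)) ((c, false), true)
  rw [block_prod hX, block_prod hY] at h1
  simp [gm] at h1
  rw [add_comm, h1, add_comm]

theorem comm_s {X Y : BM α β} (h : X * gm α β * Y = Y * gm α β * X)
    (hX : ∀ r k, r.1 ≠ k.1 → X r k = 0) (hY : ∀ r k, r.1 ≠ k.1 → Y r k = 0) (c : α × β) :
    X ((c, true), false) ((c, true), false) * Y ((c, true), false) ((c, true), true) +
      X ((c, true), false) ((c, true), false) * Y ((c, true), true) ((c, true), true) +
      X ((c, true), false) ((c, true), true) * Y ((c, true), true) ((c, true), true) =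
    Y ((c, true), false) ((c, true), false) * X ((c, true), false) ((c, true), true) +
      Y ((c, true), false) ((c, true), false) * X ((c, true), true) ((c, true), true) +
      Y ((c, true), false) ((c, true), true) * X ((c, true), true) ((c, true), true) := by
  have h1 := congrFun (congrFun h ((c, true), false)) ((c, true), true)
  rw [block_prod hX, block_prod hY] at h1
  simp [gm] at h1
  linear_combination h1

end

section

variable {V W : ℕ} [NeZero V] [NeZero W]

theorem fin_pred_ne (h : 1 < W) (C : Fin W) : C - 1 ≠ C := by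
  intro h1
  have h2 : C - 1 + 1 = C + 1 := by rw [h1]
  rw [sub_add_cancel] at h2
  have h3 : (1 : Fin W) = 0 := by
    have : C + 0 = C + 1 := by rw [add_zero]; exact h2
    exact (add_left_cancel this).symm
  have h4 := congrArg Fin.val h3
  rw [Fin.val_one', Fin.val_zero, Nat.mod_eq_of_lt h] at h4
  exact one_ne_zero h4

theorem z2_cases (z : ZMod 2) : z = 0 ∨ z = 1 := by
  revert z
  decide

variable {inc sg : Fin V × Fin W → Bool} {act : Fin W → Bool} {M : Sl (Fin V) (Fin W) → BM (Fin V) (Fin W)}

theorem sat_of_comm (hV : 1 < V) (hW : 1 < W) (hinc : ∀ C, inc (0, C) = false)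
    (hc : ∀ a b, M a * gm _ _ * M b = M b * gm _ _ * M a) (hp : PairP (finDat V W inc sg act) M) :
    ∃ x : Fin V → Bool, ∀ C, act C = true → ∃ v, inc (v, C) = true ∧ x v = sg (v, C) := by
  have h := mat_of_comm hc hp
  have hC : ∀ C : Fin W, (finDat V W inc sg act).pc C ≠ C := fin_pred_ne hW
  have hv : ∀ v : Fin V, (finDat V W inc sg act).pv v ≠ v := fin_pred_ne hV
  have epc : ∀ C : Fin W, (finDat V W inc sg act).pc (C + 1) = C := fun C => add_sub_cancel_right C 1
  have epv : ∀ v : Fin V, (finDat V W inc sg act).pv (v + 1) = v := fun v => add_sub_cancel_right v 1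
  -- the bit of the block `t c`
  let b : Fin V → Fin W → ZMod 2 := fun v C => M (.L (v, C)) (((v, C), false), false) (((v, C), false), true)
  have hb : ∀ v C, b v C = M (.L (v, C)) (((v, C), false), false) (((v, C), false), true) := fun _ _ => rfl
  -- entries of the slice `L (v, C + 1)` at the block `t (v, C)`
  have e3 : ∀ v C, M (.L (v, C + 1)) (((v, C), false), false) (((v, C), false), false) = 0 := by
    intro v C
    have := L_3 h (v := v) (hC (C + 1))
    rwa [epc] at this
  have e4 : ∀ v C, M (.L (v, C + 1)) (((v, C), false), true) (((v, C), false), true) = 1 := by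
    intro v C
    have := L_4 h (v := v) (hC (C + 1))
    rwa [epc] at this
  have eb : ∀ v C, M (.L (v, C + 1)) (((v, C), false), false) (((v, C), false), true) = b v C := by
    intro v C
    have h1 := comm_t (hc (.L (v, C)) (.L (v, C + 1))) (h.off _) (h.off _) (v, C)
    rw [L_1 h (hC C), L_2 h (hC C), e3, e4, ← hb, one_mul, mul_one, zero_mul, mul_zero, add_zero] at h1
    rcases z2_cases (M (.L (v, C + 1)) (((v, C), false), false) (((v, C), false), true)) with h2 | h2 <;>
      rcases z2_cases (b v C) with h3 | h3 <;> rw [h2, h3] at h1 ⊢ <;> revert h1 <;> decide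
  have e5 : ∀ v C, b v C + b v (C + 1) = if sg (v, C) = sg (v, C + 1) then 0 else 1 := by
    intro v C
    have h1 := L_5 h (v := v) (hC (C + 1))
    rw [epc, eb, ← hb] at h1
    exact h1
  let x : Fin V → Bool := fun v => if b v 0 = 0 then sg (v, 0) else !sg (v, 0)
  have hx : ∀ v (n : ℕ) (hn : n < W), b v ⟨n, hn⟩ = 0 ↔ x v = sg (v, ⟨n, hn⟩) := by
    intro v n
    induction n with
    | zero =>
      intro hn
      have : (⟨0, hn⟩ : Fin W) = 0 := rfl
      rw [this]
      simp only [x]
      split_ifs with h1
      · simp [h1]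
      · simp [h1]
    | succ n ih =>
      intro hn
      have hn' : n < W := by omega
      have e : (⟨n, hn'⟩ : Fin W) + 1 = ⟨n + 1, hn⟩ := by
        apply Fin.ext
        rw [Fin.val_add, Fin.val_one', Nat.mod_eq_of_lt hW]
        exact Nat.mod_eq_of_lt hn
      have h1 := e5 v ⟨n, hn'⟩
      rw [e] at h1
      have h2 := ih hn'
      rcases z2_cases (b v ⟨n, hn'⟩) with h3 | h3 <;> rcases z2_cases (b v ⟨n + 1, hn⟩) with h4 | h4 <;>
        rw [h3] at h1 h2 <;> rw [h4] at h1 ⊢
      · have h5 : sg (v, ⟨n, hn'⟩) = sg (v, ⟨n + 1, hn⟩) := by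
          by_contra hne
          rw [if_neg hne] at h1
          exact absurd h1 (by decide)
        rw [← h5]
        exact h2
      · have h5 : sg (v, ⟨n, hn'⟩) ≠ sg (v, ⟨n + 1, hn⟩) := by
          intro heq
          rw [if_pos heq] at h1
          exact absurd h1 (by decide)
        have h6 := h2.1 rfl
        rw [h6]
        simp [h5]
      · have h5 : sg (v, ⟨n, hn'⟩) ≠ sg (v, ⟨n + 1, hn⟩) := by
          intro heq
          rw [if_pos heq] at h1
          exact absurd h1 (by decide)
        have h6 : x v ≠ sg (v, ⟨n, hn'⟩) := fun h7 => absurd (h2.2 h7) (by decide)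
        have : ∀ p q r : Bool, p ≠ q → q ≠ r → p = r := by decide
        simp [this _ _ _ h6 h5]
      · have h5 : sg (v, ⟨n, hn'⟩) = sg (v, ⟨n + 1, hn⟩) := by
          by_contra hne
          rw [if_neg hne] at h1
          exact absurd h1 (by decide)
        rw [← h5]
        exact h2
  refine ⟨x, fun C hact => ?_⟩
  by_contra hcon
  push Not at hcon
  -- no incident variable has bit 0
  have hb1 : ∀ v, inc (v, C) = true → b v C = 1 := by
    intro v hi
    rcases z2_cases (b v C) with h1 | h1
    · exact absurd ((hx v C.1 C.2).1 h1) (hcon v hi)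
    · exact h1
  -- the entries of the slices `O`
  have hz : ∀ v : Fin V, (finDat V W inc sg act).z v = decide (v = 0) := fun _ => rfl
  have sA : ∀ v, M (.O (v, C)) (((v, C), true), false) (((v, C), true), true) = 0 ∧
      M (.O (v, C)) (((v, C), true), true) (((v, C), true), true) = 0 := by
    intro v
    by_cases h0 : v = 0
    · subst h0
      exact ⟨Z_2 h (hv 0) (by simp [hz]) (hinc C), Z_3 h (hv 0) (by simp [hz]) (hinc C)⟩
    · by_cases hi : inc (v, C) = true
      · exact ⟨O_5 h (hv v) (by simp [hz, h0]) hi, O_6 h (hv v) (by simp [hz, h0]) hi⟩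
      · rw [Bool.not_eq_true] at hi
        exact ⟨O_5' h (hv v) (by simp [hz, h0]) hi, O_6' h (hv v) (by simp [hz, h0]) hi⟩
  have sN : ∀ v : Fin V, M (.O (v + 1, C)) (((v, C), true), false) (((v, C), true), true) = 0 := by
    intro v
    by_cases h0 : v + 1 = 0
    · have := Z_5 h (hv (v + 1)) (by simp [hz, h0]) (C := C) (by rw [h0]; exact hinc C)
      rwa [epv] at this
    · by_cases hi : inc (v + 1, C) = true
      · have := O_7 h (hv (v + 1)) (by simp [hz, h0]) hi
        rwa [epv] at this
      · rw [Bool.not_eq_true] at hi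
        have := O_7' h (hv (v + 1)) (by simp [hz, h0]) hi
        rwa [epv] at this
  have hAB : ∀ v : Fin V, M (.O (v, C)) (((v, C), true), false) (((v, C), true), false) *
      M (.O (v + 1, C)) (((v, C), true), true) (((v, C), true), true) = 0 := by
    intro v
    have h1 := comm_s (hc (.O (v, C)) (.O (v + 1, C))) (h.off _) (h.off _) (v, C)
    rw [(sA v).1, (sA v).2, sN v] at h1
    simpa using h1
  have hA : ∀ (n : ℕ) (hn : n < V),
      M (.O (⟨n, hn⟩, C)) (((⟨n, hn⟩, C), true), false) (((⟨n, hn⟩, C), true), false) = 1 := by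
    intro n
    induction n with
    | zero =>
      intro hn
      have e : (⟨0, hn⟩ : Fin V) = 0 := rfl
      rw [e, Z_1 h (hv 0) (by simp [hz]) (hinc C)]
      exact if_pos hact
    | succ n ih =>
      intro hn
      have hn' : n < V := by omega
      have e : (⟨n, hn'⟩ : Fin V) + 1 = ⟨n + 1, hn⟩ := by
        apply Fin.ext
        rw [Fin.val_add, Fin.val_one', Nat.mod_eq_of_lt hV]
        exact Nat.mod_eq_of_lt hn
      have h0 : (⟨n + 1, hn⟩ : Fin V) ≠ 0 := by
        intro h1
        have := congrArg Fin.val h1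
        simp at this
      have h1 := hAB ⟨n, hn'⟩
      rw [ih hn', one_mul, e] at h1
      have e' : (finDat V W inc sg act).pv ⟨n + 1, hn⟩ = ⟨n, hn'⟩ := by rw [← e, epv]
      by_cases hi : inc (⟨n + 1, hn⟩, C) = true
      · have h2 := O_1 h (hv _) (by simp [hz, h0]) hi
        rw [e', h1, add_zero] at h2
        -- the entry of the block `t` is zero
        have h3 := comm_t (hc (.O (⟨n + 1, hn⟩, C)) (.L (⟨n + 1, hn⟩, C + 1))) (h.off _) (h.off _) (⟨n + 1, hn⟩, C)
        rw [O_3 h (hv _) (by simp [hz, h0]) hi, O_4 h (hv _) (by simp [hz, h0]) hi, e3, e4, eb, hb1 _ hi] at h3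
        simp only [mul_one, zero_mul, add_zero, mul_zero] at h3
        rw [h3, zero_add] at h2
        exact h2
      · rw [Bool.not_eq_true] at hi
        have h2 := O_2 h (hv _) (by simp [hz, h0]) hi
        rw [e', h1, add_zero] at h2
        exact h2
  -- the last position
  obtain ⟨m, hm⟩ : ∃ m, V = m + 1 := ⟨V - 1, by omega⟩
  have hl : m < V := by omega
  have e : (⟨m, hl⟩ : Fin V) + 1 = 0 := by
    apply Fin.ext
    rw [Fin.val_add, Fin.val_one', Nat.mod_eq_of_lt hV, Fin.val_zero]
    simp [hm]
  have h1 := hAB ⟨m, hl⟩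
  rw [hA m hl, one_mul, e] at h1
  have h2 := Z_4 h (hv 0) (by simp [hz]) (hinc C)
  have e' : (finDat V W inc sg act).pv 0 = ⟨m, hl⟩ := by rw [← e, epv]
  rw [e', h1] at h2
  have h3 : (finDat V W inc sg act).act C = true := hact
  rw [if_pos h3] at h2
  exact absurd h2 (by decide)

end

end Pool.Agent.Lib.EsopHard
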