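import Mathlib

/-!
# ESOP minimisation from the truth table: statement

The minimum circuit size problem for circuits that are an XOR of ANDs of literals (exclusive sums
of products), the function being given by its truth table. Complexity classes are those of
Mathlib's Turing machines with several stacks (`Turing.FinTM2`).
-/

namespace Pool.Agent.Lib.EsopHard

open Turing

/-! ## Exclusive sums of products -/

/-- The `2 ^ n` points of `{0, 1} ^ n`, in lexicographic order. -/
def points : ℕ → List (List Bool)
  | 0 => [[]]
  | n + 1 => (points n).map (List.cons false) ++ (points n).map (List.cons true)

/-- The value at the point `x` of the product term (AND of literals) `t`. The term is given by the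
list of its entries, one for each variable: `some true` for the literal `x_i`, `some false` for the
literal `¬ x_i`, `none` if the variable `x_i` does not occur. -/
def termVal : List (Option Bool) → List Bool → Bool
  | [], [] => true
  | none :: t, _ :: x => termVal t x
  | some b :: t, c :: x => (b == c) && termVal t x
  | _, _ => false

/-- The value at the point `x` of the XOR of the terms of the list `L`. -/
def xorVal (L : List (List (Option Bool))) (x : List Bool) : Bool :=
  (L.map fun t => termVal t x).foldr xor false

/-- The truth table (the list of the values at all the points of `{0, 1} ^ n`, in lexicographic
order) of the XOR of the terms of the list `L`. -/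
def table (n : ℕ) (L : List (List (Option Bool))) : List Bool := (points n).map (xorVal L)

/-- The decision problem: given the truth table `p.1` of a Boolean function and a number `p.2`, is
the function the XOR of at most `p.2` ANDs of literals? (The pairs with answer yes.) -/
def ESOP : Set (List Bool × ℕ) :=
  {p | ∃ (n : ℕ) (L : List (List (Option Bool))),
    L.length ≤ p.2 ∧ (∀ t ∈ L, t.length = n) ∧ p.1 = table n L}

/-! ## Inputs -/

/-- The self-delimiting binary notation of a number: every binary digit (the lowest first) is
preceded by `true`, and `false` marks the end. -/
def natWord (n : ℕ) : List Bool := ((Nat.bits n).flatMap fun b => [true, b]) ++ [false]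

/-- The bit string of an input: the number in binary, followed by the truth table. -/
def word (p : List Bool × ℕ) : List Bool := natWord p.2 ++ p.1

/-- The decision problem, as a language: the bit strings of the inputs with answer yes. -/
def ESOPLanguage : Set (List Bool) := {w | ∃ p ∈ ESOP, word p = w}

/-! ## Complexity -/

/-- The word of a pair of bit strings: the two strings with a separator between them. -/
def pairWord (p : List Bool × List Bool) : List (Option Bool) :=
  p.1.map some ++ none :: p.2.map some

/-- The class NP: `x` is in the language iff there is a witness `w` of length `p(|x|)` with
`V (x, w) = true`, for a polynomial `p` and a predicate `V` decidable in polynomial time. -/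
def InNP (L : Set (List Bool)) : Prop :=
  ∃ (p : Polynomial ℕ) (V : List Bool × List Bool → Bool),
    Nonempty (TM2ComputableInPolyTime pairWord Computability.encodeBool V) ∧
    ∀ x, x ∈ L ↔ ∃ w : List Bool, w.length = p.eval x.length ∧ V (x, w) = true

/-- There is a polynomial-time many-one (Karp) reduction from `L'` to `L`. -/
def KarpReducible (L' L : Set (List Bool)) : Prop :=
  ∃ f : List Bool → List Bool,
    Nonempty (TM2ComputableInPolyTime (fun w : List Bool => w) (fun w : List Bool => w) f) ∧
    ∀ x, x ∈ L' ↔ f x ∈ L

/-- NP-completeness under polynomial-time many-one reductions. -/
def NPComplete (L : Set (List Bool)) : Prop :=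
  InNP L ∧ ∀ L' : Set (List Bool), InNP L' → KarpReducible L' L

end Pool.Agent.Lib.EsopHard
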